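import Pool.Agent.N793.LV.Rad

set_option autoImplicit false

/-!
# Amplification

`F I lam b t = ∑_{n ∈ I} b_n e^{i lam_n t}`. If `|F_b| ≥ V` on `W_j`, `j < J`, and the translates
`W_j + u_j` are disjoint, then there are coefficients `b'`, bounded by `1` if `b` is, with
`|F_{b'}| ≥ V / κ` on at least a quarter of the points of the union of the translates, where
`κ² = 4 J log (16 |I|)`.
-/

namespace Pool.Agent.N793.LV

open Finset

/-- the exponential sum with the frequencies `lam n` -/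
noncomputable def F (I : Finset ℕ) (lam : ℕ → ℝ) (b : ℕ → ℂ) (t : ℝ) : ℂ :=
  ∑ n ∈ I, b n * Complex.exp (Complex.I * (t : ℂ) * (lam n : ℂ))

theorem norm_e (x y : ℝ) : ‖Complex.exp (Complex.I * (x : ℂ) * (y : ℂ))‖ = 1 := by
  have : Complex.I * (x : ℂ) * (y : ℂ) = ((x * y : ℝ) : ℂ) * Complex.I := by push_cast; ring
  rw [this, Complex.norm_exp_ofReal_mul_I]

/-- the coefficients of the signed sum of translates -/
noncomputable def bs {J : ℕ} (lam : ℕ → ℝ) (b : ℕ → ℂ) (u : Fin J → ℝ) (ω : Fin J → Bool) (n : ℕ) : ℂ :=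
  ∑ j, (sg (ω j) : ℂ) * (b n * Complex.exp (Complex.I * ((-(u j) : ℝ) : ℂ) * (lam n : ℂ)))

theorem F_bs {J : ℕ} (I : Finset ℕ) (lam : ℕ → ℝ) (b : ℕ → ℂ) (u : Fin J → ℝ) (ω : Fin J → Bool)
    (t : ℝ) : F I lam (bs lam b u ω) t = ∑ j, (sg (ω j) : ℂ) * F I lam b (t - u j) := by
  unfold F bs
  simp_rw [sum_mul, mul_sum]
  rw [sum_comm]
  apply sum_congr rfl
  intro j _
  apply sum_congr rfl
  intro n _
  have : Complex.exp (Complex.I * ((t - u j : ℝ) : ℂ) * (lam n : ℂ)) =
      Complex.exp (Complex.I * ((-(u j) : ℝ) : ℂ) * (lam n : ℂ)) *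
        Complex.exp (Complex.I * (t : ℂ) * (lam n : ℂ)) := by
    rw [← Complex.exp_add]
    congr 1
    push_cast
    ring
  rw [this]
  ring

theorem F_smul (I : Finset ℕ) (lam : ℕ → ℝ) (b : ℕ → ℂ) (c : ℂ) (t : ℝ) :
    F I lam (fun n => c * b n) t = c * F I lam b t := by
  unfold F
  rw [mul_sum]
  exact sum_congr rfl (fun n _ => by ring)

/-- the flip of the `j`th sign -/
def flip {J : ℕ} (j : Fin J) (ω : Fin J → Bool) : Fin J → Bool := Function.update ω j (!(ω j))

theorem flip_flip {J : ℕ} (j : Fin J) (ω : Fin J → Bool) : flip j (flip j ω) = ω := by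
  unfold flip
  rw [Function.update_self, Function.update_idem, Bool.not_not, Function.update_eq_self]

theorem sum_flip {J : ℕ} (j : Fin J) (ω : Fin J → Bool) (z : Fin J → ℂ) :
    ∑ i, (sg (ω i) : ℂ) * z i - ∑ i, (sg (flip j ω i) : ℂ) * z i = 2 * (sg (ω j) : ℂ) * z j := by
  rw [← sum_sub_distrib]
  rw [sum_eq_single j]
  · unfold flip
    rw [Function.update_self, sg_not]
    push_cast
    ring
  · intro i _ hij
    unfold flip
    rw [Function.update_of_ne hij]
    ring
  · intro h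
    exact absurd (mem_univ _) h

/-- for at least one half of the signs the signed sum is at least the modulus of each term -/
theorem half {J : ℕ} (j : Fin J) (z : Fin J → ℂ) {V : ℝ} (hV : V ≤ ‖z j‖) :
    (2 : ℝ) ^ J ≤
      2 * ((univ.filter (fun ω : Fin J → Bool => V ≤ ‖∑ i, (sg (ω i) : ℂ) * z i‖)).card : ℝ) := by
  set G := univ.filter (fun ω : Fin J → Bool => V ≤ ‖∑ i, (sg (ω i) : ℂ) * z i‖) with hG
  have h1 : (univ : Finset (Fin J → Bool)) ⊆ G ∪ G.image (flip j) := by
    intro ω _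
    rw [mem_union]
    by_contra hcon
    push Not at hcon
    obtain ⟨hc1, hc2⟩ := hcon
    have h2 : ‖∑ i, (sg (ω i) : ℂ) * z i‖ < V := by
      by_contra h
      exact hc1 (mem_filter.2 ⟨mem_univ _, not_lt.1 h⟩)
    have h3 : ‖∑ i, (sg (flip j ω i) : ℂ) * z i‖ < V := by
      by_contra h
      apply hc2
      rw [mem_image]
      exact ⟨flip j ω, mem_filter.2 ⟨mem_univ _, not_lt.1 h⟩, flip_flip j ω⟩
    have h4 := sum_flip j ω z
    have h5 : ‖2 * (sg (ω j) : ℂ) * z j‖ = 2 * ‖z j‖ := by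
      rw [norm_mul, norm_mul]
      have : ‖(sg (ω j) : ℂ)‖ = 1 := by
        rw [Complex.norm_real]
        cases ω j <;> simp [sg]
      rw [this]
      simp
    have h6 : ‖2 * (sg (ω j) : ℂ) * z j‖ ≤ ‖∑ i, (sg (ω i) : ℂ) * z i‖ +
        ‖∑ i, (sg (flip j ω i) : ℂ) * z i‖ := by
      rw [← h4]
      exact norm_sub_le _ _
    rw [h5] at h6
    linarith
  have h2 := card_le_card h1
  have h3 : (univ : Finset (Fin J → Bool)).card = 2 ^ J := by
    rw [card_univ, Fintype.card_fun, Fintype.card_fin, Fintype.card_bool]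
  have h4 := card_union_le G (G.image (flip j))
  have h5 := card_image_le (s := G) (f := flip j)
  have h6 : 2 ^ J ≤ 2 * G.card := by omega
  exact_mod_cast h6

/-- the number of sign vectors for which a coefficient is large -/
theorem bad {J : ℕ} (I : Finset ℕ) (lam : ℕ → ℝ) (b : ℕ → ℂ) (u : Fin J → ℝ) (hJ : 1 ≤ J)
    (hI : I.Nonempty) (hb : ∀ n ∈ I, ‖b n‖ ≤ 1) {κ : ℝ} (hκ : 0 < κ)
    (hκ2 : 4 * J * Real.log (16 * I.card) ≤ κ ^ 2) :
    4 * ((univ.filter (fun ω : Fin J → Bool => ∃ n ∈ I, κ < ‖bs lam b u ω n‖)).card : ℝ) ≤ 2 ^ J := by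
  have hJ0 : (0 : ℝ) < J := by exact_mod_cast hJ
  have hI0 : (0 : ℝ) < I.card := by exact_mod_cast hI.card_pos
  have h1 : (univ.filter (fun ω : Fin J → Bool => ∃ n ∈ I, κ < ‖bs lam b u ω n‖)) ⊆
      I.biUnion (fun n => univ.filter (fun ω : Fin J → Bool => κ < ‖bs lam b u ω n‖)) := by
    intro ω hω
    rw [mem_filter] at hω
    obtain ⟨n, hn, h⟩ := hω.2
    rw [mem_biUnion]
    exact ⟨n, hn, mem_filter.2 ⟨mem_univ _, h⟩⟩
  have h2 := (card_le_card h1).trans card_biUnion_le
  have h3 : ((univ.filter (fun ω : Fin J → Bool => ∃ n ∈ I, κ < ‖bs lam b u ω n‖)).card : ℝ) ≤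
      ∑ n ∈ I, ((univ.filter (fun ω : Fin J → Bool => κ < ‖bs lam b u ω n‖)).card : ℝ) := by
    exact_mod_cast h2
  have h4 : ∑ n ∈ I, ((univ.filter (fun ω : Fin J → Bool => κ < ‖bs lam b u ω n‖)).card : ℝ) ≤
      ∑ n ∈ I, 4 * (2 ^ J * Real.exp (-(κ ^ 2 / (4 * J)))) := by
    apply sum_le_sum
    intro n hn
    apply tail _ _ hκ
    intro j
    rw [norm_mul, norm_e, mul_one]
    exact hb n hn
  rw [sum_const, nsmul_eq_mul] at h4
  have h5 : Real.exp (-(κ ^ 2 / (4 * J))) ≤ 1 / (16 * I.card) := by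
    have h6 : Real.log (16 * I.card) ≤ κ ^ 2 / (4 * J) := by
      rw [le_div_iff₀ (by positivity)]
      linarith
    calc Real.exp (-(κ ^ 2 / (4 * J))) ≤ Real.exp (-(Real.log (16 * I.card))) :=
          Real.exp_le_exp.2 (neg_le_neg h6)
      _ = 1 / (16 * I.card) := by
          rw [Real.exp_neg, Real.exp_log (by positivity), one_div]
  have h6 : (I.card : ℝ) * (4 * (2 ^ J * Real.exp (-(κ ^ 2 / (4 * J))))) ≤
      I.card * (4 * (2 ^ J * (1 / (16 * I.card)))) := by
    gcongr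
  have h7 : (I.card : ℝ) * (4 * (2 ^ J * (1 / (16 * I.card)))) = 2 ^ J / 4 := by
    field_simp
    norm_num
  linarith

/-- **Amplification.** -/
theorem amplify {J : ℕ} (I : Finset ℕ) (lam : ℕ → ℝ) (b : ℕ → ℂ) (u : Fin J → ℝ) (hJ : 1 ≤ J)
    (hI : I.Nonempty) (hb : ∀ n ∈ I, ‖b n‖ ≤ 1) {κ V : ℝ} (hκ : 0 < κ)
    (hκ2 : 4 * J * Real.log (16 * I.card) ≤ κ ^ 2) (U : Finset ℝ)
    (hU : ∀ t ∈ U, ∃ j, V ≤ ‖F I lam b (t - u j)‖) :
    ∃ (b' : ℕ → ℂ) (U' : Finset ℝ), (∀ n ∈ I, ‖b' n‖ ≤ 1) ∧ U' ⊆ U ∧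
      (U.card : ℝ) ≤ 4 * U'.card ∧ ∀ t ∈ U', V / κ ≤ ‖F I lam b' t‖ := by
  classical
  set Bad := (univ.filter (fun ω : Fin J → Bool => ∃ n ∈ I, κ < ‖bs lam b u ω n‖)) with hBad
  have hbad := bad I lam b u hJ hI hb hκ hκ2
  rw [← hBad] at hbad
  set P : (Fin J → Bool) → Finset ℝ := fun ω => U.filter (fun t => V ≤ ‖F I lam (bs lam b u ω) t‖)
    with hP
  have hsum : ∑ ω : Fin J → Bool, ((P ω).card : ℝ) =
      ∑ t ∈ U, ((univ.filter (fun ω : Fin J → Bool => V ≤ ‖F I lam (bs lam b u ω) t‖)).card : ℝ) := by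
    simp only [hP, card_filter, Nat.cast_sum]
    rw [sum_comm]
  have hge : (U.card : ℝ) * (2 ^ J / 2) ≤ ∑ ω : Fin J → Bool, ((P ω).card : ℝ) := by
    rw [hsum, ← nsmul_eq_mul, ← sum_const]
    apply sum_le_sum
    intro t ht
    obtain ⟨j, hj⟩ := hU t ht
    have h := half j (fun i => F I lam b (t - u i)) hj
    have h2 : (univ.filter (fun ω : Fin J → Bool => V ≤ ‖F I lam (bs lam b u ω) t‖)) =
        (univ.filter (fun ω : Fin J → Bool => V ≤ ‖∑ i, (sg (ω i) : ℂ) * F I lam b (t - u i)‖)) := by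
      apply filter_congr
      intro ω _
      rw [F_bs]
    rw [h2]
    linarith
  have hPU : ∀ ω, ((P ω).card : ℝ) ≤ U.card := by
    intro ω
    exact_mod_cast card_le_card (filter_subset _ _)
  obtain ⟨ω, hω, hω2⟩ : ∃ ω, ω ∉ Bad ∧ (U.card : ℝ) ≤ 4 * (P ω).card := by
    by_contra hcon
    push Not at hcon
    have h1 : ∑ ω : Fin J → Bool, ((P ω).card : ℝ) ≤
        ∑ ω : Fin J → Bool, ((if ω ∈ Bad then (U.card : ℝ) else 0) + U.card / 4) := by
      apply sum_le_sum
      intro ω _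
      split_ifs with h
      · have := hPU ω
        have : (0 : ℝ) ≤ U.card := Nat.cast_nonneg _
        linarith
      · have := hcon ω h
        linarith
    rw [sum_add_distrib, sum_const, card_univ, Fintype.card_fun, Fintype.card_fin,
      Fintype.card_bool, ← sum_filter, sum_const, nsmul_eq_mul, nsmul_eq_mul] at h1
    have h2 : (univ.filter (fun ω => ω ∈ Bad)) = Bad := by
      ext ω; simp
    rw [h2] at h1
    push_cast at h1
    have h3 : (0 : ℝ) ≤ U.card := Nat.cast_nonneg _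
    have h4 : (Bad.card : ℝ) * U.card ≤ 2 ^ J / 4 * U.card :=
      mul_le_mul_of_nonneg_right (by linarith) h3
    -- need strictness
    rcases h3.lt_or_eq with h5 | h5
    · have h6 : ∑ ω : Fin J → Bool, ((P ω).card : ℝ) <
          ∑ ω : Fin J → Bool, ((if ω ∈ Bad then (U.card : ℝ) else 0) + U.card / 4) := by
        apply sum_lt_sum
        · intro ω _
          split_ifs with h
          · have := hPU ω
            linarith
          · have := hcon ω h
            linarith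
        · refine ⟨fun _ => true, mem_univ _, ?_⟩
          split_ifs with h
          · have := hPU (fun _ => true)
            linarith
          · have := hcon (fun _ => true) h
            linarith
      rw [sum_add_distrib, sum_const, card_univ, Fintype.card_fun, Fintype.card_fin,
        Fintype.card_bool, ← sum_filter, sum_const, nsmul_eq_mul, nsmul_eq_mul] at h6
      rw [h2] at h6
      push_cast at h6
      nlinarith
    · -- `U` is empty
      have h6 : ∃ ω, ω ∉ Bad := by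
        by_contra hall
        push Not at hall
        have : Bad = univ := by ext ω; simp [hall ω]
        rw [this, card_univ, Fintype.card_fun, Fintype.card_fin, Fintype.card_bool] at hbad
        push_cast at hbad
        have : (0 : ℝ) < 2 ^ J := by positivity
        linarith
      obtain ⟨ω, hω⟩ := h6
      have h7 := hcon ω hω
      rw [← h5] at h7
      have : (0 : ℝ) ≤ (P ω).card := Nat.cast_nonneg _
      linarith
  refine ⟨fun n => ((κ⁻¹ : ℝ) : ℂ) * bs lam b u ω n, P ω, ?_, filter_subset _ _, hω2, ?_⟩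
  · intro n hn
    have h1 : ‖bs lam b u ω n‖ ≤ κ := by
      by_contra h
      apply hω
      rw [hBad, mem_filter]
      exact ⟨mem_univ _, n, hn, not_le.1 h⟩
    rw [norm_mul, Complex.norm_real, Real.norm_eq_abs, abs_of_pos (inv_pos.2 hκ)]
    rw [inv_mul_le_iff₀ hκ, mul_one]
    exact h1
  · intro t ht
    rw [hP, mem_filter] at ht
    rw [F_smul, norm_mul, Complex.norm_real, Real.norm_eq_abs, abs_of_pos (inv_pos.2 hκ)]
    rw [div_eq_inv_mul]
    exact mul_le_mul_of_nonneg_left ht.2 (inv_pos.2 hκ).le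

end Pool.Agent.N793.LV
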