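import Pool.Agent.N793.LV.Pie2

set_option autoImplicit false

/-!
# Deleting a few integers
-/

namespace Pool.Agent.N793.LV.Pie

open Finset

theorem F_sub (I G : Finset ℕ) (hG : G ⊆ I) (lam : ℕ → ℝ) (a : ℕ → ℂ) (ha : ∀ n, n ∉ G → a n = 0)
    (t : ℝ) : F I lam a t = F G lam a t := by
  unfold F
  symm
  apply sum_subset hG
  intro n _ hn
  rw [ha n hn, zero_mul]

theorem Q_sub (I G : Finset ℕ) (hG : G ⊆ I) (lam : ℕ → ℝ) (W : Finset ℝ) (a : ℕ → ℂ)
    (ha : ∀ n, n ∉ G → a n = 0) : Q I lam W a = Q G lam W a := by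
  unfold Q
  apply sum_congr rfl
  intro t _
  rw [F_sub I G hG lam a ha]

theorem Q_congr (I : Finset ℕ) (lam : ℕ → ℝ) (W : Finset ℝ) (a b : ℕ → ℂ)
    (h : ∀ n ∈ I, a n = b n) : Q I lam W a = Q I lam W b := by
  unfold Q F
  apply sum_congr rfl
  intro t _
  rw [sum_congr rfl fun n hn => by rw [h n hn]]

/-- **deletion** -/
theorem del (S : Finset ℕ) (hS : S.Nonempty) (lam : ℕ → ℝ) (W : Finset ℝ) {M η : ℝ} (hη : 0 < η)
    (hM : ∀ a : ℕ → ℂ, (∀ n ∈ S, ‖a n‖ ≤ 1) → Q S lam W a ≤ M) :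
    ∃ G ⊆ S, ((S \ G).card : ℝ) ≤ η * S.card ∧
      ∀ a : ℕ → ℂ, Q G lam W a ≤
        12 * Real.log (16 * S.card) * M * (1 / (η * S.card)) * ∑ n ∈ G, ‖a n‖ ^ 2 := by
  classical
  have hM0 : 0 ≤ M := (Q_nonneg S lam W _).trans (hM (fun _ => 0) (fun _ _ => by simp))
  have hS0 : (1 : ℝ) ≤ S.card := by exact_mod_cast hS.card_pos
  have hSp : (0 : ℝ) < S.card := by linarith
  have hL : 0 < Real.log (16 * S.card) := Real.log_pos (by linarith)
  obtain ⟨w, hw0, hw1, hw⟩ := weights S hS lam W hM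
  set G := S.filter (fun n => w n ≤ 1 / (η * S.card)) with hG
  refine ⟨G, filter_subset _ _, ?_, ?_⟩
  · have h1 : ((S \ G).card : ℝ) * (1 / (η * S.card)) ≤ 1 := by
      calc ((S \ G).card : ℝ) * (1 / (η * S.card)) = ∑ n ∈ S \ G, 1 / (η * S.card) := by
            rw [sum_const, nsmul_eq_mul]
        _ ≤ ∑ n ∈ S \ G, w n := by
            apply sum_le_sum
            intro n hn
            rw [mem_sdiff, hG, mem_filter] at hn
            push Not at hn
            exact (hn.2 hn.1).le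
        _ ≤ ∑ n ∈ S, w n := sum_le_sum_of_subset_of_nonneg sdiff_subset (fun n _ _ => hw0 n)
        _ = 1 := hw1
    rw [mul_one_div, div_le_one (by positivity)] at h1
    exact h1
  · intro a
    set a' : ℕ → ℂ := fun n => if n ∈ G then a n else 0 with ha'
    have h1 := hw a'
    rw [Q_sub S G (filter_subset _ _) lam W a' (fun n hn => by simp only [ha']; rw [if_neg hn]),
      Q_congr G lam W a' a (fun n hn => by simp only [ha']; rw [if_pos hn])] at h1
    refine h1.trans ?_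
    have h2 : ∑ n ∈ S, w n * ‖a' n‖ ^ 2 ≤ 1 / (η * S.card) * ∑ n ∈ G, ‖a n‖ ^ 2 := by
      rw [mul_sum]
      have h3 : ∑ n ∈ S, w n * ‖a' n‖ ^ 2 = ∑ n ∈ G, w n * ‖a n‖ ^ 2 := by
        symm
        rw [← sum_subset (filter_subset (fun n => w n ≤ 1 / (η * S.card)) S)]
        · apply sum_congr rfl
          intro n hn
          simp only [ha']
          rw [if_pos hn]
        · intro n _ hn
          simp only [ha']
          rw [if_neg hn]
          simp
      rw [h3]
      apply sum_le_sum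
      intro n hn
      exact mul_le_mul_of_nonneg_right (mem_filter.1 hn).2 (sq_nonneg _)
    calc 12 * Real.log (16 * S.card) * M * ∑ n ∈ S, w n * ‖a' n‖ ^ 2
        ≤ 12 * Real.log (16 * S.card) * M * (1 / (η * S.card) * ∑ n ∈ G, ‖a n‖ ^ 2) :=
          mul_le_mul_of_nonneg_left h2 (by positivity)
      _ = _ := by ring

/-- the elementary inequality -/
theorem sq_add_le (x y : ℂ) (k : ℕ) (hk : 1 ≤ k) :
    ‖x + y‖ ^ 2 ≤ (1 + k) * ‖x‖ ^ 2 + (1 + 1 / k) * ‖y‖ ^ 2 := by
  have hk0 : (0 : ℝ) < k := by exact_mod_cast hk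
  have h1 : ‖x + y‖ ^ 2 ≤ (‖x‖ + ‖y‖) ^ 2 := pow_le_pow_left₀ (norm_nonneg _) (norm_add_le _ _) 2
  refine h1.trans ?_
  have h2 : 0 ≤ (k * ‖x‖ - ‖y‖) ^ 2 / k := by positivity
  have e : (k * ‖x‖ - ‖y‖) ^ 2 / k = k * ‖x‖ ^ 2 - 2 * ‖x‖ * ‖y‖ + 1 / k * ‖y‖ ^ 2 := by
    field_simp
    ring
  rw [e] at h2
  nlinarith

/-- **the iteration** -/
theorem iter (I : Finset ℕ) (lam : ℕ → ℝ) (W : Finset ℝ) {B η : ℝ} (hB : 0 ≤ B) (hη : 0 < η)
    (h : ∀ S ⊆ I, S.Nonempty → ∃ G ⊆ S, ((S \ G).card : ℝ) ≤ η * S.card ∧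
      ∀ a : ℕ → ℂ, (∀ n, ‖a n‖ ≤ 1) → (∀ n, n ∉ G → a n = 0) → Q I lam W a ≤ B) :
    ∀ k : ℕ, ∀ S ⊆ I, (S.card : ℝ) < (1 / η) ^ k → ∀ a : ℕ → ℂ, (∀ n, ‖a n‖ ≤ 1) →
      (∀ n, n ∉ S → a n = 0) → Q I lam W a ≤ (k : ℝ) ^ 2 * B := by
  classical
  intro k
  induction k with
  | zero =>
    intro S hS hc a ha haS
    rw [pow_zero] at hc
    have hS0 : S = ∅ := by
      rw [← card_eq_zero]
      have : S.card < 1 := by exact_mod_cast hc
      omega
    have h0 : Q I lam W a = 0 := by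
      rw [Q_sub I S hS lam W a haS, hS0]
      unfold Q F
      simp
    rw [h0]
    positivity
  | succ k ih =>
    intro S hS hc a ha haS
    rcases S.eq_empty_or_nonempty with rfl | hne
    · have h0 : Q I lam W a = 0 := by
        rw [Q_sub I ∅ hS lam W a haS]
        unfold Q F
        simp
      rw [h0]
      positivity
    obtain ⟨G, hG, hcG, hGB⟩ := h S hS hne
    set x : ℕ → ℂ := fun n => if n ∈ G then a n else 0 with hx
    set y : ℕ → ℂ := fun n => if n ∈ G then 0 else a n with hy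
    have hx1 : ∀ n, ‖x n‖ ≤ 1 := by
      intro n; simp only [hx]; split_ifs
      · exact ha n
      · simp
    have hy1 : ∀ n, ‖y n‖ ≤ 1 := by
      intro n; simp only [hy]; split_ifs
      · simp
      · exact ha n
    have hQx := hGB x hx1 (fun n hn => by simp only [hx]; rw [if_neg hn])
    have hcS : ((S \ G).card : ℝ) < (1 / η) ^ k := by
      refine lt_of_le_of_lt hcG ?_
      rw [pow_succ] at hc
      have h1 := mul_lt_mul_of_pos_left hc hη
      have e : η * ((1 / η) ^ k * (1 / η)) = (1 / η) ^ k := by field_simp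
      rw [e] at h1
      exact h1
    have hQy := ih (S \ G) (sdiff_subset.trans hS) hcS y hy1 (fun n hn => by
      simp only [hy]
      by_cases hnG : n ∈ G
      · rw [if_pos hnG]
      · rw [if_neg hnG]
        apply haS
        intro hnS
        exact hn (mem_sdiff.2 ⟨hnS, hnG⟩))
    have hF : ∀ t, F I lam a t = F I lam x t + F I lam y t := by
      intro t
      unfold F
      rw [← sum_add_distrib]
      apply sum_congr rfl
      intro n _
      simp only [hx, hy]
      split_ifs <;> ring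
    rcases Nat.eq_zero_or_pos k with hk | hk
    · subst hk
      have hy0 : Q I lam W y ≤ 0 := by
        simpa using hQy
      have h1 : ∀ t ∈ W, F I lam y t = 0 := by
        intro t ht
        have h2 : ‖F I lam y t‖ ^ 2 ≤ Q I lam W y := by
          unfold Q
          exact single_le_sum (f := fun t => ‖F I lam y t‖ ^ 2) (fun _ _ => sq_nonneg _) ht
        have h3 : ‖F I lam y t‖ ^ 2 = 0 := le_antisymm (h2.trans hy0) (sq_nonneg _)
        simpa using h3
      have h2 : Q I lam W a = Q I lam W x := by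
        unfold Q
        apply sum_congr rfl
        intro t ht
        rw [hF, h1 t ht, add_zero]
      rw [h2]
      simpa using hQx
    · have hk0 : (0 : ℝ) < k := by exact_mod_cast hk
      have h1 : Q I lam W a ≤ (1 + k) * Q I lam W x + (1 + 1 / k) * Q I lam W y := by
        unfold Q
        rw [mul_sum, mul_sum, ← sum_add_distrib]
        apply sum_le_sum
        intro t _
        rw [hF]
        exact sq_add_le _ _ k hk
      have h2 : (1 + 1 / (k : ℝ)) * Q I lam W y ≤ (1 + 1 / (k : ℝ)) * ((k : ℝ) ^ 2 * B) :=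
        mul_le_mul_of_nonneg_left hQy (by positivity)
      have h3 : (1 + (k : ℝ)) * Q I lam W x ≤ (1 + k) * B := mul_le_mul_of_nonneg_left hQx (by positivity)
      have e : (1 + (k : ℝ)) * B + (1 + 1 / (k : ℝ)) * ((k : ℝ) ^ 2 * B) = (((k + 1 : ℕ) : ℝ)) ^ 2 * B := by
        push_cast
        field_simp
        ring
      linarith

end Pool.Agent.N793.LV.Pie
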