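import Pool.Agent.N793.LV.Amp

set_option autoImplicit false

/-!
# Translates with a large separated union, and the amplification in a fixed interval
-/

namespace Pool.Agent.N793.LV

open Finset

/-- `1`-separated sets -/
def Sep (W : Finset ℝ) : Prop := ∀ t ∈ W, ∀ u ∈ W, t ≠ u → 1 ≤ |t - u|

theorem card_near (M : ℕ) (w x : ℝ) :
    ((range M).filter (fun u : ℕ => |w + (u : ℝ) - x| < 1)).card ≤ 2 := by
  have h : ((range M).filter (fun u : ℕ => |w + (u : ℝ) - x| < 1)).image (fun u : ℕ => (u : ℤ)) ⊆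
      {⌊x - w⌋, ⌊x - w⌋ + 1} := by
    intro z hz
    rw [mem_image] at hz
    obtain ⟨u, hu, rfl⟩ := hz
    rw [mem_filter, abs_lt] at hu
    obtain ⟨_, h1, h2⟩ := hu
    have h3 := Int.floor_le (x - w)
    have h4 := Int.lt_floor_add_one (x - w)
    have h5 : (⌊x - w⌋ : ℝ) - 1 < ((u : ℤ) : ℝ) := by push_cast; linarith
    have h6 : ((u : ℤ) : ℝ) < (⌊x - w⌋ : ℝ) + 2 := by push_cast; linarith
    have h7 : ⌊x - w⌋ - 1 < (u : ℤ) := by exact_mod_cast h5
    have h8 : (u : ℤ) < ⌊x - w⌋ + 2 := by exact_mod_cast h6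
    rw [mem_insert, mem_singleton]
    omega
  have h1 := card_le_card h
  rw [card_image_of_injective _ (fun a b h => by exact_mod_cast h)] at h1
  exact h1.trans card_le_two

theorem exists_shift (W U : Finset ℝ) (M : ℕ) (hM : 4 * U.card < M) :
    ∃ u < M, W.card ≤ 2 * (W.filter (fun w => ∀ x ∈ U, 1 ≤ |w + (u : ℝ) - x|)).card := by
  classical
  by_contra hcon
  push Not at hcon
  have h1 : ∀ u ∈ range M, W.card + 1 ≤
      2 * (W.filter (fun w => ∃ x ∈ U, |w + (u : ℝ) - x| < 1)).card := by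
    intro u hu
    have h2 := hcon u (mem_range.1 hu)
    have h3 := card_filter_add_card_filter_not (s := W) (fun w => ∀ x ∈ U, 1 ≤ |w + (u : ℝ) - x|)
    have h4 : (W.filter (fun w => ¬ ∀ x ∈ U, 1 ≤ |w + (u : ℝ) - x|)) =
        (W.filter (fun w => ∃ x ∈ U, |w + (u : ℝ) - x| < 1)) := by
      apply filter_congr
      intro w _
      push Not
      rfl
    rw [h4] at h3
    omega
  have h2 : ∑ u ∈ range M, (W.filter (fun w => ∃ x ∈ U, |w + (u : ℝ) - x| < 1)).card ≤
      2 * (W.card * U.card) := by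
    calc ∑ u ∈ range M, (W.filter (fun w => ∃ x ∈ U, |w + (u : ℝ) - x| < 1)).card
        ≤ ∑ u ∈ range M, ∑ w ∈ W, ∑ x ∈ U, (if |w + (u : ℝ) - x| < 1 then 1 else 0) := by
          apply sum_le_sum
          intro u _
          rw [card_filter]
          apply sum_le_sum
          intro w _
          split_ifs with h
          · obtain ⟨x, hx, hx2⟩ := h
            have h5 := single_le_sum (f := fun x => if |w + (u : ℝ) - x| < 1 then 1 else 0)
              (fun i _ => Nat.zero_le _) hx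
            simp only [hx2, if_true] at h5
            exact h5
          · exact Nat.zero_le _
      _ = ∑ w ∈ W, ∑ x ∈ U, ∑ u ∈ range M, (if |w + (u : ℝ) - x| < 1 then 1 else 0) := by
          rw [sum_comm]
          apply sum_congr rfl
          intro w _
          rw [sum_comm]
      _ ≤ ∑ w ∈ W, ∑ x ∈ U, 2 := by
          apply sum_le_sum
          intro w _
          apply sum_le_sum
          intro x _
          have := card_near M w x
          rw [card_filter] at this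
          exact this
      _ = 2 * (W.card * U.card) := by
          rw [sum_const, sum_const, smul_eq_mul, smul_eq_mul]
          ring
  have h3 : M * (W.card + 1) ≤ 2 * (2 * (W.card * U.card)) := by
    calc M * (W.card + 1) = ∑ u ∈ range M, (W.card + 1) := by rw [sum_const, card_range, smul_eq_mul]
      _ ≤ ∑ u ∈ range M, 2 * (W.filter (fun w => ∃ x ∈ U, |w + (u : ℝ) - x| < 1)).card :=
          sum_le_sum h1
      _ = 2 * ∑ u ∈ range M, (W.filter (fun w => ∃ x ∈ U, |w + (u : ℝ) - x| < 1)).card := by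
          rw [mul_sum]
      _ ≤ _ := Nat.mul_le_mul_left _ h2
  nlinarith

/-- **translates with a large separated union** -/
theorem greedy (W : Finset ℝ) (hW : Sep W) (M : ℕ) (J : ℕ) :
    ∃ (u : Fin J → ℕ) (U : Finset ℝ), (∀ j, u j < M ∨ M = 0) ∧ Sep U ∧
      (∀ t ∈ U, ∃ j, t - (u j : ℝ) ∈ W) ∧
      min ((J : ℝ) * W.card) ((M : ℝ) / 2) ≤ 2 * U.card := by
  classical
  induction J with
  | zero =>
    refine ⟨fun j => 0, ∅, fun j => j.elim0, ?_, ?_, ?_⟩
    · intro t ht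
      simp at ht
    · intro t ht
      simp at ht
    · simp
  | succ J ih =>
    obtain ⟨u, U, hu, hU, hUW, hc⟩ := ih
    by_cases h : 4 * U.card < M
    · obtain ⟨u0, hu0, hg⟩ := exists_shift W U M h
      set G := W.filter (fun w => ∀ x ∈ U, 1 ≤ |w + (u0 : ℝ) - x|) with hG
      have hinj : Function.Injective (fun w : ℝ => w + (u0 : ℝ)) := add_left_injective _
      have hdisj : Disjoint U (G.image (fun w : ℝ => w + (u0 : ℝ))) := by
        rw [disjoint_left]
        intro x hx hx2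
        rw [mem_image] at hx2
        obtain ⟨w, hw, rfl⟩ := hx2
        have := (mem_filter.1 hw).2 _ hx
        rw [sub_self, abs_zero] at this
        linarith
      refine ⟨Fin.snoc u u0, U ∪ G.image (fun w : ℝ => w + (u0 : ℝ)), ?_, ?_, ?_, ?_⟩
      · intro j
        refine Fin.lastCases ?_ (fun i => ?_) j
        · left
          rw [Fin.snoc_last]
          exact hu0
        · rw [Fin.snoc_castSucc]
          exact hu i
      · intro s hs t ht hst
        rw [mem_union] at hs ht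
        rcases hs with hs | hs <;> rcases ht with ht | ht
        · exact hU s hs t ht hst
        · rw [mem_image] at ht
          obtain ⟨w, hw, rfl⟩ := ht
          have := (mem_filter.1 hw).2 _ hs
          rw [abs_sub_comm]
          exact this
        · rw [mem_image] at hs
          obtain ⟨w, hw, rfl⟩ := hs
          exact (mem_filter.1 hw).2 _ ht
        · rw [mem_image] at hs ht
          obtain ⟨w, hw, rfl⟩ := hs
          obtain ⟨v, hv, rfl⟩ := ht
          have := hW w (mem_filter.1 hw).1 v (mem_filter.1 hv).1 (fun h => hst (by rw [h]))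
          have e : w + (u0 : ℝ) - (v + (u0 : ℝ)) = w - v := by ring
          rw [e]
          exact this
      · intro t ht
        rw [mem_union] at ht
        rcases ht with ht | ht
        · obtain ⟨j, hj⟩ := hUW t ht
          refine ⟨Fin.castSucc j, ?_⟩
          rw [Fin.snoc_castSucc]
          exact hj
        · rw [mem_image] at ht
          obtain ⟨w, hw, rfl⟩ := ht
          refine ⟨Fin.last J, ?_⟩
          rw [Fin.snoc_last, add_sub_cancel_right]
          exact (mem_filter.1 hw).1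
      · rw [card_union_of_disjoint hdisj, card_image_of_injective _ hinj]
        push_cast
        have h1 : (4 : ℝ) * U.card < M := by exact_mod_cast h
        have h2 : (W.card : ℝ) ≤ 2 * G.card := by exact_mod_cast hg
        have h3 : (J : ℝ) * W.card ≤ 2 * U.card := by
          rcases min_le_iff.1 hc with h4 | h4
          · exact h4
          · linarith
        refine (min_le_left _ _).trans ?_
        nlinarith
    · push Not at h
      refine ⟨Fin.snoc u 0, U, ?_, hU, ?_, ?_⟩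
      · intro j
        refine Fin.lastCases ?_ (fun i => ?_) j
        · rw [Fin.snoc_last]
          omega
        · rw [Fin.snoc_castSucc]
          exact hu i
      · intro t ht
        obtain ⟨j, hj⟩ := hUW t ht
        refine ⟨Fin.castSucc j, ?_⟩
        rw [Fin.snoc_castSucc]
        exact hj
      · refine (min_le_right _ _).trans ?_
        have h1 : (M : ℝ) ≤ 4 * U.card := by exact_mod_cast h
        linarith

theorem F_shift (I : Finset ℕ) (lam : ℕ → ℝ) (b : ℕ → ℂ) (s t : ℝ) :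
    F I lam (fun n => b n * Complex.exp (Complex.I * (s : ℂ) * (lam n : ℂ))) t =
      F I lam b (t + s) := by
  unfold F
  apply sum_congr rfl
  intro n _
  rw [mul_assoc, ← Complex.exp_add]
  congr 2
  push_cast
  ring

/-- points of `[0, T + ⌊T⌋]` are brought to `[0, T]` -/
theorem fold_half (I : Finset ℕ) (lam : ℕ → ℝ) (b : ℕ → ℂ) {T V : ℝ} (hT : 0 ≤ T)
    (hb : ∀ n ∈ I, ‖b n‖ ≤ 1) (U : Finset ℝ) (hsep : Sep U) (hU : ∀ t ∈ U, 0 ≤ t ∧ t ≤ T + ⌊T⌋₊)
    (hV : ∀ t ∈ U, V ≤ ‖F I lam b t‖) :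
    ∃ (b' : ℕ → ℂ) (W : Finset ℝ), (∀ n ∈ I, ‖b' n‖ ≤ 1) ∧ Sep W ∧ (∀ t ∈ W, 0 ≤ t ∧ t ≤ T) ∧
      (∀ t ∈ W, V ≤ ‖F I lam b' t‖) ∧ U.card ≤ 2 * W.card ∧
      (∀ t ∈ W, t ∈ U ∨ t + ⌊T⌋₊ ∈ U) := by
  classical
  have hc := card_filter_add_card_filter_not (s := U) (fun t => t ≤ T)
  rcases le_total (U.filter (fun t => ¬ t ≤ T)).card (U.filter (fun t => t ≤ T)).card with h | h
  · refine ⟨b, U.filter (fun t => t ≤ T), hb, ?_, ?_, ?_, ?_, ?_⟩
    · intro s hs t ht
      exact hsep s (mem_filter.1 hs).1 t (mem_filter.1 ht).1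
    · intro t ht
      exact ⟨(hU t (mem_filter.1 ht).1).1, (mem_filter.1 ht).2⟩
    · intro t ht
      exact hV t (mem_filter.1 ht).1
    · omega
    · intro t ht
      exact Or.inl (mem_filter.1 ht).1
  · have hinj : Function.Injective (fun t : ℝ => t - (⌊T⌋₊ : ℝ)) := sub_left_injective
    refine ⟨fun n => b n * Complex.exp (Complex.I * ((⌊T⌋₊ : ℝ) : ℂ) * (lam n : ℂ)),
      (U.filter (fun t => ¬ t ≤ T)).image (fun t : ℝ => t - (⌊T⌋₊ : ℝ)), ?_, ?_, ?_, ?_, ?_, ?_⟩
    · intro n hn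
      rw [norm_mul, norm_e, mul_one]
      exact hb n hn
    · intro s hs t ht hst
      rw [mem_image] at hs ht
      obtain ⟨w, hw, rfl⟩ := hs
      obtain ⟨v, hv, rfl⟩ := ht
      have := hsep w (mem_filter.1 hw).1 v (mem_filter.1 hv).1 (fun h => hst (by rw [h]))
      have e : w - (⌊T⌋₊ : ℝ) - (v - (⌊T⌋₊ : ℝ)) = w - v := by ring
      rw [e]
      exact this
    · intro t ht
      rw [mem_image] at ht
      obtain ⟨w, hw, rfl⟩ := ht
      have h1 := (hU w (mem_filter.1 hw).1).2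
      have h2 := (mem_filter.1 hw).2
      have h3 := Nat.floor_le hT
      push Not at h2
      exact ⟨by linarith, by linarith⟩
    · intro t ht
      rw [mem_image] at ht
      obtain ⟨w, hw, rfl⟩ := ht
      rw [F_shift, sub_add_cancel]
      exact hV w (mem_filter.1 hw).1
    · rw [card_image_of_injective _ hinj]
      omega
    · intro t ht
      rw [mem_image] at ht
      obtain ⟨w, hw, rfl⟩ := ht
      right
      rw [sub_add_cancel]
      exact (mem_filter.1 hw).1

/-- the amplification inside `[0, T]`, with `J` translates -/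
theorem amp_J (I : Finset ℕ) (lam : ℕ → ℝ) (b : ℕ → ℂ) {T V κ : ℝ} (hT : 0 ≤ T) {J : ℕ} (hJ : 1 ≤ J)
    (hI : I.Nonempty) (hb : ∀ n ∈ I, ‖b n‖ ≤ 1) (hκ : 0 < κ)
    (hκ2 : 4 * J * Real.log (16 * I.card) ≤ κ ^ 2) (W : Finset ℝ) (hsep : Sep W)
    (hW : ∀ t ∈ W, 0 ≤ t ∧ t ≤ T) (hV : ∀ t ∈ W, V ≤ ‖F I lam b t‖) :
    ∃ (b' : ℕ → ℂ) (W' : Finset ℝ), (∀ n ∈ I, ‖b' n‖ ≤ 1) ∧ Sep W' ∧ (∀ t ∈ W', 0 ≤ t ∧ t ≤ T) ∧
      (∀ t ∈ W', V / κ ≤ ‖F I lam b' t‖) ∧ min ((J : ℝ) * W.card) (T / 2) ≤ 16 * W'.card ∧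
      ((∀ t ∈ W, ∃ k : ℤ, t = k) → ∀ t ∈ W', ∃ k : ℤ, t = k) := by
  obtain ⟨u, U, hu, hU, hUW, hc⟩ := greedy W hsep (⌊T⌋₊ + 1) J
  have hu' : ∀ j, (u j : ℝ) ≤ ⌊T⌋₊ := by
    intro j
    rcases hu j with h | h
    · exact_mod_cast Nat.lt_succ_iff.1 h
    · omega
  obtain ⟨b1, U1, hb1, hU1, hc1, hV1⟩ := amplify I lam b (fun j => (u j : ℝ)) hJ hI hb hκ hκ2 U
    (V := V) (by
      intro t ht
      obtain ⟨j, hj⟩ := hUW t ht
      exact ⟨j, hV _ hj⟩)
  have hsep1 : Sep U1 := fun s hs t ht => hU s (hU1 hs) t (hU1 ht)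
  have hr1 : ∀ t ∈ U1, 0 ≤ t ∧ t ≤ T + ⌊T⌋₊ := by
    intro t ht
    obtain ⟨j, hj⟩ := hUW t (hU1 ht)
    have h1 := hW _ hj
    have h2 := hu' j
    have h3 : (0 : ℝ) ≤ (u j : ℝ) := Nat.cast_nonneg _
    exact ⟨by linarith, by linarith⟩
  obtain ⟨b2, W2, hb2, hsep2, hr2, hV2, hc2, hm2⟩ := fold_half I lam b1 hT hb1 U1 hsep1 hr1 hV1
  refine ⟨b2, W2, hb2, hsep2, hr2, hV2, ?_, ?_⟩
  · have h1 : (U1.card : ℝ) ≤ 2 * W2.card := by exact_mod_cast hc2
    have h2 : min ((J : ℝ) * W.card) (T / 2) ≤ min ((J : ℝ) * W.card) (((⌊T⌋₊ + 1 : ℕ) : ℝ) / 2) := by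
      apply min_le_min_left
      have := Nat.lt_floor_add_one T
      push_cast
      linarith
    linarith
  · intro hint
    have h1 : ∀ t ∈ U1, ∃ k : ℤ, t = k := by
      intro t ht
      obtain ⟨j, hj⟩ := hUW t (hU1 ht)
      obtain ⟨k, hk⟩ := hint _ hj
      refine ⟨k + u j, ?_⟩
      push_cast
      linarith
    intro t ht
    rcases hm2 t ht with h | h
    · exact h1 t h
    · obtain ⟨k, hk⟩ := h1 _ h
      refine ⟨k - ⌊T⌋₊, ?_⟩
      push_cast
      linarith

/-- **`R(V) V²` is nonincreasing up to a logarithm** -/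
theorem mono (I : Finset ℕ) (lam : ℕ → ℝ) (b : ℕ → ℂ) {T V V' : ℝ} (hT : 0 ≤ T)
    (hI : I.Nonempty) (hb : ∀ n ∈ I, ‖b n‖ ≤ 1) (hV' : 0 < V') (hVV' : V' ≤ V)
    (W : Finset ℝ) (hsep : Sep W)
    (hW : ∀ t ∈ W, 0 ≤ t ∧ t ≤ T) (hV : ∀ t ∈ W, V ≤ ‖F I lam b t‖) :
    ∃ (b' : ℕ → ℂ) (W' : Finset ℝ), (∀ n ∈ I, ‖b' n‖ ≤ 1) ∧ Sep W' ∧ (∀ t ∈ W', 0 ≤ t ∧ t ≤ T) ∧
      (∀ t ∈ W', V' ≤ ‖F I lam b' t‖) ∧
      min ((V / V') ^ 2 * W.card / Real.log (16 * I.card)) T ≤ 128 * W'.card ∧
      ((∀ t ∈ W, ∃ k : ℤ, t = k) → ∀ t ∈ W', ∃ k : ℤ, t = k) := by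
  have hI0 : (1 : ℝ) ≤ I.card := by exact_mod_cast hI.card_pos
  have hL : 0 < Real.log (16 * I.card) := Real.log_pos (by linarith)
  set L := Real.log (16 * I.card) with hLd
  have hV0 : 0 < V := by linarith
  have hq : 0 < (V / V') ^ 2 / (4 * L) := by positivity
  rcases Nat.eq_zero_or_pos ⌊(V / V') ^ 2 / (4 * L)⌋₊ with h0 | hJ
  · refine ⟨b, W, hb, hsep, hW, fun t ht => hVV'.trans (hV t ht), ?_, fun h => h⟩
    have h1 : (V / V') ^ 2 / (4 * L) < 1 := by
      have := Nat.lt_floor_add_one ((V / V') ^ 2 / (4 * L))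
      rw [h0] at this
      simpa using this
    refine (min_le_left _ _).trans ?_
    rw [div_lt_iff₀ (by positivity)] at h1
    rw [div_le_iff₀ hL]
    have h2 : (0 : ℝ) ≤ W.card := Nat.cast_nonneg _
    nlinarith
  · set J := ⌊(V / V') ^ 2 / (4 * L)⌋₊ with hJd
    have hJle : (J : ℝ) ≤ (V / V') ^ 2 / (4 * L) := Nat.floor_le hq.le
    have hJge : (V / V') ^ 2 / (4 * L) < J + 1 := Nat.lt_floor_add_one _
    have hJ1 : (1 : ℝ) ≤ J := by exact_mod_cast hJ
    have hκ : 0 < V / V' := by positivity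
    obtain ⟨b', W', h1, h2, h3, h4, h5, h6⟩ := amp_J I lam b hT hJ hI hb hκ (by
      rw [le_div_iff₀ (by positivity)] at hJle
      linarith) W hsep hW hV
    refine ⟨b', W', h1, h2, h3, ?_, ?_, h6⟩
    · intro t ht
      have := h4 t ht
      have e : V / (V / V') = V' := by field_simp
      rw [e] at this
      exact this
    · have hW0 : (0 : ℝ) ≤ W.card := Nat.cast_nonneg _
      have h7 : (V / V') ^ 2 * W.card / L ≤ 8 * (J * W.card) := by
        rw [div_le_iff₀ hL]
        rw [div_lt_iff₀ (by positivity)] at hJge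
        have : (V / V') ^ 2 ≤ 8 * J * L := by nlinarith
        nlinarith
      rcases min_le_iff.1 h5 with h8 | h8
      · refine (min_le_left _ _).trans ?_
        linarith
      · refine (min_le_right _ _).trans ?_
        have : (0 : ℝ) ≤ W'.card := Nat.cast_nonneg _
        linarith

end Pool.Agent.N793.LV
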