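import Pool.Agent.N793.LV.Amp

set_option autoImplicit false

/-!
# The mean of the maximum of signed sums
-/

namespace Pool.Agent.N793.LV.Pie

open Finset

/-- one-sided tail, variance at most one -/
theorem tail_real {J : ℕ} (a : Fin J → ℝ) (ha : ∑ j, a j ^ 2 ≤ 1) {lam : ℝ} :
    ((univ.filter (fun ω : Fin J → Bool => lam ≤ ∑ j, sg (ω j) * a j)).card : ℝ) ≤
      2 ^ J * Real.exp (-(lam ^ 2 / 2)) ∨ lam < 0 := by
  rcases lt_or_ge lam 0 with hl | hl
  · exact Or.inr hl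
  left
  have h := mgf a lam
  have h1 : ((univ.filter (fun ω : Fin J → Bool => lam ≤ ∑ j, sg (ω j) * a j)).card : ℝ) *
      Real.exp (lam ^ 2) ≤ ∑ ω : Fin J → Bool, Real.exp (lam * ∑ j, sg (ω j) * a j) := by
    calc _ = ∑ ω ∈ univ.filter (fun ω : Fin J → Bool => lam ≤ ∑ j, sg (ω j) * a j),
          Real.exp (lam ^ 2) := by rw [sum_const, nsmul_eq_mul]
      _ ≤ ∑ ω ∈ univ.filter (fun ω : Fin J → Bool => lam ≤ ∑ j, sg (ω j) * a j),
          Real.exp (lam * ∑ j, sg (ω j) * a j) := by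
          apply sum_le_sum
          intro ω hω
          rw [mem_filter] at hω
          apply Real.exp_le_exp.2
          rw [pow_two]
          exact mul_le_mul_of_nonneg_left hω.2 hl
      _ ≤ _ := sum_le_sum_of_subset_of_nonneg (filter_subset _ _)
          (fun _ _ _ => (Real.exp_pos _).le)
  have h2 : 2 ^ J * Real.exp (lam ^ 2 * (∑ j, a j ^ 2) / 2) ≤ 2 ^ J * Real.exp (lam ^ 2 / 2) := by
    apply mul_le_mul_of_nonneg_left _ (by positivity)
    apply Real.exp_le_exp.2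
    have : lam ^ 2 * (∑ j, a j ^ 2) ≤ lam ^ 2 * 1 := mul_le_mul_of_nonneg_left ha (sq_nonneg _)
    linarith
  have h3 := (h1.trans h).trans h2
  have h4 : Real.exp (-(lam ^ 2 / 2)) = Real.exp (lam ^ 2 / 2) / Real.exp (lam ^ 2) := by
    rw [← Real.exp_sub]
    congr 1
    ring
  rw [h4, ← mul_div_assoc, le_div_iff₀ (Real.exp_pos _)]
  exact h3

theorem tail_real' {J : ℕ} (a : Fin J → ℝ) (ha : ∑ j, a j ^ 2 ≤ 1) {lam : ℝ} (hl : 0 ≤ lam) :
    ((univ.filter (fun ω : Fin J → Bool => lam ≤ |∑ j, sg (ω j) * a j|)).card : ℝ) ≤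
      2 * (2 ^ J * Real.exp (-(lam ^ 2 / 2))) := by
  have h1 := (tail_real a ha (lam := lam)).resolve_right (not_lt.2 hl)
  have h2 := (tail_real (fun j => - a j) (by simpa using ha) (lam := lam)).resolve_right
    (not_lt.2 hl)
  have h3 : (univ.filter (fun ω : Fin J → Bool => lam ≤ |∑ j, sg (ω j) * a j|)) ⊆
      (univ.filter (fun ω : Fin J → Bool => lam ≤ ∑ j, sg (ω j) * a j)) ∪
      (univ.filter (fun ω : Fin J → Bool => lam ≤ ∑ j, sg (ω j) * (- a j))) := by
    intro ω hω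
    rw [mem_filter] at hω
    rw [mem_union, mem_filter, mem_filter]
    rcases le_abs'.1 hω.2 with h | h
    · right
      refine ⟨mem_univ _, ?_⟩
      simp only [mul_neg, sum_neg_distrib]
      linarith
    · left
      exact ⟨mem_univ _, h⟩
  have h4 := (card_le_card h3).trans (card_union_le _ _)
  have h5 : ((univ.filter (fun ω : Fin J → Bool => lam ≤ |∑ j, sg (ω j) * a j|)).card : ℝ) ≤
      (univ.filter (fun ω : Fin J → Bool => lam ≤ ∑ j, sg (ω j) * a j)).card +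
      (univ.filter (fun ω : Fin J → Bool => lam ≤ ∑ j, sg (ω j) * (- a j))).card := by
    exact_mod_cast h4
  linarith

/-- the tail for complex sums, variance at most one -/
theorem tail {J : ℕ} (c : Fin J → ℂ) (hc : ∑ j, ‖c j‖ ^ 2 ≤ 1) {κ : ℝ} (hκ : 0 ≤ κ) :
    ((univ.filter (fun ω : Fin J → Bool => κ ≤ ‖∑ j, (sg (ω j) : ℂ) * c j‖)).card : ℝ) ≤
      4 * (2 ^ J * Real.exp (-(κ ^ 2 / 4))) := by
  have hs2 : (0 : ℝ) < Real.sqrt 2 := Real.sqrt_pos.2 (by norm_num)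
  have hs : Real.sqrt 2 ^ 2 = 2 := Real.sq_sqrt (by norm_num)
  have hl : 0 ≤ κ / Real.sqrt 2 := by positivity
  have hre : ∑ j, (c j).re ^ 2 ≤ 1 := by
    refine le_trans (sum_le_sum fun j _ => ?_) hc
    rw [← sq_abs]
    exact pow_le_pow_left₀ (abs_nonneg _) (Complex.abs_re_le_norm _) 2
  have him : ∑ j, (c j).im ^ 2 ≤ 1 := by
    refine le_trans (sum_le_sum fun j _ => ?_) hc
    rw [← sq_abs]
    exact pow_le_pow_left₀ (abs_nonneg _) (Complex.abs_im_le_norm _) 2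
  have h1 := tail_real' (fun j => (c j).re) hre hl
  have h2 := tail_real' (fun j => (c j).im) him hl
  have h3 : (univ.filter (fun ω : Fin J → Bool => κ ≤ ‖∑ j, (sg (ω j) : ℂ) * c j‖)) ⊆
      (univ.filter (fun ω : Fin J → Bool => κ / Real.sqrt 2 ≤ |∑ j, sg (ω j) * (c j).re|)) ∪
      (univ.filter (fun ω : Fin J → Bool => κ / Real.sqrt 2 ≤ |∑ j, sg (ω j) * (c j).im|)) := by
    intro ω hω
    rw [mem_filter] at hω
    rw [mem_union, mem_filter, mem_filter]
    by_contra hcon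
    push Not at hcon
    obtain ⟨hc1, hc2⟩ := hcon
    have hc1 := hc1 (mem_univ _)
    have hc2 := hc2 (mem_univ _)
    have hre : (∑ j, (sg (ω j) : ℂ) * c j).re = ∑ j, sg (ω j) * (c j).re := by
      rw [Complex.re_sum]
      exact sum_congr rfl (fun j _ => Complex.re_ofReal_mul _ _)
    have him : (∑ j, (sg (ω j) : ℂ) * c j).im = ∑ j, sg (ω j) * (c j).im := by
      rw [Complex.im_sum]
      exact sum_congr rfl (fun j _ => Complex.im_ofReal_mul _ _)
    have hn : ‖∑ j, (sg (ω j) : ℂ) * c j‖ ^ 2 =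
        (∑ j, sg (ω j) * (c j).re) ^ 2 + (∑ j, sg (ω j) * (c j).im) ^ 2 := by
      rw [← Complex.normSq_eq_norm_sq, Complex.normSq_apply, hre, him]
      ring
    have e1 : (∑ j, sg (ω j) * (c j).re) ^ 2 < (κ / Real.sqrt 2) ^ 2 := by
      rw [← sq_abs]
      exact pow_lt_pow_left₀ hc1 (abs_nonneg _) (by norm_num)
    have e2 : (∑ j, sg (ω j) * (c j).im) ^ 2 < (κ / Real.sqrt 2) ^ 2 := by
      rw [← sq_abs]
      exact pow_lt_pow_left₀ hc2 (abs_nonneg _) (by norm_num)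
    have e3 : (κ / Real.sqrt 2) ^ 2 = κ ^ 2 / 2 := by rw [div_pow, hs]
    have e4 : κ ^ 2 ≤ ‖∑ j, (sg (ω j) : ℂ) * c j‖ ^ 2 := pow_le_pow_left₀ hκ hω.2 2
    rw [hn] at e4
    rw [e3] at e1 e2
    linarith
  have h4 := (card_le_card h3).trans (card_union_le _ _)
  have h5 : ((univ.filter (fun ω : Fin J → Bool => κ ≤ ‖∑ j, (sg (ω j) : ℂ) * c j‖)).card : ℝ) ≤
      (univ.filter (fun ω : Fin J → Bool => κ / Real.sqrt 2 ≤ |∑ j, sg (ω j) * (c j).re|)).card +
      (univ.filter (fun ω : Fin J → Bool => κ / Real.sqrt 2 ≤ |∑ j, sg (ω j) * (c j).im|)).card := by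
    exact_mod_cast h4
  have h6 : (κ / Real.sqrt 2) ^ 2 / 2 = κ ^ 2 / 4 := by
    rw [div_pow, hs]
    ring
  rw [h6] at h1 h2
  linarith

/-- the signs are orthogonal -/
theorem orth {J : ℕ} (z : Fin J → ℂ) :
    ∑ ω : Fin J → Bool, ‖∑ j, (sg (ω j) : ℂ) * z j‖ ^ 2 = 2 ^ J * ∑ j, ‖z j‖ ^ 2 := by
  have hcross : ∀ k l : Fin J, k ≠ l → ∑ ω : Fin J → Bool, sg (ω k) * sg (ω l) = 0 := by
    intro k l hkl
    have h1 : ∑ ω : Fin J → Bool, sg (ω k) * sg (ω l) =
        ∑ ω : Fin J → Bool, sg (flip k ω k) * sg (flip k ω l) := by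
      apply (Equiv.sum_comp (Function.Involutive.toPerm (flip k) (flip_flip k))
        (fun ω => sg (ω k) * sg (ω l))).symm
    have h2 : ∀ ω : Fin J → Bool, sg (flip k ω k) * sg (flip k ω l) = -(sg (ω k) * sg (ω l)) := by
      intro ω
      unfold flip
      rw [Function.update_self, Function.update_of_ne (Ne.symm hkl), sg_not]
      ring
    rw [sum_congr rfl (fun ω _ => h2 ω), sum_neg_distrib] at h1
    linarith
  have hdiag : ∀ k : Fin J, ∑ ω : Fin J → Bool, sg (ω k) * sg (ω k) = 2 ^ J := by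
    intro k
    rw [sum_congr rfl (fun ω _ => sg_sq (ω k)), sum_const, card_univ, Fintype.card_fun,
      Fintype.card_fin, Fintype.card_bool, nsmul_eq_mul, mul_one]
    push_cast
    rfl
  have hexp : ∀ ω : Fin J → Bool, ‖∑ j, (sg (ω j) : ℂ) * z j‖ ^ 2 =
      ∑ k, ∑ l, (sg (ω k) * sg (ω l)) * (z k * (starRingEnd ℂ) (z l)).re := by
    intro ω
    rw [← Complex.normSq_eq_norm_sq]
    have h1 : ((Complex.normSq (∑ j, (sg (ω j) : ℂ) * z j) : ℝ) : ℂ) =
        ∑ k, ∑ l, ((sg (ω k) * sg (ω l) : ℝ) : ℂ) * (z k * (starRingEnd ℂ) (z l)) := by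
      rw [← Complex.mul_conj, map_sum, sum_mul_sum]
      apply sum_congr rfl
      intro k _
      apply sum_congr rfl
      intro l _
      rw [map_mul, Complex.conj_ofReal]
      push_cast
      ring
    have h2 := congrArg Complex.re h1
    rw [Complex.ofReal_re, Complex.re_sum] at h2
    rw [h2]
    apply sum_congr rfl
    intro k _
    rw [Complex.re_sum]
    apply sum_congr rfl
    intro l _
    exact Complex.re_ofReal_mul _ _
  rw [sum_congr rfl (fun ω _ => hexp ω), sum_comm, mul_sum]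
  apply sum_congr rfl
  intro k _
  rw [sum_comm, sum_eq_single k]
  · rw [← sum_mul, hdiag, Complex.mul_conj, Complex.ofReal_re, Complex.normSq_eq_norm_sq]
  · intro l _ hl
    rw [← sum_mul, hcross k l (Ne.symm hl), zero_mul]
  · intro h
    exact absurd (mem_univ _) h

/-- the mean of the square of the maximum -/
theorem mean_max {J : ℕ} (I : Finset ℕ) (hI : I.Nonempty) (c : ℕ → Fin J → ℂ)
    (hc : ∀ n ∈ I, ∑ j, ‖c n j‖ ^ 2 ≤ 1) (f : (Fin J → Bool) → ℝ) (hf0 : ∀ ω, 0 ≤ f ω)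
    (hf : ∀ ω, ∃ n ∈ I, f ω ≤ ‖∑ j, (sg (ω j) : ℂ) * c n j‖) :
    ∑ ω : Fin J → Bool, f ω ^ 2 ≤ 2 ^ J * (12 * Real.log (16 * I.card)) := by
  classical
  have hI0 : (1 : ℝ) ≤ I.card := by exact_mod_cast hI.card_pos
  have hL : 0 < Real.log (16 * I.card) := Real.log_pos (by linarith)
  set L := Real.log (16 * I.card) with hLd
  have hL1 : 1 ≤ L := by
    rw [hLd, Real.le_log_iff_exp_le (by linarith)]
    have := Real.exp_one_lt_d9
    linarith
  set V := Real.sqrt (4 * L) with hV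
  have hV2 : V ^ 2 = 4 * L := Real.sq_sqrt (by positivity)
  have hV0 : 0 < V := Real.sqrt_pos.2 (by positivity)
  -- the tail of the maximum
  have htail : ∀ k : ℕ, ((univ.filter (fun ω : Fin J → Bool => 2 ^ k * V ≤ f ω)).card : ℝ) ≤
      2 ^ J * (1 / 4) * (1 / 16) ^ k := by
    intro k
    have h1 : (univ.filter (fun ω : Fin J → Bool => 2 ^ k * V ≤ f ω)) ⊆
        I.biUnion (fun n => univ.filter (fun ω : Fin J → Bool =>
          2 ^ k * V ≤ ‖∑ j, (sg (ω j) : ℂ) * c n j‖)) := by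
      intro ω hω
      rw [mem_filter] at hω
      obtain ⟨n, hn, h⟩ := hf ω
      rw [mem_biUnion]
      exact ⟨n, hn, mem_filter.2 ⟨mem_univ _, hω.2.trans h⟩⟩
    have h2 := (card_le_card h1).trans card_biUnion_le
    have h3 : ((univ.filter (fun ω : Fin J → Bool => 2 ^ k * V ≤ f ω)).card : ℝ) ≤
        ∑ n ∈ I, ((univ.filter (fun ω : Fin J → Bool =>
          2 ^ k * V ≤ ‖∑ j, (sg (ω j) : ℂ) * c n j‖)).card : ℝ) := by exact_mod_cast h2
    have h4 : ∑ n ∈ I, ((univ.filter (fun ω : Fin J → Bool =>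
          2 ^ k * V ≤ ‖∑ j, (sg (ω j) : ℂ) * c n j‖)).card : ℝ) ≤
        ∑ n ∈ I, 4 * (2 ^ J * Real.exp (-((2 ^ k * V) ^ 2 / 4))) := by
      apply sum_le_sum
      intro n hn
      exact tail _ (hc n hn) (by positivity)
    rw [sum_const, nsmul_eq_mul] at h4
    have h5 : (2 ^ k * V) ^ 2 / 4 = 4 ^ k * L := by
      rw [mul_pow, hV2, ← pow_mul, mul_comm k 2, pow_mul]
      norm_num
      ring
    have h6 : Real.exp (-((2 ^ k * V) ^ 2 / 4)) ≤ 1 / (16 * I.card) * (1 / 16) ^ k := by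
      rw [h5]
      have h7 : (1 + k : ℝ) ≤ 4 ^ k := by
        have h8 : 1 + k ≤ 4 ^ k := by
          have : k < 2 ^ k := Nat.lt_two_pow_self
          have h9 : 2 ^ k ≤ 4 ^ k := Nat.pow_le_pow_left (by norm_num) k
          omega
        exact_mod_cast h8
      have h8 : Real.exp (-(4 ^ k * L)) ≤ Real.exp (-((1 + k) * L)) := by
        apply Real.exp_le_exp.2
        have := mul_le_mul_of_nonneg_right h7 hL.le
        linarith
      refine h8.trans ?_
      have h9 : Real.exp (-((1 + k) * L)) = Real.exp (-L) * Real.exp (-L) ^ k := by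
        rw [← Real.exp_nat_mul, ← Real.exp_add]
        congr 1
        ring
      have h10 : Real.exp (-L) = 1 / (16 * I.card) := by
        rw [Real.exp_neg, hLd, Real.exp_log (by positivity), one_div]
      rw [h9, h10]
      apply mul_le_mul_of_nonneg_left _ (by positivity)
      apply pow_le_pow_left₀ (by positivity)
      apply one_div_le_one_div_of_le (by norm_num)
      linarith
    calc _ ≤ (I.card : ℝ) * (4 * (2 ^ J * Real.exp (-((2 ^ k * V) ^ 2 / 4)))) := h3.trans h4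
      _ ≤ (I.card : ℝ) * (4 * (2 ^ J * (1 / (16 * I.card) * (1 / 16) ^ k))) := by gcongr
      _ = 2 ^ J * (1 / 4) * (1 / 16) ^ k := by
          field_simp
          norm_num
  -- a common bound for `f`
  obtain ⟨K, hK⟩ : ∃ K : ℕ, ∀ ω, f ω < 2 ^ K * V := by
    have hfin : ∃ M : ℝ, ∀ ω, f ω ≤ M := by
      obtain ⟨M, hM⟩ := (Set.finite_range f).bddAbove
      exact ⟨M, fun ω => hM ⟨ω, rfl⟩⟩
    obtain ⟨M, hM⟩ := hfin
    obtain ⟨K, hK⟩ := pow_unbounded_of_one_lt (M / V) (by norm_num : (1 : ℝ) < 2)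
    refine ⟨K, fun ω => ?_⟩
    rw [div_lt_iff₀ hV0] at hK
    exact lt_of_le_of_lt (hM ω) hK
  have hpt : ∀ ω, f ω ^ 2 ≤ V ^ 2 + ∑ k ∈ range K,
      (if 2 ^ k * V ≤ f ω then 4 * (2 ^ k * V) ^ 2 else 0) := by
    intro ω
    have hnn : ∀ k ∈ range K, (0 : ℝ) ≤ (if 2 ^ k * V ≤ f ω then 4 * (2 ^ k * V) ^ 2 else 0) := by
      intro k _
      split_ifs <;> positivity
    rcases lt_or_ge (f ω) V with h | h
    · have h2 : f ω ^ 2 ≤ V ^ 2 := pow_le_pow_left₀ (hf0 ω) h.le 2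
      have h3 := sum_nonneg hnn
      linarith
    · have hex : ∃ k : ℕ, f ω < 2 ^ k * V := ⟨K, hK ω⟩
      have hk := Nat.find_spec hex
      have hkK : Nat.find hex ≤ K := Nat.find_min' hex (hK ω)
      have hk0 : Nat.find hex ≠ 0 := by
        intro h0
        rw [h0, pow_zero, one_mul] at hk
        linarith
      obtain ⟨k, hk2⟩ : ∃ k, Nat.find hex = k + 1 := ⟨Nat.find hex - 1, by omega⟩
      have hk3 : ¬ f ω < 2 ^ k * V := Nat.find_min hex (by omega)
      have hk4 : 2 ^ k * V ≤ f ω := not_lt.1 hk3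
      rw [hk2, pow_succ] at hk
      have h4 := single_le_sum hnn (mem_range.2 (by omega : k < K))
      simp only [hk4, if_true] at h4
      have h5 : f ω ^ 2 ≤ 4 * (2 ^ k * V) ^ 2 := by
        have : f ω ≤ 2 * (2 ^ k * V) := by linarith
        calc f ω ^ 2 ≤ (2 * (2 ^ k * V)) ^ 2 := pow_le_pow_left₀ (hf0 ω) this 2
          _ = _ := by ring
      have : 0 ≤ V ^ 2 := by positivity
      linarith
  refine (sum_le_sum fun ω _ => hpt ω).trans ?_
  rw [sum_add_distrib, sum_const, nsmul_eq_mul, sum_comm, card_univ, Fintype.card_fun,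
    Fintype.card_fin, Fintype.card_bool]
  have h2 : ∑ k ∈ range K, ∑ ω : Fin J → Bool, (if 2 ^ k * V ≤ f ω then 4 * (2 ^ k * V) ^ 2 else 0) ≤
      ∑ k ∈ range K, 2 ^ J * V ^ 2 * (1 / 4 : ℝ) ^ k := by
    apply sum_le_sum
    intro k _
    rw [← sum_filter, sum_const, nsmul_eq_mul]
    calc ((univ.filter (fun ω : Fin J → Bool => 2 ^ k * V ≤ f ω)).card : ℝ) * (4 * (2 ^ k * V) ^ 2)
        ≤ (2 ^ J * (1 / 4) * (1 / 16) ^ k) * (4 * (2 ^ k * V) ^ 2) :=
          mul_le_mul_of_nonneg_right (htail k) (by positivity)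
      _ = 2 ^ J * V ^ 2 * ((1 / 16) ^ k * (2 ^ k) ^ 2) := by ring
      _ = 2 ^ J * V ^ 2 * (1 / 4 : ℝ) ^ k := by
          congr 1
          rw [← pow_mul, mul_comm k 2, pow_mul, ← mul_pow]
          norm_num
  rw [← mul_sum] at h2
  have h3 : ∑ k ∈ range K, (1 / 4 : ℝ) ^ k ≤ 2 := by
    rw [geom_sum_eq (by norm_num)]
    have h4 : (0 : ℝ) ≤ (1 / 4) ^ K := by positivity
    rw [div_le_iff_of_neg (by norm_num)]
    linarith
  have h4 : 0 ≤ 2 ^ J * V ^ 2 := by positivity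
  have h5 := mul_le_mul_of_nonneg_left h3 h4
  rw [hV2] at h2 h5 ⊢
  push_cast
  linarith

end Pool.Agent.N793.LV.Pie
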