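import Pool.Agent.N793.LV.Pie

set_option autoImplicit false

/-!
# Weights (the argument of Pietsch)
-/

namespace Pool.Agent.N793.LV.Pie

open Finset

/-- the mean square over `W` -/
noncomputable def Q (I : Finset ℕ) (lam : ℕ → ℝ) (W : Finset ℝ) (a : ℕ → ℂ) : ℝ :=
  ∑ t ∈ W, ‖F I lam a t‖ ^ 2

theorem Q_nonneg (I : Finset ℕ) (lam : ℕ → ℝ) (W : Finset ℝ) (a : ℕ → ℂ) : 0 ≤ Q I lam W a :=
  sum_nonneg fun _ _ => sq_nonneg _

theorem Q_smul (I : Finset ℕ) (lam : ℕ → ℝ) (W : Finset ℝ) (a : ℕ → ℂ) (c : ℝ) :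
    Q I lam W (fun n => (c : ℂ) * a n) = c ^ 2 * Q I lam W a := by
  unfold Q
  rw [mul_sum]
  apply sum_congr rfl
  intro t _
  rw [F_smul, norm_mul, mul_pow, Complex.norm_real, Real.norm_eq_abs, sq_abs]

theorem Q_scale (I : Finset ℕ) (lam : ℕ → ℝ) (W : Finset ℝ) {M : ℝ}
    (hM : ∀ a : ℕ → ℂ, (∀ n ∈ I, ‖a n‖ ≤ 1) → Q I lam W a ≤ M) (a : ℕ → ℂ) {s : ℝ} (hs : 0 ≤ s)
    (ha : ∀ n ∈ I, ‖a n‖ ≤ s) : Q I lam W a ≤ s ^ 2 * M := by
  rcases hs.lt_or_eq with h | h
  · have h1 := hM (fun n => ((s⁻¹ : ℝ) : ℂ) * a n) (by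
      intro n hn
      rw [norm_mul, Complex.norm_real, Real.norm_eq_abs, abs_of_pos (inv_pos.2 h),
        inv_mul_le_iff₀ h, mul_one]
      exact ha n hn)
    rw [Q_smul] at h1
    have h2 := mul_le_mul_of_nonneg_left h1 (sq_nonneg s)
    have e : s ^ 2 * (s⁻¹ ^ 2 * Q I lam W a) = Q I lam W a := by field_simp
    rw [e] at h2
    exact h2
  · have h0 : ∀ n ∈ I, a n = 0 := by
      intro n hn
      have := ha n hn
      rw [← h] at this
      exact norm_le_zero_iff.1 this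
    have h1 : Q I lam W a = 0 := by
      unfold Q F
      apply sum_eq_zero
      intro t _
      rw [sum_eq_zero (fun n hn => by rw [h0 n hn, zero_mul])]
      simp
    rw [h1, ← h]
    simp

/-- the bound for families -/
theorem family {J : ℕ} (I : Finset ℕ) (hI : I.Nonempty) (lam : ℕ → ℝ) (W : Finset ℝ) {M : ℝ}
    (hM : ∀ a : ℕ → ℂ, (∀ n ∈ I, ‖a n‖ ≤ 1) → Q I lam W a ≤ M) (a : Fin J → ℕ → ℂ)
    (ha : ∀ n ∈ I, ∑ j, ‖a j n‖ ^ 2 ≤ 1) :
    ∑ j, Q I lam W (a j) ≤ 12 * Real.log (16 * I.card) * M := by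
  classical
  have hM0 : 0 ≤ M := (Q_nonneg I lam W _).trans (hM (fun _ => 0) (fun _ _ => by simp))
  set B : (Fin J → Bool) → ℕ → ℂ := fun ω n => ∑ j, (sg (ω j) : ℂ) * a j n with hB
  have hFB : ∀ ω t, F I lam (B ω) t = ∑ j, (sg (ω j) : ℂ) * F I lam (a j) t := by
    intro ω t
    unfold F
    simp only [hB, sum_mul, mul_sum]
    rw [sum_comm]
    apply sum_congr rfl
    intro j _
    apply sum_congr rfl
    intro n _
    ring
  have h1 : ∑ ω : Fin J → Bool, Q I lam W (B ω) = 2 ^ J * ∑ j, Q I lam W (a j) := by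
    unfold Q
    rw [sum_comm]
    have h2 : ∀ t ∈ W, ∑ ω : Fin J → Bool, ‖F I lam (B ω) t‖ ^ 2 =
        2 ^ J * ∑ j, ‖F I lam (a j) t‖ ^ 2 := by
      intro t _
      rw [← orth]
      apply sum_congr rfl
      intro ω _
      rw [hFB]
    rw [sum_congr rfl h2, ← mul_sum]
    congr 1
    rw [sum_comm]
  -- the maximum
  have hmax : ∀ ω, ∃ n ∈ I, ∀ n' ∈ I, ‖B ω n'‖ ≤ ‖B ω n‖ := by
    intro ω
    obtain ⟨n, hn, h⟩ := exists_max_image I (fun n => ‖B ω n‖) hI
    exact ⟨n, hn, h⟩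
  choose nn hnn hmx using hmax
  have h2 := mean_max I hI (fun n j => a j n) ha (fun ω => ‖B ω (nn ω)‖) (fun ω => norm_nonneg _)
    (fun ω => ⟨nn ω, hnn ω, le_rfl⟩)
  have h3 : ∑ ω : Fin J → Bool, Q I lam W (B ω) ≤ ∑ ω : Fin J → Bool, ‖B ω (nn ω)‖ ^ 2 * M := by
    apply sum_le_sum
    intro ω _
    exact Q_scale I lam W hM (B ω) (norm_nonneg _) (hmx ω)
  rw [← sum_mul, h1] at h3
  have h4 := h3.trans (mul_le_mul_of_nonneg_right h2 hM0)
  have h5 : (2 : ℝ) ^ J * ∑ j, Q I lam W (a j) ≤ 2 ^ J * (12 * Real.log (16 * I.card) * M) := by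
    calc _ ≤ _ := h4
      _ = _ := by ring
  exact le_of_mul_le_mul_left h5 (by positivity)

/-- **the weights** -/
theorem weights (I : Finset ℕ) (hI : I.Nonempty) (lam : ℕ → ℝ) (W : Finset ℝ) {M : ℝ}
    (hM : ∀ a : ℕ → ℂ, (∀ n ∈ I, ‖a n‖ ≤ 1) → Q I lam W a ≤ M) :
    ∃ w : ℕ → ℝ, (∀ n, 0 ≤ w n) ∧ ∑ n ∈ I, w n = 1 ∧
      ∀ a : ℕ → ℂ, Q I lam W a ≤ 12 * Real.log (16 * I.card) * M * ∑ n ∈ I, w n * ‖a n‖ ^ 2 := by
  classical
  have hM0 : 0 ≤ M := (Q_nonneg I lam W _).trans (hM (fun _ => 0) (fun _ _ => by simp))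
  have hI0 : (1 : ℝ) ≤ I.card := by exact_mod_cast hI.card_pos
  have hL : 0 < Real.log (16 * I.card) := Real.log_pos (by linarith)
  set M' : ℝ := 12 * Real.log (16 * I.card) * M with hM'
  have hM'0 : 0 ≤ M' := by positivity
  haveI : Nonempty I := hI.coe_sort
  -- the vectors
  set v : (ℕ → ℂ) → (I → ℝ) := fun a n => Q I lam W a - M' * ‖a n‖ ^ 2 with hv
  set P : Set (I → ℝ) := {x | ∀ n, 0 < x n} with hP
  have hPo : IsOpen P := by
    have : P = ⋂ n : I, {x | 0 < x n} := by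
      ext x; simp [hP]
    rw [this]
    exact isOpen_iInter_of_finite fun n => isOpen_lt continuous_const (continuous_apply n)
  have hPc : Convex ℝ P := by
    intro x hx y hy a b ha hb hab n
    have h1 := hx n
    have h2 := hy n
    simp only [Pi.add_apply, Pi.smul_apply, smul_eq_mul]
    rcases ha.lt_or_eq with h | h
    · have : 0 < a * x n := mul_pos h h1
      have : 0 ≤ b * y n := mul_nonneg hb h2.le
      linarith
    · have hb1 : b = 1 := by linarith
      rw [← h, hb1]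
      linarith
  have hdisj : Disjoint P (convexHull ℝ (Set.range v)) := by
    rw [Set.disjoint_left]
    intro x hx hx2
    rw [mem_convexHull_iff_exists_fintype] at hx2
    obtain ⟨ι, hι, c, z, hc0, hc1, hz, hsum⟩ := hx2
    -- a family indexed by `Fin J`
    choose g hg using hz
    obtain ⟨e⟩ : Nonempty (ι ≃ Fin (Fintype.card ι)) := ⟨Fintype.equivFin ι⟩
    set b : Fin (Fintype.card ι) → ℕ → ℂ :=
      fun j n => ((Real.sqrt (c (e.symm j)) : ℝ) : ℂ) * g (e.symm j) n with hb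
    have hQb : ∀ j, Q I lam W (b j) = c (e.symm j) * Q I lam W (g (e.symm j)) := by
      intro j
      simp only [hb]
      rw [Q_smul, Real.sq_sqrt (hc0 _)]
    have hnb : ∀ j n, ‖b j n‖ ^ 2 = c (e.symm j) * ‖g (e.symm j) n‖ ^ 2 := by
      intro j n
      simp only [hb]
      rw [norm_mul, mul_pow, Complex.norm_real, Real.norm_eq_abs, sq_abs, Real.sq_sqrt (hc0 _)]
    have hx3 : ∀ n : I, x n = ∑ j, Q I lam W (b j) - M' * ∑ j, ‖b j n‖ ^ 2 := by
      intro n
      rw [← hsum]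
      simp only [Finset.sum_apply, Pi.smul_apply, smul_eq_mul]
      rw [mul_sum, ← sum_sub_distrib, ← Equiv.sum_comp e]
      apply sum_congr rfl
      intro i _
      rw [hQb, hnb, Equiv.symm_apply_apply, ← hg i]
      simp only [hv]
      ring
    -- the maximum of the sum of squares
    obtain ⟨n0, hn0, hmax⟩ := exists_max_image I (fun n => ∑ j, ‖b j n‖ ^ 2) hI
    set s : ℝ := ∑ j, ‖b j n0‖ ^ 2 with hs
    have hs0 : 0 ≤ s := sum_nonneg fun _ _ => sq_nonneg _
    have hx4 := hx ⟨n0, hn0⟩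
    rw [hx3] at hx4
    simp only at hx4
    rcases hs0.lt_or_eq with hpos | hzero
    · have h1 := family I hI lam W hM (fun j n => (((Real.sqrt s)⁻¹ : ℝ) : ℂ) * b j n) (by
        intro n hn
        have h2 : ∀ j, ‖(((Real.sqrt s)⁻¹ : ℝ) : ℂ) * b j n‖ ^ 2 = s⁻¹ * ‖b j n‖ ^ 2 := by
          intro j
          rw [norm_mul, mul_pow, Complex.norm_real, Real.norm_eq_abs, sq_abs, inv_pow,
            Real.sq_sqrt hs0]
        rw [sum_congr rfl fun j _ => h2 j, ← mul_sum, inv_mul_le_iff₀ hpos, mul_one]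
        exact hmax n hn)
      have h2 : ∀ j, Q I lam W (fun n => (((Real.sqrt s)⁻¹ : ℝ) : ℂ) * b j n) =
          s⁻¹ * Q I lam W (b j) := by
        intro j
        rw [Q_smul, inv_pow, Real.sq_sqrt hs0]
      rw [sum_congr rfl fun j _ => h2 j, ← mul_sum, inv_mul_le_iff₀ hpos] at h1
      rw [← hM'] at h1
      linarith
    · have hb0 : ∀ j, ∀ n ∈ I, b j n = 0 := by
        intro j n hn
        have h1 := hmax n hn
        rw [← hzero] at h1
        have h2 := (sum_eq_zero_iff_of_nonneg (s := univ) (f := fun j => ‖b j n‖ ^ 2)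
          (fun _ _ => sq_nonneg _)).1 (le_antisymm h1 (sum_nonneg fun _ _ => sq_nonneg _)) j
          (mem_univ _)
        simpa using h2
      have hQ0 : ∀ j, Q I lam W (b j) = 0 := by
        intro j
        unfold Q F
        apply sum_eq_zero
        intro t _
        rw [sum_eq_zero (fun n hn => by rw [hb0 j n hn, zero_mul])]
        simp
      rw [sum_congr rfl fun j _ => hQ0 j] at hx4
      simp only [sum_const_zero, zero_sub] at hx4
      have : 0 ≤ M' * s := by positivity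
      linarith
  obtain ⟨f, u, hfP, hfS⟩ := geometric_hahn_banach_open hPc hPo (convex_convexHull ℝ _) hdisj
  -- `u ≤ 0`
  have hv0 : v (fun _ => 0) = 0 := by
    ext n
    simp only [hv, Pi.zero_apply]
    have : Q I lam W (fun _ => 0) = 0 := by
      unfold Q F
      simp
    rw [this]
    simp
  have hu0 : u ≤ 0 := by
    have := hfS (v (fun _ => 0)) (subset_convexHull ℝ _ ⟨_, rfl⟩)
    rw [hv0, map_zero] at this
    exact this
  have hfneg : ∀ x ∈ P, f x < 0 := fun x hx => lt_of_lt_of_le (hfP x hx) hu0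
  have hu1 : 0 ≤ u := by
    by_contra hneg
    push Not at hneg
    have h1 : (fun _ : I => (1 : ℝ)) ∈ P := fun _ => one_pos
    have h2 := hfneg _ h1
    set r : ℝ := u / (2 * f (fun _ : I => (1 : ℝ))) with hr
    have hr0 : 0 < r := div_pos_of_neg_of_neg hneg (by linarith)
    have h3 : (r • (fun _ : I => (1 : ℝ))) ∈ P := by
      intro n
      simp only [Pi.smul_apply, smul_eq_mul, mul_one]
      exact hr0
    have h4 := hfP _ h3
    rw [map_smul, smul_eq_mul, hr] at h4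
    have h5 : u / (2 * f (fun _ : I => (1 : ℝ))) * f (fun _ : I => (1 : ℝ)) = u / 2 := by
      generalize f (fun _ : I => (1 : ℝ)) = y at h2
      have hy : y ≠ 0 := h2.ne
      field_simp
    rw [h5] at h4
    linarith
  have hf0 : ∀ x : I → ℝ, (∀ n, 0 ≤ x n) → f x ≤ 0 := by
    intro x hx
    by_contra hpos
    push Not at hpos
    have h1 : (fun _ : I => (1 : ℝ)) ∈ P := fun _ => one_pos
    have h2 := hfneg _ h1
    set r : ℝ := f x / (2 * -f (fun _ : I => (1 : ℝ))) with hr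
    have hr0 : 0 < r := by
      apply div_pos hpos
      linarith
    have h3 : x + r • (fun _ : I => (1 : ℝ)) ∈ P := by
      intro n
      simp only [Pi.add_apply, Pi.smul_apply, smul_eq_mul, mul_one]
      have := hx n
      linarith
    have h4 := hfneg _ h3
    rw [map_add, map_smul, smul_eq_mul, hr] at h4
    have h5 : f x / (2 * -f (fun _ : I => (1 : ℝ))) * f (fun _ : I => (1 : ℝ)) = -(f x / 2) := by
      generalize f (fun _ : I => (1 : ℝ)) = y at h2
      have hy : y ≠ 0 := h2.ne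
      field_simp
    rw [h5] at h4
    linarith
  set q : I → ℝ := fun n => -f (Pi.single n 1) with hq
  have hq0 : ∀ n, 0 ≤ q n := by
    intro n
    have := hf0 (Pi.single n 1) (fun m => by
      by_cases h : m = n
      · subst h; simp
      · rw [Pi.single_eq_of_ne h])
    simp only [hq]
    linarith
  have hfq : ∀ x : I → ℝ, f x = -∑ n, q n * x n := by
    intro x
    have h1 : x = ∑ n, x n • (Pi.single n (1 : ℝ) : I → ℝ) := by
      ext m
      simp [Finset.sum_apply, Pi.single_apply]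
    conv_lhs => rw [h1]
    rw [map_sum, ← sum_neg_distrib]
    apply sum_congr rfl
    intro n _
    rw [map_smul, smul_eq_mul]
    simp only [hq]
    ring
  set Z : ℝ := ∑ n, q n with hZ
  have hZ0 : 0 < Z := by
    have h1 : (fun _ : I => (1 : ℝ)) ∈ P := fun _ => one_pos
    have h2 := hfneg _ h1
    rw [hfq] at h2
    simp only [mul_one] at h2
    linarith
  refine ⟨fun n => if h : n ∈ I then q ⟨n, h⟩ / Z else 0, ?_, ?_, ?_⟩
  · intro n
    simp only
    split_ifs with h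
    · exact div_nonneg (hq0 _) hZ0.le
    · exact le_rfl
  · rw [← sum_coe_sort I]
    have : ∀ n : I, (if h : (n : ℕ) ∈ I then q ⟨n, h⟩ / Z else 0) = q n / Z := by
      intro n
      rw [dif_pos n.2]
    rw [sum_congr rfl fun n _ => this n, ← sum_div]
    exact div_self hZ0.ne'
  · intro a
    have h1 := hfS (v a) (subset_convexHull ℝ _ ⟨_, rfl⟩)
    have h2 : 0 ≤ f (v a) := hu1.trans h1
    rw [hfq] at h2
    have h3 : ∑ n, q n * v a n = Z * Q I lam W a - M' * ∑ n : I, q n * ‖a n‖ ^ 2 := by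
      simp only [hv]
      rw [hZ, sum_mul, mul_sum, ← sum_sub_distrib]
      apply sum_congr rfl
      intro n _
      ring
    rw [h3] at h2
    have h4 : Z * Q I lam W a ≤ M' * ∑ n : I, q n * ‖a n‖ ^ 2 := by linarith
    have h5 : ∑ n ∈ I, (if h : n ∈ I then q ⟨n, h⟩ / Z else 0) * ‖a n‖ ^ 2 =
        (∑ n : I, q n * ‖a n‖ ^ 2) / Z := by
      rw [← sum_coe_sort I, sum_div]
      apply sum_congr rfl
      intro n _
      rw [dif_pos n.2]
      ring
    rw [h5, ← mul_div_assoc, le_div_iff₀ hZ0]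
    linarith

end Pool.Agent.N793.LV.Pie
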