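import Mathlib

set_option autoImplicit false

/-!
# Random signs

`Ω = Fin J → Bool`; the number of signs for which a signed sum of complex numbers of modulus at most one
is larger than `κ` is at most `4 · 2 ^ J · exp (-κ² / (4 J))`.
-/

namespace Pool.Agent.N793.LV

open Finset

/-- the sign -/
def sg (x : Bool) : ℝ := if x then 1 else -1

theorem sg_sq (x : Bool) : sg x * sg x = 1 := by cases x <;> simp [sg]

theorem sg_not (x : Bool) : sg (!x) = - sg x := by cases x <;> simp [sg]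

theorem mgf {J : ℕ} (a : Fin J → ℝ) (θ : ℝ) :
    ∑ ω : Fin J → Bool, Real.exp (θ * ∑ j, sg (ω j) * a j) ≤
      2 ^ J * Real.exp (θ ^ 2 * (∑ j, a j ^ 2) / 2) := by
  have h1 : ∀ ω : Fin J → Bool, Real.exp (θ * ∑ j, sg (ω j) * a j) =
      ∏ j, Real.exp (θ * (sg (ω j) * a j)) := by
    intro ω
    rw [mul_sum, Real.exp_sum]
  simp_rw [h1]
  have h2 : ∑ ω : Fin J → Bool, ∏ j, Real.exp (θ * (sg (ω j) * a j)) =
      ∏ j, ∑ x : Bool, Real.exp (θ * (sg x * a j)) := by
    rw [prod_univ_sum, Fintype.piFinset_univ]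
  rw [h2]
  calc ∏ j, ∑ x : Bool, Real.exp (θ * (sg x * a j))
      ≤ ∏ j : Fin J, (2 * Real.exp (θ ^ 2 * a j ^ 2 / 2)) := by
        apply prod_le_prod
        · intro j _
          positivity
        · intro j _
          have h3 := Real.cosh_le_exp_half_sq (θ * a j)
          rw [Real.cosh_eq] at h3
          have h4 : ∑ x : Bool, Real.exp (θ * (sg x * a j)) =
              Real.exp (θ * a j) + Real.exp (-(θ * a j)) := by
            simp [sg]
          rw [h4]
          have h5 : (θ * a j) ^ 2 = θ ^ 2 * a j ^ 2 := by ring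
          rw [h5] at h3
          linarith
    _ = 2 ^ J * Real.exp (θ ^ 2 * (∑ j, a j ^ 2) / 2) := by
        rw [prod_mul_distrib, prod_const, card_univ, Fintype.card_fin, ← Real.exp_sum]
        congr 2
        rw [mul_sum, sum_div]

/-- one-sided tail for real sums -/
theorem tail_real {J : ℕ} (a : Fin J → ℝ) (ha : ∀ j, |a j| ≤ 1) {lam : ℝ} (hl : 0 < lam) :
    ((univ.filter (fun ω : Fin J → Bool => lam ≤ ∑ j, sg (ω j) * a j)).card : ℝ) ≤
      2 ^ J * Real.exp (-(lam ^ 2 / (2 * J))) := by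
  rcases Nat.eq_zero_or_pos J with rfl | hJ
  · have h0 : (univ.filter (fun ω : Fin 0 → Bool => lam ≤ ∑ j, sg (ω j) * a j)) = ∅ := by
      apply filter_false_of_mem
      intro ω _
      simp [hl]
    rw [h0, card_empty, Nat.cast_zero]
    positivity
  have hJ0 : (0 : ℝ) < J := by exact_mod_cast hJ
  have h := mgf a (lam / J)
  have hsq : ∑ j, a j ^ 2 ≤ J := by
    calc ∑ j, a j ^ 2 ≤ ∑ j : Fin J, (1 : ℝ) := by
          apply sum_le_sum
          intro j _
          have := ha j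
          rw [← sq_abs]
          exact pow_le_one₀ (abs_nonneg _) this
      _ = J := by simp
  have h1 : ((univ.filter (fun ω : Fin J → Bool => lam ≤ ∑ j, sg (ω j) * a j)).card : ℝ) *
      Real.exp (lam ^ 2 / J) ≤ ∑ ω : Fin J → Bool, Real.exp (lam / J * ∑ j, sg (ω j) * a j) := by
    calc _ = ∑ ω ∈ univ.filter (fun ω : Fin J → Bool => lam ≤ ∑ j, sg (ω j) * a j),
          Real.exp (lam ^ 2 / J) := by rw [sum_const, nsmul_eq_mul]
      _ ≤ ∑ ω ∈ univ.filter (fun ω : Fin J → Bool => lam ≤ ∑ j, sg (ω j) * a j),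
          Real.exp (lam / J * ∑ j, sg (ω j) * a j) := by
          apply sum_le_sum
          intro ω hω
          rw [mem_filter] at hω
          apply Real.exp_le_exp.2
          have h2 : lam ^ 2 / J = lam / J * lam := by ring
          rw [h2]
          exact mul_le_mul_of_nonneg_left hω.2 (by positivity)
      _ ≤ _ := sum_le_sum_of_subset_of_nonneg (filter_subset _ _)
          (fun _ _ _ => (Real.exp_pos _).le)
  have h2 : 2 ^ J * Real.exp ((lam / J) ^ 2 * (∑ j, a j ^ 2) / 2) ≤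
      2 ^ J * Real.exp (lam ^ 2 / (2 * J)) := by
    apply mul_le_mul_of_nonneg_left _ (by positivity)
    apply Real.exp_le_exp.2
    calc (lam / J) ^ 2 * (∑ j, a j ^ 2) / 2 ≤ (lam / J) ^ 2 * J / 2 := by
          apply div_le_div_of_nonneg_right _ (by norm_num)
          exact mul_le_mul_of_nonneg_left hsq (by positivity)
      _ = lam ^ 2 / (2 * J) := by field_simp
  have h3 := (h1.trans h).trans h2
  have h4 : Real.exp (-(lam ^ 2 / (2 * J))) =
      Real.exp (lam ^ 2 / (2 * J)) / Real.exp (lam ^ 2 / J) := by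
    rw [← Real.exp_sub]
    congr 1
    field_simp
    ring
  rw [h4, ← mul_div_assoc, le_div_iff₀ (Real.exp_pos _)]
  exact h3

theorem tail_real' {J : ℕ} (a : Fin J → ℝ) (ha : ∀ j, |a j| ≤ 1) {lam : ℝ} (hl : 0 < lam) :
    ((univ.filter (fun ω : Fin J → Bool => lam ≤ |∑ j, sg (ω j) * a j|)).card : ℝ) ≤
      2 * (2 ^ J * Real.exp (-(lam ^ 2 / (2 * J)))) := by
  have h1 := tail_real a ha hl
  have h2 := tail_real (fun j => - a j) (fun j => by rw [abs_neg]; exact ha j) hl
  have h3 : (univ.filter (fun ω : Fin J → Bool => lam ≤ |∑ j, sg (ω j) * a j|)) ⊆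
      (univ.filter (fun ω : Fin J → Bool => lam ≤ ∑ j, sg (ω j) * a j)) ∪
      (univ.filter (fun ω : Fin J → Bool => lam ≤ ∑ j, sg (ω j) * (- a j))) := by
    intro ω hω
    rw [mem_filter] at hω
    rw [mem_union, mem_filter, mem_filter]
    rcases le_abs'.1 hω.2 with h | h
    · right
      refine ⟨mem_univ _, ?_⟩
      simp only [mul_neg, sum_neg_distrib]
      linarith
    · left
      exact ⟨mem_univ _, h⟩
  have h4 := (card_le_card h3).trans (card_union_le _ _)
  have h5 : ((univ.filter (fun ω : Fin J → Bool => lam ≤ |∑ j, sg (ω j) * a j|)).card : ℝ) ≤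
      (univ.filter (fun ω : Fin J → Bool => lam ≤ ∑ j, sg (ω j) * a j)).card +
      (univ.filter (fun ω : Fin J → Bool => lam ≤ ∑ j, sg (ω j) * (- a j))).card := by
    exact_mod_cast h4
  linarith

/-- the tail for complex sums -/
theorem tail {J : ℕ} (c : Fin J → ℂ) (hc : ∀ j, ‖c j‖ ≤ 1) {κ : ℝ} (hκ : 0 < κ) :
    ((univ.filter (fun ω : Fin J → Bool => κ < ‖∑ j, (sg (ω j) : ℂ) * c j‖)).card : ℝ) ≤
      4 * (2 ^ J * Real.exp (-(κ ^ 2 / (4 * J)))) := by
  have hs2 : (0 : ℝ) < Real.sqrt 2 := Real.sqrt_pos.2 (by norm_num)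
  have hs : Real.sqrt 2 ^ 2 = 2 := Real.sq_sqrt (by norm_num)
  have hl : 0 < κ / Real.sqrt 2 := by positivity
  have h1 := tail_real' (fun j => (c j).re) (fun j => (Complex.abs_re_le_norm _).trans (hc j)) hl
  have h2 := tail_real' (fun j => (c j).im) (fun j => (Complex.abs_im_le_norm _).trans (hc j)) hl
  have h3 : (univ.filter (fun ω : Fin J → Bool => κ < ‖∑ j, (sg (ω j) : ℂ) * c j‖)) ⊆
      (univ.filter (fun ω : Fin J → Bool => κ / Real.sqrt 2 ≤ |∑ j, sg (ω j) * (c j).re|)) ∪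
      (univ.filter (fun ω : Fin J → Bool => κ / Real.sqrt 2 ≤ |∑ j, sg (ω j) * (c j).im|)) := by
    intro ω hω
    rw [mem_filter] at hω
    rw [mem_union, mem_filter, mem_filter]
    by_contra hcon
    push Not at hcon
    obtain ⟨hc1, hc2⟩ := hcon
    have hc1 := hc1 (mem_univ _)
    have hc2 := hc2 (mem_univ _)
    have hre : (∑ j, (sg (ω j) : ℂ) * c j).re = ∑ j, sg (ω j) * (c j).re := by
      rw [Complex.re_sum]
      exact sum_congr rfl (fun j _ => Complex.re_ofReal_mul _ _)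
    have him : (∑ j, (sg (ω j) : ℂ) * c j).im = ∑ j, sg (ω j) * (c j).im := by
      rw [Complex.im_sum]
      exact sum_congr rfl (fun j _ => Complex.im_ofReal_mul _ _)
    have hn : ‖∑ j, (sg (ω j) : ℂ) * c j‖ ^ 2 =
        (∑ j, sg (ω j) * (c j).re) ^ 2 + (∑ j, sg (ω j) * (c j).im) ^ 2 := by
      rw [← Complex.normSq_eq_norm_sq, Complex.normSq_apply, hre, him]
      ring
    have e1 : (∑ j, sg (ω j) * (c j).re) ^ 2 < (κ / Real.sqrt 2) ^ 2 := by
      rw [← sq_abs]
      exact pow_lt_pow_left₀ hc1 (abs_nonneg _) (by norm_num)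
    have e2 : (∑ j, sg (ω j) * (c j).im) ^ 2 < (κ / Real.sqrt 2) ^ 2 := by
      rw [← sq_abs]
      exact pow_lt_pow_left₀ hc2 (abs_nonneg _) (by norm_num)
    have e3 : (κ / Real.sqrt 2) ^ 2 = κ ^ 2 / 2 := by rw [div_pow, hs]
    have e4 : κ ^ 2 < ‖∑ j, (sg (ω j) : ℂ) * c j‖ ^ 2 :=
      pow_lt_pow_left₀ hω.2 hκ.le (by norm_num)
    rw [hn] at e4
    rw [e3] at e1 e2
    linarith
  have h4 := (card_le_card h3).trans (card_union_le _ _)
  have h5 : ((univ.filter (fun ω : Fin J → Bool => κ < ‖∑ j, (sg (ω j) : ℂ) * c j‖)).card : ℝ) ≤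
      (univ.filter (fun ω : Fin J → Bool => κ / Real.sqrt 2 ≤ |∑ j, sg (ω j) * (c j).re|)).card +
      (univ.filter (fun ω : Fin J → Bool => κ / Real.sqrt 2 ≤ |∑ j, sg (ω j) * (c j).im|)).card := by
    exact_mod_cast h4
  have h6 : (κ / Real.sqrt 2) ^ 2 / (2 * J) = κ ^ 2 / (4 * J) := by
    rw [div_pow, hs]
    rcases Nat.eq_zero_or_pos J with rfl | hJ
    · simp
    · field_simp
      norm_num
  rw [h6] at h1 h2
  linarith

end Pool.Agent.N793.LV
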