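import Pool.Agent.N793.LV.ZO
import Pool.Agent.Y959.Rs.RealK

set_option autoImplicit false

/-!
# The range `T ≤ N^{1/2}` (Halász's method)
-/

namespace Pool.Agent.N793.LV

open Finset Pool.Agent.TH705.DL Pool.Agent.Y959.Rs

theorem ph_F (t : ℝ) (n : ℕ) :
    ph t n = Complex.exp (Complex.I * (t : ℂ) * (Real.log (n : ℝ) : ℂ)) := rfl

/-- the sum over `[1, N]` without the logarithm in the main term -/
theorem ker84 (t : ℝ) (ht : 0 < t) : ∀ N : ℕ, 1 ≤ N →
    ‖∑ n ∈ Icc 1 N, ph t n‖ ≤ 84 * N / t + ((Nat.log 2 N : ℝ) + 1) *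
      (14 * Real.sqrt (t * (1 + Real.log N))) := by
  intro N
  induction N using Nat.strong_induction_on with
  | _ N ih =>
    intro hN
    have hN1 : (1 : ℝ) ≤ N := by exact_mod_cast hN
    have hN0 : (0 : ℝ) < N := by linarith
    obtain ⟨m, hm⟩ : ∃ m : ℕ, m = N / 2 := ⟨_, rfl⟩
    have hmN : m < N := by omega
    have hE : ∀ M : ℕ, 1 ≤ M → M ≤ N → 14 * Real.sqrt (t * (1 + Real.log M)) ≤
        14 * Real.sqrt (t * (1 + Real.log N)) := by
      intro M hM hMN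
      have hM0 : (0 : ℝ) < M := by exact_mod_cast hM
      have hMN' : (M : ℝ) ≤ N := by exact_mod_cast hMN
      have h2 : Real.sqrt (t * (1 + Real.log M)) ≤ Real.sqrt (t * (1 + Real.log N)) := by
        apply Real.sqrt_le_sqrt
        apply mul_le_mul_of_nonneg_left _ ht.le
        have := Real.log_le_log hM0 hMN'
        linarith
      linarith
    have hE0 : 0 ≤ 14 * Real.sqrt (t * (1 + Real.log N)) := by positivity
    have hsplit : ∑ n ∈ Icc 1 N, ph t n =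
        ∑ n ∈ Icc 1 m, ph t n + ∑ n ∈ Ico (m + 1) (m + 1 + (N - m)), ph t n := by
      have h1 : Icc 1 N = Icc 1 m ∪ Ico (m + 1) (m + 1 + (N - m)) := by
        ext n
        simp only [mem_union, mem_Icc, mem_Ico]
        omega
      rw [h1, sum_union]
      rw [disjoint_left]
      intro n hn hn'
      rw [mem_Icc] at hn
      rw [mem_Ico] at hn'
      omega
    have hb := blk (m + 1) (by omega) (N - m) (by omega) t ht
    have hb2 := hE (m + 1) (by omega) (by omega)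
    rw [hsplit]
    refine (norm_add_le _ _).trans ?_
    rcases Nat.eq_zero_or_pos m with h0 | h0
    · have hN1' : N = 1 := by omega
      subst hN1'
      rw [h0] at hb hb2 ⊢
      simp only [Icc_eq_empty_of_lt (by norm_num : (0 : ℕ) < 1), sum_empty, norm_zero, zero_add] at hb hb2 ⊢
      have h2 : Nat.log 2 1 = 0 := by simp
      rw [h2]
      have h3 : 42 * ((1 : ℕ) : ℝ) / t ≤ 84 * ((1 : ℕ) : ℝ) / t := by
        apply div_le_div_of_nonneg_right _ ht.le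
        norm_num
      push_cast at hb h3 ⊢
      linarith
    · have h1 := ih m hmN h0
      have h2 := mul_le_mul_of_nonneg_left (hE m h0 hmN.le) (by positivity : (0 : ℝ) ≤ (Nat.log 2 m : ℝ) + 1)
      have h3 : Nat.log 2 N = Nat.log 2 m + 1 := by
        rw [hm]
        have h4 : 2 ≤ N := by omega
        rw [Nat.log_div_base]
        have h5 : 1 ≤ Nat.log 2 N := Nat.log_pos (by norm_num) h4
        omega
      have h4 : 84 * (m : ℝ) / t + 42 * ((m + 1 : ℕ) : ℝ) / t ≤ 84 * N / t := by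
        rw [← add_div]
        apply div_le_div_of_nonneg_right _ ht.le
        have h5 : 2 * m ≤ N := by omega
        have h6 : 2 ≤ N := by omega
        have h7 : (2 * m : ℝ) ≤ N := by exact_mod_cast h5
        have h8 : (2 : ℝ) ≤ N := by exact_mod_cast h6
        push_cast
        linarith
      rw [h3]
      push_cast at hb hb2 h1 h2 h4 ⊢
      linarith

/-- for both signs, in the range `|x| ≤ T` -/
theorem ker84' (N : ℕ) (hN : 1 ≤ N) (T : ℝ) (x : ℝ) (hx : x ≠ 0) (hxT : |x| ≤ T) :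
    ‖∑ n ∈ Icc 1 N, ph x n‖ ≤ 84 * N * (1 / |x|) +
      ((Nat.log 2 N : ℝ) + 1) * (14 * Real.sqrt (T * (1 + Real.log N))) := by
  have hN1 : (1 : ℝ) ≤ N := by exact_mod_cast hN
  have hl0 : 0 ≤ Real.log N := Real.log_nonneg hN1
  have hneg : ‖∑ n ∈ Icc 1 N, ph x n‖ = ‖∑ n ∈ Icc 1 N, ph |x| n‖ := by
    rcases lt_or_gt_of_ne hx with h | h
    · rw [abs_of_neg h]
      have : ∑ n ∈ Icc 1 N, ph (-x) n = (starRingEnd ℂ) (∑ n ∈ Icc 1 N, ph x n) := by
        rw [map_sum]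
        exact sum_congr rfl fun n _ => (ph_conj _ _).symm
      rw [this, Complex.norm_conj]
    · rw [abs_of_pos h]
  rw [hneg]
  refine (ker84 |x| (abs_pos.2 hx) N hN).trans ?_
  have h1 : Real.sqrt (|x| * (1 + Real.log N)) ≤ Real.sqrt (T * (1 + Real.log N)) :=
    Real.sqrt_le_sqrt (mul_le_mul_of_nonneg_right hxT (by linarith))
  have h2 : ((Nat.log 2 N : ℝ) + 1) * (14 * Real.sqrt (|x| * (1 + Real.log N))) ≤
      ((Nat.log 2 N : ℝ) + 1) * (14 * Real.sqrt (T * (1 + Real.log N))) := by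
    apply mul_le_mul_of_nonneg_left _ (by positivity)
    linarith
  rw [mul_one_div]
  linarith

/-- the double sum over a separated set -/
theorem dbl (N : ℕ) (hN : 1 ≤ N) (T : ℝ) (hT : 0 ≤ T) (W : Finset ℝ)
    (hW : ∀ t ∈ W, 0 ≤ t ∧ t ≤ T) (hsep : LV.Sep W) :
    ∑ t ∈ W, ∑ u ∈ W, ‖∑ n ∈ Icc 1 N, ph (t - u) n‖ ≤
      W.card * (N + 168 * N * (1 + Real.log (T + 1)) +
        W.card * (((Nat.log 2 N : ℝ) + 1) * (14 * Real.sqrt (T * (1 + Real.log N))))) := by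
  classical
  have hN1 : (1 : ℝ) ≤ N := by exact_mod_cast hN
  have hl0 : 0 ≤ Real.log N := Real.log_nonneg hN1
  set Q : ℝ := ((Nat.log 2 N : ℝ) + 1) * (14 * Real.sqrt (T * (1 + Real.log N))) with hQ
  have hQ0 : 0 ≤ Q := by positivity
  have h4 : ∀ t ∈ W, ∑ u ∈ W, ‖∑ n ∈ Icc 1 N, ph (t - u) n‖ ≤
      N + 168 * N * (1 + Real.log (T + 1)) + W.card * Q := by
    intro t ht
    rw [← add_sum_erase W _ ht]
    have h5 : ∑ u ∈ W.erase t, ‖∑ n ∈ Icc 1 N, ph (t - u) n‖ ≤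
        ∑ u ∈ W.erase t, (84 * N * (1 / |t - u|) + Q) := by
      apply sum_le_sum
      intro u hu
      have hne := ne_of_mem_erase hu
      have huW := mem_of_mem_erase hu
      apply ker84' N hN T (t - u) (sub_ne_zero.2 (Ne.symm hne))
      have h6 := hW t ht
      have h7 := hW u huW
      rw [abs_le]
      constructor <;> linarith
    rw [sum_add_distrib, ← mul_sum, sum_const, nsmul_eq_mul] at h5
    have h6 := mul_le_mul_of_nonneg_left (harm_real T hT W hW hsep t ht)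
      (by positivity : (0 : ℝ) ≤ 84 * N)
    have h7 : ‖∑ n ∈ Icc 1 N, ph (t - t) n‖ ≤ N := by
      refine (norm_sum_le _ _).trans ?_
      rw [sum_congr rfl fun n _ => ph_norm (t - t) n, sum_const, Nat.card_Icc, nsmul_eq_mul, mul_one,
        Nat.add_sub_cancel]
    have h8 : ((W.erase t).card : ℝ) * Q ≤ W.card * Q := by
      apply mul_le_mul_of_nonneg_right _ hQ0
      exact_mod_cast card_le_card (erase_subset _ _)
    linarith
  calc _ ≤ ∑ t ∈ W, ((N : ℝ) + 168 * N * (1 + Real.log (T + 1)) + W.card * Q) := sum_le_sum h4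
    _ = _ := by rw [sum_const, nsmul_eq_mul]

/-- Halász's inequality -/
theorem halasz (N : ℕ) (b : ℕ → ℂ) (hb : ∀ n ∈ Icc 1 N, ‖b n‖ ≤ 1) (W : Finset ℝ) {V M : ℝ}
    (hM0 : 0 ≤ M) (hV : 0 ≤ V) (hVW : ∀ t ∈ W, V ≤ ‖∑ n ∈ Icc 1 N, b n * ph t n‖)
    (hM : ∑ t ∈ W, ∑ u ∈ W, ‖∑ n ∈ Icc 1 N, ph (t - u) n‖ ≤ W.card * M) :
    (W.card : ℝ) * V ^ 2 ≤ N * M := by
  classical
  rcases W.eq_empty_or_nonempty with rfl | hne
  · simp only [card_empty, Nat.cast_zero, zero_mul]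
    positivity
  have hW0 : (0 : ℝ) < W.card := by exact_mod_cast hne.card_pos
  set D : ℝ → ℂ := fun t => ∑ n ∈ Icc 1 N, b n * ph t n with hD
  set θ : ℝ → ℂ := fun t => if D t = 0 then 1 else (starRingEnd ℂ) (D t) / ‖D t‖ with hθ
  have hθ1 : ∀ t, ‖θ t‖ = 1 := by
    intro t
    simp only [hθ]
    split_ifs with h
    · simp
    · rw [norm_div, Complex.norm_conj, Complex.norm_real, norm_norm]
      exact div_self (norm_ne_zero_iff.2 h)
  have hθD : ∀ t, θ t * D t = (‖D t‖ : ℂ) := by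
    intro t
    simp only [hθ]
    split_ifs with h
    · rw [h]; simp
    · rw [div_mul_eq_mul_div, mul_comm, Complex.mul_conj']
      have : (‖D t‖ : ℂ) ≠ 0 := by exact_mod_cast norm_ne_zero_iff.2 h
      field_simp
  set z : ℕ → ℂ := fun n => ∑ t ∈ W, θ t * ph t n with hz
  have h1 : ∑ t ∈ W, ‖D t‖ ≤ ∑ n ∈ Icc 1 N, ‖z n‖ := by
    have e : ((∑ t ∈ W, ‖D t‖ : ℝ) : ℂ) = ∑ n ∈ Icc 1 N, b n * z n := by
      push_cast
      rw [sum_congr rfl fun t _ => (hθD t).symm]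
      simp only [hD, hz, mul_sum]
      rw [sum_comm]
      apply sum_congr rfl
      intro n _
      apply sum_congr rfl
      intro t _
      ring
    have h2 : 0 ≤ ∑ t ∈ W, ‖D t‖ := sum_nonneg fun _ _ => norm_nonneg _
    rw [← Real.norm_of_nonneg h2, ← Complex.norm_real, e]
    refine (norm_sum_le _ _).trans (sum_le_sum fun n hn => ?_)
    rw [norm_mul]
    exact mul_le_of_le_one_left (norm_nonneg _) (hb n hn)
  have h2 : ∑ n ∈ Icc 1 N, ‖z n‖ ^ 2 ≤ W.card * M := by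
    refine le_trans ?_ hM
    have e : ((∑ n ∈ Icc 1 N, ‖z n‖ ^ 2 : ℝ) : ℂ) =
        ∑ t ∈ W, ∑ u ∈ W, θ t * (starRingEnd ℂ) (θ u) * ∑ n ∈ Icc 1 N, ph (t - u) n := by
      push_cast
      have h3 : ∀ n ∈ Icc 1 N, ((‖z n‖ : ℂ)) ^ 2 =
          ∑ t ∈ W, ∑ u ∈ W, θ t * (starRingEnd ℂ) (θ u) * ph (t - u) n := by
        intro n _
        rw [← Complex.mul_conj']
        simp only [hz]
        rw [map_sum, sum_mul_sum]
        apply sum_congr rfl
        intro i _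
        apply sum_congr rfl
        intro j _
        rw [map_mul, ← ph_sub]
        ring
      rw [sum_congr rfl h3, sum_comm]
      apply sum_congr rfl
      intro i _
      rw [sum_comm]
      apply sum_congr rfl
      intro j _
      rw [mul_sum]
    have h0 : 0 ≤ ∑ n ∈ Icc 1 N, ‖z n‖ ^ 2 := sum_nonneg fun _ _ => sq_nonneg _
    rw [← Real.norm_of_nonneg h0, ← Complex.norm_real, e]
    refine (norm_sum_le _ _).trans (sum_le_sum fun i _ => ?_)
    refine (norm_sum_le _ _).trans (sum_le_sum fun j _ => ?_)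
    rw [norm_mul, norm_mul, RCLike.norm_conj, hθ1, hθ1, one_mul, one_mul]
  have h3 : (W.card : ℝ) * V ≤ ∑ n ∈ Icc 1 N, ‖z n‖ := by
    refine le_trans ?_ h1
    rw [← nsmul_eq_mul, ← sum_const]
    exact sum_le_sum hVW
  have h4 : (∑ n ∈ Icc 1 N, ‖z n‖) ^ 2 ≤ N * ∑ n ∈ Icc 1 N, ‖z n‖ ^ 2 := by
    have := sq_sum_le_card_mul_sum_sq (s := Icc 1 N) (f := fun n => ‖z n‖)
    rw [Nat.card_Icc, Nat.add_sub_cancel] at this
    exact this
  have h5 : ((W.card : ℝ) * V) ^ 2 ≤ N * (W.card * M) := by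
    refine (pow_le_pow_left₀ (by positivity) h3 2).trans (h4.trans ?_)
    exact mul_le_mul_of_nonneg_left h2 (Nat.cast_nonneg _)
  have h6 : (W.card : ℝ) * (W.card * V ^ 2) ≤ W.card * (N * M) := by
    calc (W.card : ℝ) * (W.card * V ^ 2) = ((W.card : ℝ) * V) ^ 2 := by ring
      _ ≤ N * (W.card * M) := h5
      _ = _ := by ring
  exact le_of_mul_le_mul_left h6 hW0

/-- the auxiliary inequality for the error term -/
theorem err : ∃ C : ℝ, 0 < C ∧ ∀ (N : ℕ) (T : ℝ), 1 ≤ N → 1 ≤ T → T ^ 2 ≤ N →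
    2 * T * (((Nat.log 2 N : ℝ) + 1) * (14 * Real.sqrt (T * (1 + Real.log N)))) ≤ C * N := by
  obtain ⟨K, hK, hlog⟩ : ∃ K : ℝ, 0 < K ∧ ∀ x : ℝ, 1 ≤ x → 1 + Real.log x ≤ K * x ^ (1 / 6 : ℝ) := by
    refine ⟨1 + 1 / (1 / 6), by norm_num, ?_⟩
    intro x hx
    have h1 := Real.log_le_rpow_div (by linarith : (0 : ℝ) ≤ x) (by norm_num : (0 : ℝ) < 1 / 6)
    have h2 : 1 ≤ x ^ (1 / 6 : ℝ) := Real.one_le_rpow hx (by norm_num)
    calc 1 + Real.log x ≤ x ^ (1 / 6 : ℝ) + x ^ (1 / 6 : ℝ) / (1 / 6) := by linarith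
      _ = _ := by ring
  have hK1 : 1 ≤ K := by
    have := hlog 1 le_rfl
    simpa using this
  refine ⟨2 * (2 * K * (14 * K)), by positivity, ?_⟩
  intro N T hN hT hTN
  have hN1 : (1 : ℝ) ≤ N := by exact_mod_cast hN
  have hN0 : (0 : ℝ) < N := by linarith
  have hl0 : 0 ≤ Real.log N := Real.log_nonneg hN1
  have h1 : (Nat.log 2 N : ℝ) ≤ 2 * Real.log N := by
    have h1 : 2 ^ Nat.log 2 N ≤ N := Nat.pow_log_le_self 2 (by omega)
    have h2 : ((2 : ℝ) ^ Nat.log 2 N) ≤ N := by exact_mod_cast h1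
    have h3 := Real.log_le_log (by positivity) h2
    rw [Real.log_pow] at h3
    have h4 := Real.log_two_gt_d9
    have h5 : (0 : ℝ) ≤ (Nat.log 2 N : ℝ) := Nat.cast_nonneg _
    nlinarith
  have h2 := hlog N hN1
  set x : ℝ := (N : ℝ) ^ (1 / 6 : ℝ) with hx
  have hx1 : 1 ≤ x := Real.one_le_rpow hN1 (by norm_num)
  have h3 : (Nat.log 2 N : ℝ) + 1 ≤ 2 * K * x := by linarith
  have h4 : T ≤ (N : ℝ) ^ (1 / 2 : ℝ) := by
    rw [← Real.sqrt_eq_rpow]
    exact Real.le_sqrt_of_sq_le hTN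
  have h5 : Real.sqrt (T * (1 + Real.log N)) ≤ K * (N : ℝ) ^ (1 / 3 : ℝ) := by
    apply Real.sqrt_le_iff.2
    refine ⟨by positivity, ?_⟩
    have e : (K * (N : ℝ) ^ (1 / 3 : ℝ)) ^ 2 = K ^ 2 * ((N : ℝ) ^ (1 / 2 : ℝ) * x) := by
      rw [mul_pow, ← Real.rpow_natCast ((N : ℝ) ^ (1 / 3 : ℝ)), ← Real.rpow_mul hN0.le, hx,
        ← Real.rpow_add hN0]
      norm_num
    rw [e]
    calc T * (1 + Real.log N) ≤ (N : ℝ) ^ (1 / 2 : ℝ) * (K * x) :=
          mul_le_mul h4 h2 (by linarith) (by positivity)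
      _ = K * ((N : ℝ) ^ (1 / 2 : ℝ) * x) := by ring
      _ ≤ K ^ 2 * ((N : ℝ) ^ (1 / 2 : ℝ) * x) := by
          apply mul_le_mul_of_nonneg_right _ (by positivity)
          nlinarith
  have e2 : (N : ℝ) = (N : ℝ) ^ (1 / 2 : ℝ) * (x * (N : ℝ) ^ (1 / 3 : ℝ)) := by
    rw [hx, ← Real.rpow_add hN0, ← Real.rpow_add hN0]
    norm_num
  calc 2 * T * (((Nat.log 2 N : ℝ) + 1) * (14 * Real.sqrt (T * (1 + Real.log N))))
      ≤ 2 * (N : ℝ) ^ (1 / 2 : ℝ) * ((2 * K * x) * (14 * (K * (N : ℝ) ^ (1 / 3 : ℝ)))) := by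
        gcongr
    _ = 2 * (2 * K * (14 * K)) * ((N : ℝ) ^ (1 / 2 : ℝ) * (x * (N : ℝ) ^ (1 / 3 : ℝ))) := by ring
    _ = 2 * (2 * K * (14 * K)) * N := by rw [← e2]

theorem card_le_T' {T : ℝ} (hT : 0 ≤ T) (W : Finset ℝ) (hsep : LV.Sep W)
    (hW : ∀ t ∈ W, 0 ≤ t ∧ t ≤ T) : (W.card : ℝ) ≤ T + 1 := by
  classical
  have hinj : Set.InjOn (fun t : ℝ => ⌊t⌋₊) W := by
    intro t ht u hu htu
    by_contra hne
    have h1 := hsep t (mem_coe.1 ht) u (mem_coe.1 hu) hne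
    have h2 := Nat.floor_le (hW t (mem_coe.1 ht)).1
    have h3 := Nat.floor_le (hW u (mem_coe.1 hu)).1
    have h4 := Nat.lt_floor_add_one t
    have h5 := Nat.lt_floor_add_one u
    simp only at htu
    rw [htu] at h2 h4
    have : |t - u| < 1 := by
      rw [abs_lt]
      constructor <;> linarith
    linarith
  have h1 : W.image (fun t : ℝ => ⌊t⌋₊) ⊆ range (⌊T⌋₊ + 1) := by
    intro n hn
    rw [mem_image] at hn
    obtain ⟨t, ht, rfl⟩ := hn
    rw [mem_range]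
    exact Nat.lt_succ_of_le (Nat.floor_le_floor (hW t ht).2)
  have h2 := card_le_card h1
  rw [card_image_of_injOn hinj, card_range] at h2
  have h3 : (W.card : ℝ) ≤ ⌊T⌋₊ + 1 := by exact_mod_cast h2
  have := Nat.floor_le hT
  linarith

/-- **the range `T ≤ N^{1/2}`** -/
theorem small : ∃ C : ℝ, 0 < C ∧ ∀ (N : ℕ) (T V : ℝ) (b : ℕ → ℂ) (W : Finset ℝ), 1 ≤ N → 1 ≤ T →
    T ^ 2 ≤ N → (∀ n ∈ Icc 1 N, ‖b n‖ ≤ 1) → LV.Sep W → (∀ t ∈ W, 0 ≤ t ∧ t ≤ T) → 0 < V →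
    (∀ t ∈ W, V ≤ ‖∑ n ∈ Icc 1 N, b n * ph t n‖) →
    (W.card : ℝ) * V ^ 2 ≤ C * (1 + Real.log (T + 1)) * (N : ℝ) ^ 2 := by
  obtain ⟨C, hC, herr⟩ := err
  refine ⟨169 + C, by positivity, ?_⟩
  intro N T V b W hN hT hTN hb hsep hW hV hVW
  have hN1 : (1 : ℝ) ≤ N := by exact_mod_cast hN
  have hN0 : (0 : ℝ) < N := by linarith
  have hl0 : 0 ≤ Real.log N := Real.log_nonneg hN1
  have hlT : 0 ≤ Real.log (T + 1) := Real.log_nonneg (by linarith)
  have h1 := dbl N hN T (by linarith) W hW hsep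
  have h2 := card_le_T' (by linarith) W hsep hW
  have h3 := herr N T hN hT hTN
  set Q : ℝ := ((Nat.log 2 N : ℝ) + 1) * (14 * Real.sqrt (T * (1 + Real.log N))) with hQ
  have hQ0 : 0 ≤ Q := by positivity
  have h4 : (W.card : ℝ) * Q ≤ C * N := by
    refine le_trans ?_ h3
    apply mul_le_mul_of_nonneg_right _ hQ0
    linarith
  have h5 := halasz N b hb W (V := V)
    (M := N + 168 * N * (1 + Real.log (T + 1)) + C * N) (by positivity) hV.le hVW (by
      refine h1.trans ?_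
      apply mul_le_mul_of_nonneg_left _ (Nat.cast_nonneg _)
      linarith)
  refine h5.trans ?_
  have h6 : (N : ℝ) + 168 * N * (1 + Real.log (T + 1)) + C * N ≤
      (169 + C) * (1 + Real.log (T + 1)) * N := by
    have : (0 : ℝ) ≤ (1 + C) * Real.log (T + 1) * N := by positivity
    nlinarith
  calc (N : ℝ) * (N + 168 * N * (1 + Real.log (T + 1)) + C * N)
      ≤ N * ((169 + C) * (1 + Real.log (T + 1)) * N) := mul_le_mul_of_nonneg_left h6 hN0.le
    _ = _ := by ring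

end Pool.Agent.N793.LV
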