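import Mathlib

set_option autoImplicit false

/-!
# Superadditivity of the maximal `q`-th moment, and weights
-/

namespace Pool.Agent.N793.LV.Sup

open Finset

/-- two points, `q ≥ 2` -/
theorem two_point {q : ℝ} (hq : 2 ≤ q) (z w : ℂ) :
    ‖z‖ ^ q + ‖w‖ ^ q ≤ (‖z + w‖ ^ q + ‖z - w‖ ^ q) / 2 := by
  have hq2 : 1 ≤ q / 2 := by linarith
  have hpw : ∀ x : ℝ, 0 ≤ x → x ^ q = (x ^ 2) ^ (q / 2) := by
    intro x hx
    rw [← Real.rpow_natCast x 2, ← Real.rpow_mul hx]
    congr 1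
    push_cast
    ring
  have hpar : (‖z + w‖ ^ 2 + ‖z - w‖ ^ 2) / 2 = ‖z‖ ^ 2 + ‖w‖ ^ 2 := by
    have := parallelogram_law_with_norm ℝ z w
    nlinarith [this]
  have h1 : (‖z‖ ^ 2) ^ (q / 2) + (‖w‖ ^ 2) ^ (q / 2) ≤ (‖z‖ ^ 2 + ‖w‖ ^ 2) ^ (q / 2) :=
    Real.add_rpow_le_rpow_add (by positivity) (by positivity) hq2
  have h2 : (1 / 2 * ‖z + w‖ ^ 2 + 1 / 2 * ‖z - w‖ ^ 2) ^ (q / 2) ≤
      1 / 2 * (‖z + w‖ ^ 2) ^ (q / 2) + 1 / 2 * (‖z - w‖ ^ 2) ^ (q / 2) := by
    have hx : ‖z + w‖ ^ 2 ∈ Set.Ici (0 : ℝ) := Set.mem_Ici.2 (by positivity)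
    have hy : ‖z - w‖ ^ 2 ∈ Set.Ici (0 : ℝ) := Set.mem_Ici.2 (by positivity)
    have h := (convexOn_rpow hq2).2 hx hy (show (0 : ℝ) ≤ 1 / 2 by norm_num)
      (show (0 : ℝ) ≤ 1 / 2 by norm_num) (by norm_num)
    simp only [smul_eq_mul] at h
    exact h
  rw [hpw _ (norm_nonneg z), hpw _ (norm_nonneg w), hpw _ (norm_nonneg (z + w)),
    hpw _ (norm_nonneg (z - w))]
  have h3 : 1 / 2 * ‖z + w‖ ^ 2 + 1 / 2 * ‖z - w‖ ^ 2 = ‖z‖ ^ 2 + ‖w‖ ^ 2 := by linarith
  rw [h3] at h2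
  linarith

/-- tangent inequality -/
theorem tangent {q : ℝ} (hq : 2 ≤ q) (a d : ℂ) :
    ‖a‖ ^ q - q * (‖a‖ ^ (q - 2) * (starRingEnd ℂ a * d).re) ≤ ‖a - d‖ ^ q := by
  rcases eq_or_ne a 0 with ha | ha
  · subst ha
    simp only [norm_zero, map_zero, zero_mul, Complex.zero_re, mul_zero, sub_zero, zero_sub,
      norm_neg]
    rw [Real.zero_rpow (by linarith)]
    positivity
  have hx : 0 < ‖a‖ := norm_pos_iff.2 ha
  set x := ‖a‖ with hxd
  set y := ‖a - d‖ with hyd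
  have hy : 0 ≤ y := norm_nonneg _
  -- `x y ≥ x ^ 2 - Re (conj a d)`
  have h1 : x ^ 2 - (starRingEnd ℂ a * d).re ≤ x * y := by
    have h2 : (starRingEnd ℂ a * (a - d)).re ≤ ‖starRingEnd ℂ a * (a - d)‖ := Complex.re_le_norm _
    rw [norm_mul, Complex.norm_conj] at h2
    have h3 : (starRingEnd ℂ a * (a - d)).re = x ^ 2 - (starRingEnd ℂ a * d).re := by
      rw [mul_sub, Complex.sub_re, ← Complex.normSq_eq_conj_mul_self, Complex.ofReal_re,
        Complex.normSq_eq_norm_sq]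
    rw [h3] at h2
    exact h2
  -- convexity
  have h4 : x ^ q + q * x ^ (q - 1) * (y - x) ≤ y ^ q := by
    have hs : -1 ≤ y / x - 1 := by
      have : 0 ≤ y / x := by positivity
      linarith
    have hb := one_add_mul_self_le_rpow_one_add hs (p := q) (by linarith)
    have h5 : (1 + (y / x - 1)) ^ q = y ^ q / x ^ q := by
      rw [add_sub_cancel, Real.div_rpow hy hx.le]
    rw [h5] at hb
    have hxq : 0 < x ^ q := Real.rpow_pos_of_pos hx _
    rw [le_div_iff₀ hxq] at hb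
    have h6 : x ^ (q - 1) = x ^ q / x := by
      rw [Real.rpow_sub hx, Real.rpow_one]
    rw [h6]
    calc x ^ q + q * (x ^ q / x) * (y - x) = (1 + q * (y / x - 1)) * x ^ q := by
          field_simp
      _ ≤ y ^ q := hb
  have h7 : x ^ (q - 1) = x ^ (q - 2) * x := by
    rw [← Real.rpow_add_one hx.ne']
    congr 1
    ring
  have h8 : 0 < x ^ (q - 2) := Real.rpow_pos_of_pos hx _
  rw [h7] at h4
  refine le_trans ?_ h4
  have h9 : x ^ (q - 2) * (-(starRingEnd ℂ a * d).re) ≤ x ^ (q - 2) * (x * (y - x)) := by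
    apply mul_le_mul_of_nonneg_left _ h8.le
    nlinarith [h1]
  have hq0 : 0 ≤ q := by linarith
  nlinarith [mul_le_mul_of_nonneg_left h9 hq0]

section

variable {τ : Type*} (W : Finset τ) (I : Finset ℕ) (e : τ → ℕ → ℂ)

/-- linear form -/
noncomputable def L (b : ℕ → ℂ) (t : τ) : ℂ := ∑ n ∈ I, b n * e t n

/-- the moment -/
noncomputable def Ph (q : ℝ) (b : ℕ → ℂ) : ℝ := ∑ t ∈ W, ‖L I e b t‖ ^ q

theorem L_add (f g : ℕ → ℂ) (t : τ) : L I e (f + g) t = L I e f t + L I e g t := by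
  unfold L
  rw [← sum_add_distrib]
  exact sum_congr rfl fun n _ => by simp only [Pi.add_apply]; ring

theorem L_sub (f g : ℕ → ℂ) (t : τ) : L I e (f - g) t = L I e f t - L I e g t := by
  unfold L
  rw [← sum_sub_distrib]
  exact sum_congr rfl fun n _ => by simp only [Pi.sub_apply]; ring

theorem Ph_nonneg (q : ℝ) (b : ℕ → ℂ) : 0 ≤ Ph W I e q b :=
  sum_nonneg fun _ _ => Real.rpow_nonneg (norm_nonneg _) _

/-- superadditivity -/
theorem super {q : ℝ} (hq : 2 ≤ q) (f g : ℕ → ℂ) :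
    Ph W I e q f + Ph W I e q g ≤ Ph W I e q (f + g) ∨
    Ph W I e q f + Ph W I e q g ≤ Ph W I e q (f - g) := by
  have h : Ph W I e q f + Ph W I e q g ≤ (Ph W I e q (f + g) + Ph W I e q (f - g)) / 2 := by
    unfold Ph
    rw [← sum_add_distrib, ← sum_add_distrib, sum_div]
    apply sum_le_sum
    intro t _
    rw [L_add, L_sub]
    exact two_point hq _ _
  by_contra hcon
  push Not at hcon
  linarith [hcon.1, hcon.2]

/-- there is a maximiser -/
theorem exists_max (q : ℝ) (hq : 0 ≤ q) : ∃ b : ℕ → ℂ, (∀ n, ‖b n‖ ≤ 1) ∧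
    ∀ f : ℕ → ℂ, (∀ n, ‖f n‖ ≤ 1) → Ph W I e q f ≤ Ph W I e q b := by
  have hc : IsCompact (Set.pi Set.univ fun _ : ℕ => Metric.closedBall (0 : ℂ) 1) :=
    isCompact_univ_pi fun _ => isCompact_closedBall _ _
  have hne : (Set.pi Set.univ fun _ : ℕ => Metric.closedBall (0 : ℂ) 1).Nonempty :=
    ⟨fun _ => 0, by intro n _; simp⟩
  have hcont : Continuous (Ph W I e q) := by
    unfold Ph L
    apply continuous_finsetSum
    intro t _
    apply Continuous.rpow_const
    · apply Continuous.norm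
      apply continuous_finsetSum
      intro n _
      exact (continuous_apply n).mul continuous_const
    · intro _
      right
      exact hq
  obtain ⟨b, hb, hmax⟩ := hc.exists_isMaxOn hne hcont.continuousOn
  refine ⟨b, fun n => by simpa using hb n (Set.mem_univ n), fun f hf => ?_⟩
  exact hmax (fun n _ => by simpa using hf n)

/-- the dual sum -/
noncomputable def dual (q : ℝ) (b : ℕ → ℂ) (n : ℕ) : ℂ :=
  ∑ t ∈ W, ((‖L I e b t‖ ^ (q - 2) : ℝ) : ℂ) * starRingEnd ℂ (L I e b t) * e t n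

theorem dual_sum {q : ℝ} (b g : ℕ → ℂ) :
    ∑ n ∈ I, g n * dual W I e q b n =
      ∑ t ∈ W, ((‖L I e b t‖ ^ (q - 2) : ℝ) : ℂ) * (starRingEnd ℂ (L I e b t) * L I e g t) := by
  unfold dual
  simp_rw [mul_sum]
  rw [sum_comm]
  apply sum_congr rfl
  intro t _
  have h : L I e g t = ∑ n ∈ I, g n * e t n := rfl
  rw [h, mul_sum, mul_sum]
  apply sum_congr rfl
  intro n _
  ring

theorem dual_self {q : ℝ} (hq : 2 ≤ q) (b : ℕ → ℂ) :
    ∑ n ∈ I, b n * dual W I e q b n = ((Ph W I e q b : ℝ) : ℂ) := by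
  rw [dual_sum]
  unfold Ph
  push_cast
  apply sum_congr rfl
  intro t _
  rw [← Complex.normSq_eq_conj_mul_self, Complex.normSq_eq_norm_sq]
  rcases eq_or_ne (L I e b t) 0 with h0 | h0
  · rw [h0]
    simp only [norm_zero]
    rw [Real.zero_rpow (by linarith : q ≠ 0)]
    simp
  · rw [← Complex.ofReal_mul]
    congr 1
    have hx : 0 < ‖L I e b t‖ := norm_pos_iff.2 h0
    rw [← Real.rpow_natCast ‖L I e b t‖ 2, ← Real.rpow_add hx]
    congr 1
    push_cast
    ring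

/-- lower bound for the moment of `(1 - h) b` -/
theorem lower {q : ℝ} (hq : 2 ≤ q) (b : ℕ → ℂ) (h : ℕ → ℝ) :
    Ph W I e q b - q * ∑ n ∈ I, h n * (b n * dual W I e q b n).re ≤
      Ph W I e q (fun n => ((1 - h n : ℝ) : ℂ) * b n) := by
  have h1 : ∑ n ∈ I, h n * (b n * dual W I e q b n).re =
      ∑ t ∈ W, ‖L I e b t‖ ^ (q - 2) *
        (starRingEnd ℂ (L I e b t) * L I e (fun n => (h n : ℂ) * b n) t).re := by
    have h2 := congrArg Complex.re (dual_sum W I e (q := q) b (fun n => (h n : ℂ) * b n))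
    rw [Complex.re_sum, Complex.re_sum] at h2
    calc ∑ n ∈ I, h n * (b n * dual W I e q b n).re
        = ∑ n ∈ I, ((h n : ℂ) * b n * dual W I e q b n).re := by
          apply sum_congr rfl
          intro n _
          rw [mul_assoc, Complex.re_ofReal_mul]
      _ = _ := by
          rw [h2]
          apply sum_congr rfl
          intro t _
          rw [Complex.re_ofReal_mul]
  rw [h1]
  unfold Ph
  rw [mul_sum, ← sum_sub_distrib]
  apply sum_le_sum
  intro t _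
  have h3 : L I e (fun n => ((1 - h n : ℝ) : ℂ) * b n) t =
      L I e b t - L I e (fun n => (h n : ℂ) * b n) t := by
    unfold L
    rw [← sum_sub_distrib]
    apply sum_congr rfl
    intro n _
    push_cast
    ring
  rw [h3]
  exact tangent hq _ _

/-- **weights** from a maximiser -/
theorem key {q : ℝ} (hq : 2 ≤ q) (b : ℕ → ℂ) (hb : ∀ n, ‖b n‖ ≤ 1)
    (hmax : ∀ f : ℕ → ℂ, (∀ n, ‖f n‖ ≤ 1) → Ph W I e q f ≤ Ph W I e q b)
    (f : ℕ → ℂ) (hf : ∀ n, ‖f n‖ ≤ 1) :
    Ph W I e q f ≤ q * ∑ n ∈ I, (b n * dual W I e q b n).re * ‖f n‖ := by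
  have h1 := lower W I e hq b (fun n => ‖f n‖)
  have hn : ∀ n, ‖((1 - ‖f n‖ : ℝ) : ℂ) * b n‖ ≤ 1 - ‖f n‖ := by
    intro n
    rw [norm_mul, Complex.norm_real, Real.norm_of_nonneg (by linarith [hf n])]
    exact mul_le_of_le_one_right (by linarith [hf n]) (hb n)
  have h2 : Ph W I e q (fun n => ((1 - ‖f n‖ : ℝ) : ℂ) * b n) + Ph W I e q f ≤ Ph W I e q b := by
    rcases super W I e hq (fun n => ((1 - ‖f n‖ : ℝ) : ℂ) * b n) f with h | h
    · refine h.trans (hmax _ fun n => ?_)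
      refine (norm_add_le _ _).trans ?_
      linarith [hn n]
    · refine h.trans (hmax _ fun n => ?_)
      refine (norm_sub_le _ _).trans ?_
      linarith [hn n]
  have h3 : ∑ n ∈ I, ‖f n‖ * (b n * dual W I e q b n).re =
      ∑ n ∈ I, (b n * dual W I e q b n).re * ‖f n‖ :=
    sum_congr rfl fun n _ => mul_comm _ _
  rw [h3] at h1
  linarith

theorem key_nonneg {q : ℝ} (hq : 2 ≤ q) (b : ℕ → ℂ) (hb : ∀ n, ‖b n‖ ≤ 1)
    (hmax : ∀ f : ℕ → ℂ, (∀ n, ‖f n‖ ≤ 1) → Ph W I e q f ≤ Ph W I e q b) {m : ℕ} (hm : m ∈ I) :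
    0 ≤ (b m * dual W I e q b m).re := by
  have h := key W I e hq b hb hmax (fun n => if n = m then 1 else 0) (by
    intro n
    split_ifs <;> simp)
  have h1 : ∑ n ∈ I, (b n * dual W I e q b n).re * ‖(if n = m then (1 : ℂ) else 0)‖ =
      (b m * dual W I e q b m).re := by
    rw [sum_eq_single_of_mem m hm]
    · simp
    · intro n _ hne
      rw [if_neg hne]
      simp
  rw [h1] at h
  have h2 := Ph_nonneg W I e q (fun n => if n = m then 1 else 0)
  nlinarith

/-- **weights** -/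
theorem weights (hI : I.Nonempty) {q M : ℝ} (hq : 2 ≤ q)
    (hM : ∀ f : ℕ → ℂ, (∀ n, ‖f n‖ ≤ 1) → Ph W I e q f ≤ M) :
    ∃ w : ℕ → ℝ, (∀ n, 0 ≤ w n) ∧ ∑ n ∈ I, w n = 1 ∧
      ∀ f : ℕ → ℂ, (∀ n, ‖f n‖ ≤ 1) → Ph W I e q f ≤ q * M * ∑ n ∈ I, w n * ‖f n‖ := by
  obtain ⟨b, hb, hmax⟩ := exists_max W I e q (by linarith)
  have h0 := Ph_nonneg W I e q b
  have hM0 : 0 ≤ M := h0.trans (hM b hb)
  rcases h0.eq_or_lt with h0 | h0
  · refine ⟨fun _ => 1 / I.card, fun n => by positivity, ?_, ?_⟩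
    · rw [sum_const, nsmul_eq_mul]
      have : (0 : ℝ) < I.card := by exact_mod_cast hI.card_pos
      field_simp
    · intro f hf
      refine (hmax f hf).trans ?_
      rw [← h0]
      have : 0 ≤ ∑ n ∈ I, (1 / (I.card : ℝ)) * ‖f n‖ := sum_nonneg fun _ _ => by positivity
      have hq0 : 0 ≤ q := by linarith
      positivity
  · refine ⟨fun n => if n ∈ I then (b n * dual W I e q b n).re / Ph W I e q b else 0, ?_, ?_, ?_⟩
    · intro n
      beta_reduce
      split_ifs with h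
      · exact div_nonneg (key_nonneg W I e hq b hb hmax h) h0.le
      · exact le_rfl
    · rw [sum_congr rfl (g := fun n => (b n * dual W I e q b n).re / Ph W I e q b)
        (fun n hn => by beta_reduce; rw [if_pos hn]), ← sum_div, div_eq_one_iff_eq h0.ne']
      have h1 := congrArg Complex.re (dual_self W I e hq b)
      rw [Complex.re_sum, Complex.ofReal_re] at h1
      exact h1
    · intro f hf
      refine (key W I e hq b hb hmax f hf).trans ?_
      have h1 : ∑ n ∈ I, (if n ∈ I then (b n * dual W I e q b n).re / Ph W I e q b else 0) * ‖f n‖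
          = (∑ n ∈ I, (b n * dual W I e q b n).re * ‖f n‖) / Ph W I e q b := by
        rw [sum_div]
        apply sum_congr rfl
        intro n hn
        rw [if_pos hn]
        ring
      rw [h1]
      have h2 : 0 ≤ ∑ n ∈ I, (b n * dual W I e q b n).re * ‖f n‖ :=
        sum_nonneg fun n hn => mul_nonneg (key_nonneg W I e hq b hb hmax hn) (norm_nonneg _)
      have h3 : Ph W I e q b ≤ M := hM b hb
      calc q * ∑ n ∈ I, (b n * dual W I e q b n).re * ‖f n‖
          = q * (Ph W I e q b * ((∑ n ∈ I, (b n * dual W I e q b n).re * ‖f n‖) /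
              Ph W I e q b)) := by
            field_simp
        _ ≤ q * (M * ((∑ n ∈ I, (b n * dual W I e q b n).re * ‖f n‖) / Ph W I e q b)) := by
            apply mul_le_mul_of_nonneg_left _ (by linarith)
            exact mul_le_mul_of_nonneg_right h3 (by positivity)
        _ = _ := by ring

end

end Pool.Agent.N793.LV.Sup
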