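import Pool.Agent.N793.LV.Sup

set_option autoImplicit false

/-!
# Deletion and iteration for the maximal `q`-th moment
-/

namespace Pool.Agent.N793.LV.Sup

open Finset

variable {τ : Type*} (W : Finset τ) (I : Finset ℕ) (e : τ → ℕ → ℂ)

theorem L_sub_set (S : Finset ℕ) (hS : S ⊆ I) (b : ℕ → ℂ) (hb : ∀ n, n ∉ S → b n = 0) (t : τ) :
    L I e b t = L S e b t := by
  unfold L
  symm
  apply sum_subset hS
  intro n _ hn
  rw [hb n hn, zero_mul]

theorem L_congr (S : Finset ℕ) (b b' : ℕ → ℂ) (h : ∀ n ∈ S, b n = b' n) (t : τ) :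
    L S e b t = L S e b' t := by
  unfold L
  exact sum_congr rfl fun n hn => by rw [h n hn]

theorem Ph_sub_set (S : Finset ℕ) (hS : S ⊆ I) (q : ℝ) (b : ℕ → ℂ) (hb : ∀ n, n ∉ S → b n = 0) :
    Ph W I e q b = Ph W S e q b := by
  unfold Ph
  exact sum_congr rfl fun t _ => by rw [L_sub_set I e S hS b hb t]

theorem Ph_congr (S : Finset ℕ) (q : ℝ) (b b' : ℕ → ℂ) (h : ∀ n ∈ S, b n = b' n) :
    Ph W S e q b = Ph W S e q b' := by
  unfold Ph
  exact sum_congr rfl fun t _ => by rw [L_congr e S b b' h t]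

/-- bound on `S` from the bound on `I` -/
theorem Ph_S_le (S : Finset ℕ) (hS : S ⊆ I) {q M : ℝ}
    (hM : ∀ f : ℕ → ℂ, (∀ n, ‖f n‖ ≤ 1) → Ph W I e q f ≤ M) (f : ℕ → ℂ) (hf : ∀ n, ‖f n‖ ≤ 1) :
    Ph W S e q f ≤ M := by
  classical
  have h := hM (fun n => if n ∈ S then f n else 0) (by
    intro n
    split_ifs
    · exact hf n
    · simp)
  rw [Ph_sub_set W I e S hS q _ (fun n hn => by simp [hn])] at h
  rw [Ph_congr W e S q f (fun n => if n ∈ S then f n else 0) (fun n hn => by simp [hn])]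
  exact h

/-- **deletion** -/
theorem del (S : Finset ℕ) (hS : S ⊆ I) (hne : S.Nonempty) {q M η : ℝ} (hq : 2 ≤ q) (hη : 0 < η)
    (hM : ∀ f : ℕ → ℂ, (∀ n, ‖f n‖ ≤ 1) → Ph W I e q f ≤ M) :
    ∃ G ⊆ S, ((S \ G).card : ℝ) ≤ η * S.card ∧
      ∀ f : ℕ → ℂ, (∀ n, ‖f n‖ ≤ 1) → (∀ n, n ∉ G → f n = 0) →
        Ph W I e q f ≤ q * M * (∑ n ∈ G, ‖f n‖) / (η * S.card) := by
  classical
  have hM0 : 0 ≤ M := (Ph_nonneg W I e q _).trans (hM (fun _ => 0) (fun _ => by simp))
  have hSp : (0 : ℝ) < S.card := by exact_mod_cast hne.card_pos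
  have hq0 : 0 ≤ q := by linarith
  obtain ⟨w, hw0, hw1, hw⟩ := weights W S e hne hq (Ph_S_le W I e S hS hM)
  set G := S.filter (fun n => w n ≤ 1 / (η * S.card)) with hG
  have hGS : G ⊆ S := filter_subset _ _
  refine ⟨G, hGS, ?_, ?_⟩
  · have h1 : ((S \ G).card : ℝ) * (1 / (η * S.card)) ≤ 1 := by
      calc ((S \ G).card : ℝ) * (1 / (η * S.card)) = ∑ n ∈ S \ G, 1 / (η * S.card) := by
            rw [sum_const, nsmul_eq_mul]
        _ ≤ ∑ n ∈ S \ G, w n := by
            apply sum_le_sum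
            intro n hn
            rw [mem_sdiff, hG, mem_filter] at hn
            push Not at hn
            exact (hn.2 hn.1).le
        _ ≤ ∑ n ∈ S, w n := sum_le_sum_of_subset_of_nonneg sdiff_subset (fun n _ _ => hw0 n)
        _ = 1 := hw1
    rw [mul_one_div, div_le_one (by positivity)] at h1
    exact h1
  · intro f hf hfG
    rw [Ph_sub_set W I e S hS q f (fun n hn => hfG n (fun h => hn (hGS h)))]
    refine (hw f hf).trans ?_
    have h1 : ∑ n ∈ S, w n * ‖f n‖ = ∑ n ∈ G, w n * ‖f n‖ := by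
      symm
      apply sum_subset hGS
      intro n _ hn
      rw [hfG n hn]
      simp
    rw [h1, mul_div_assoc]
    apply mul_le_mul_of_nonneg_left _ (by positivity)
    rw [sum_div]
    apply sum_le_sum
    intro n hn
    have hn' : w n ≤ 1 / (η * S.card) := (mem_filter.1 hn).2
    calc w n * ‖f n‖ ≤ 1 / (η * S.card) * ‖f n‖ := mul_le_mul_of_nonneg_right hn' (norm_nonneg _)
      _ = _ := by ring

theorem L_finsum {m : ℕ} (g : Fin m → ℕ → ℂ) (t : τ) :
    L I e (fun n => ∑ i, g i n) t = ∑ i, L I e (g i) t := by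
  unfold L
  rw [sum_comm]
  exact sum_congr rfl fun n _ => by rw [sum_mul]

theorem Ph_finsum {m : ℕ} {q B : ℝ} (hq : 2 ≤ q) (g : Fin m → ℕ → ℂ)
    (hg : ∀ i, Ph W I e q (g i) ≤ B) : Ph W I e q (fun n => ∑ i, g i n) ≤ (m : ℝ) ^ q * B := by
  rcases Nat.eq_zero_or_pos m with hm | hm
  · subst hm
    unfold Ph
    rw [Nat.cast_zero, Real.zero_rpow (by linarith : q ≠ 0), zero_mul]
    apply le_of_eq
    apply sum_eq_zero
    intro t _
    rw [L_finsum]
    simp [Real.zero_rpow (by linarith : q ≠ 0)]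
  have hm' : (0 : ℝ) < m := by exact_mod_cast hm
  have h1 : Ph W I e q (fun n => ∑ i, g i n) ≤ (m : ℝ) ^ (q - 1) * ∑ i, Ph W I e q (g i) := by
    unfold Ph
    rw [sum_comm, mul_sum]
    apply sum_le_sum
    intro t _
    rw [L_finsum]
    have h2 := Real.rpow_sum_le_const_mul_sum_rpow (univ : Finset (Fin m))
      (fun i => ‖L I e (g i) t‖) (p := q) (by linarith)
    simp only [abs_norm, card_univ, Fintype.card_fin] at h2
    refine le_trans ?_ h2
    exact Real.rpow_le_rpow (norm_nonneg _) (norm_sum_le _ _) (by linarith)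
  refine h1.trans ?_
  calc (m : ℝ) ^ (q - 1) * ∑ i, Ph W I e q (g i) ≤ (m : ℝ) ^ (q - 1) * ∑ _i : Fin m, B := by
        apply mul_le_mul_of_nonneg_left _ (by positivity)
        exact sum_le_sum fun i _ => hg i
    _ = (m : ℝ) ^ q * B := by
        rw [sum_const, card_univ, Fintype.card_fin, nsmul_eq_mul, ← mul_assoc,
          ← Real.rpow_add_one hm'.ne']
        congr 2
        ring

/-- **iteration** -/
theorem iter {q B η : ℝ} (hq : 2 ≤ q) (hB : 0 ≤ B)
    (hdel : ∀ S ⊆ I, S.Nonempty → ∃ G ⊆ S, η * S.card ≤ G.card ∧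
      ∀ f : ℕ → ℂ, (∀ n, ‖f n‖ ≤ 1) → (∀ n, n ∉ G → f n = 0) → Ph W I e q f ≤ B) :
    ∀ (m : ℕ) (S : Finset ℕ), S ⊆ I → (S.card : ℝ) * (1 - η) ^ m < 1 → ∀ f : ℕ → ℂ,
      (∀ n, ‖f n‖ ≤ 1) → (∀ n, n ∉ S → f n = 0) →
      ∃ g : Fin m → ℕ → ℂ, (∀ i, Ph W I e q (g i) ≤ B) ∧ ∀ n, f n = ∑ i, g i n := by
  classical
  intro m
  induction m with
  | zero =>
    intro S _ hc f _ hfS
    rw [pow_zero, mul_one] at hc
    have : S = ∅ := by
      rw [← card_eq_zero]
      have : S.card < 1 := by exact_mod_cast hc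
      omega
    refine ⟨fun i => i.elim0, fun i => i.elim0, fun n => ?_⟩
    rw [hfS n (by rw [this]; simp)]
    simp
  | succ m ih =>
    intro S hS hc f hf hfS
    rcases S.eq_empty_or_nonempty with h0 | hne
    · refine ⟨fun _ _ => 0, fun _ => ?_, fun n => ?_⟩
      · unfold Ph L
        simp [Real.zero_rpow (by linarith : q ≠ 0), hB]
      · rw [hfS n (by rw [h0]; simp)]
        simp
    obtain ⟨G, hGS, hGc, hG⟩ := hdel S hS hne
    have hcard : ((S \ G).card : ℝ) ≤ (1 - η) * S.card := by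
      rw [card_sdiff_of_subset hGS, Nat.cast_sub (card_le_card hGS)]
      linarith
    have hη1 : 0 ≤ 1 - η := by
      have : (0 : ℝ) < S.card := by exact_mod_cast hne.card_pos
      have h2 : η * S.card ≤ 1 * S.card := by
        rw [one_mul]
        exact hGc.trans (by exact_mod_cast card_le_card hGS)
      have := le_of_mul_le_mul_right h2 this
      linarith
    obtain ⟨g, hg, hsum⟩ := ih (S \ G) (sdiff_subset.trans hS) (by
      refine lt_of_le_of_lt ?_ hc
      calc ((S \ G).card : ℝ) * (1 - η) ^ m ≤ (1 - η) * S.card * (1 - η) ^ m :=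
            mul_le_mul_of_nonneg_right hcard (by positivity)
        _ = _ := by ring) (fun n => if n ∈ G then 0 else f n) (by
        intro n
        split_ifs
        · simp
        · exact hf n) (by
        intro n hn
        split_ifs with h
        · rfl
        · exact hfS n (fun h' => hn (mem_sdiff.2 ⟨h', h⟩)))
    refine ⟨Fin.cons (fun n => if n ∈ G then f n else 0) g, ?_, ?_⟩
    · intro i
      refine Fin.cases ?_ ?_ i
      · rw [Fin.cons_zero]
        apply hG
        · intro n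
          split_ifs
          · exact hf n
          · simp
        · intro n hn
          rw [if_neg hn]
      · intro j
        rw [Fin.cons_succ]
        exact hg j
    · intro n
      rw [Fin.sum_univ_succ]
      simp only [Fin.cons_zero, Fin.cons_succ]
      rw [← hsum n]
      split_ifs <;> simp

end Pool.Agent.N793.LV.Sup
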