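import Pool.Agent.N793.LV.SupDel

set_option autoImplicit false

/-!
# From sums over sets to arbitrary coefficients
-/

namespace Pool.Agent.N793.LV.Sup

open Finset

variable {τ : Type*} (W : Finset τ) (I : Finset ℕ) (e : τ → ℕ → ℂ)

theorem Ph_convex {q : ℝ} (hq : 1 ≤ q) (f g : ℕ → ℂ) {x : ℝ} (hx0 : 0 ≤ x) (hx1 : x ≤ 1) :
    Ph W I e q (fun n => ((1 - x : ℝ) : ℂ) * f n + (x : ℂ) * g n) ≤
      (1 - x) * Ph W I e q f + x * Ph W I e q g := by
  unfold Ph
  rw [mul_sum, mul_sum, ← sum_add_distrib]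
  apply sum_le_sum
  intro t _
  have h1 : L I e (fun n => ((1 - x : ℝ) : ℂ) * f n + (x : ℂ) * g n) t =
      ((1 - x : ℝ) : ℂ) * L I e f t + (x : ℂ) * L I e g t := by
    unfold L
    rw [mul_sum, mul_sum, ← sum_add_distrib]
    exact sum_congr rfl fun n _ => by ring
  rw [h1]
  have h2 : ‖((1 - x : ℝ) : ℂ) * L I e f t + (x : ℂ) * L I e g t‖ ≤
      (1 - x) * ‖L I e f t‖ + x * ‖L I e g t‖ := by
    refine (norm_add_le _ _).trans ?_
    rw [norm_mul, norm_mul, Complex.norm_real, Complex.norm_real, Real.norm_of_nonneg hx0,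
      Real.norm_of_nonneg (by linarith)]
  refine (Real.rpow_le_rpow (norm_nonneg _) h2 (by linarith)).trans ?_
  have ha : ‖L I e f t‖ ∈ Set.Ici (0 : ℝ) := Set.mem_Ici.2 (norm_nonneg _)
  have hb : ‖L I e g t‖ ∈ Set.Ici (0 : ℝ) := Set.mem_Ici.2 (norm_nonneg _)
  have h := (convexOn_rpow hq).2 ha hb (show (0 : ℝ) ≤ 1 - x by linarith) hx0 (by ring)
  simp only [smul_eq_mul] at h
  exact h

open Classical in
theorem vertex {q : ℝ} (hq : 1 ≤ q) (S : Finset ℕ) {B : ℝ}
    (hR : ∀ R ⊆ S, Ph W I e q (fun n => if n ∈ R then 1 else 0) ≤ B) :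
    ∀ U : Finset ℕ, U ⊆ S → ∀ b : ℕ → ℝ, (∀ n, 0 ≤ b n ∧ b n ≤ 1) → (∀ n, n ∉ S → b n = 0) →
      (∀ n, n ∉ U → b n = 0 ∨ b n = 1) → Ph W I e q (fun n => ((b n : ℝ) : ℂ)) ≤ B := by
  intro U
  induction U using Finset.induction_on with
  | empty =>
    intro _ b _ hbS hU
    have h1 : (fun n => ((b n : ℝ) : ℂ)) = fun n => if n ∈ S.filter (fun n => b n = 1) then 1 else 0 := by
      funext n
      rcases hU n (by simp) with h | h
      · rw [if_neg, h]
        · simp
        · rw [mem_filter]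
          rintro ⟨_, h'⟩
          rw [h] at h'
          norm_num at h'
      · rw [if_pos, h]
        · simp
        · rw [mem_filter]
          refine ⟨?_, h⟩
          by_contra hn
          rw [hbS n hn] at h
          norm_num at h
    rw [h1]
    exact hR _ (filter_subset _ _)
  | insert m U hm ih =>
    intro hUS b hb hbS hU
    have hU' : U ⊆ S := (subset_insert m U).trans hUS
    have hmS : m ∈ S := hUS (mem_insert_self m U)
    have key : ∀ y : ℝ, (y = 0 ∨ y = 1) →
        Ph W I e q (fun n => ((Function.update b m y n : ℝ) : ℂ)) ≤ B := by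
      intro y hy
      have hy01 : 0 ≤ y ∧ y ≤ 1 := by rcases hy with rfl | rfl <;> norm_num
      apply ih hU'
      · intro n
        rcases eq_or_ne n m with rfl | hne
        · rw [Function.update_self]
          exact hy01
        · rw [Function.update_of_ne hne]
          exact hb n
      · intro n hn
        have hne : n ≠ m := fun h => hn (h ▸ hmS)
        rw [Function.update_of_ne hne]
        exact hbS n hn
      · intro n hn
        rcases eq_or_ne n m with rfl | hne
        · rw [Function.update_self]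
          exact hy
        · rw [Function.update_of_ne hne]
          exact hU n (by simp [hne, hn])
    have h1 : (fun n => ((b n : ℝ) : ℂ)) =
        fun n => ((1 - b m : ℝ) : ℂ) * ((Function.update b m 0 n : ℝ) : ℂ) +
          ((b m : ℝ) : ℂ) * ((Function.update b m 1 n : ℝ) : ℂ) := by
      funext n
      rcases eq_or_ne n m with rfl | hne
      · rw [Function.update_self, Function.update_self]
        push_cast
        ring
      · rw [Function.update_of_ne hne, Function.update_of_ne hne]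
        push_cast
        ring
    rw [h1]
    refine (Ph_convex W I e hq _ _ (hb m).1 (hb m).2).trans ?_
    have h2 := key 0 (Or.inl rfl)
    have h3 := key 1 (Or.inr rfl)
    have h4 := (hb m).1
    have h5 : 0 ≤ 1 - b m := by linarith [(hb m).2]
    calc (1 - b m) * Ph W I e q (fun n => ((Function.update b m 0 n : ℝ) : ℂ)) +
          b m * Ph W I e q (fun n => ((Function.update b m 1 n : ℝ) : ℂ))
        ≤ (1 - b m) * B + b m * B := by
          apply add_le_add
          · exact mul_le_mul_of_nonneg_left h2 h5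
          · exact mul_le_mul_of_nonneg_left h3 h4
      _ = B := by ring

theorem Ph_unit (q : ℝ) (c : ℂ) (hc : ‖c‖ = 1) (f : ℕ → ℂ) :
    Ph W I e q (fun n => c * f n) = Ph W I e q f := by
  unfold Ph
  apply sum_congr rfl
  intro t _
  have h1 : L I e (fun n => c * f n) t = c * L I e f t := by
    unfold L
    rw [mul_sum]
    exact sum_congr rfl fun n _ => by ring
  rw [h1, norm_mul, hc, one_mul]

open Classical in
/-- from sums over sets to arbitrary coefficients -/
theorem of_sets {q : ℝ} (hq : 2 ≤ q) (S : Finset ℕ) {B : ℝ}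
    (hR : ∀ R ⊆ S, Ph W I e q (fun n => if n ∈ R then 1 else 0) ≤ B)
    (f : ℕ → ℂ) (hf : ∀ n, ‖f n‖ ≤ 1) (hfS : ∀ n, n ∉ S → f n = 0) :
    Ph W I e q f ≤ (4 : ℝ) ^ q * B := by
  have hv : ∀ b : ℕ → ℝ, (∀ n, 0 ≤ b n ∧ b n ≤ 1) → (∀ n, n ∉ S → b n = 0) →
      Ph W I e q (fun n => ((b n : ℝ) : ℂ)) ≤ B := by
    intro b hb hbS
    exact vertex W I e (by linarith) S hR S (Subset.refl _) b hb hbS
      (fun n hn => Or.inl (hbS n hn))
  have hre : ∀ n, |(f n).re| ≤ 1 := fun n => (Complex.abs_re_le_norm _).trans (hf n)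
  have him : ∀ n, |(f n).im| ≤ 1 := fun n => (Complex.abs_im_le_norm _).trans (hf n)
  have h01 : ∀ x : ℝ, |x| ≤ 1 → 0 ≤ max x 0 ∧ max x 0 ≤ 1 := by
    intro x hx
    exact ⟨le_max_right _ _, max_le (abs_le.1 hx).2 (by norm_num)⟩
  have hdec : f = fun n => ∑ i : Fin 4,
      (![fun n => (1 : ℂ) * ((max (f n).re 0 : ℝ) : ℂ), fun n => (-1 : ℂ) * ((max (-(f n).re) 0 : ℝ) : ℂ),
        fun n => Complex.I * ((max (f n).im 0 : ℝ) : ℂ),
        fun n => (-Complex.I) * ((max (-(f n).im) 0 : ℝ) : ℂ)] : Fin 4 → ℕ → ℂ) i n := by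
    funext n
    have hmax : ∀ x : ℝ, x = max x 0 - max (-x) 0 := by
      intro x
      rcases le_total x 0 with h | h
      · rw [max_eq_right h, max_eq_left (by linarith)]
        ring
      · rw [max_eq_left h, max_eq_right (by linarith)]
        ring
    simp only [Fin.sum_univ_four, Matrix.cons_val_zero, Matrix.cons_val_one, Matrix.cons_val]
    apply Complex.ext
    · simp
      exact hmax _
    · simp
      exact hmax _
  have h4 := Ph_finsum W I e hq (m := 4) (B := B)
    (![fun n => (1 : ℂ) * ((max (f n).re 0 : ℝ) : ℂ), fun n => (-1 : ℂ) * ((max (-(f n).re) 0 : ℝ) : ℂ),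
        fun n => Complex.I * ((max (f n).im 0 : ℝ) : ℂ),
        fun n => (-Complex.I) * ((max (-(f n).im) 0 : ℝ) : ℂ)] : Fin 4 → ℕ → ℂ) (by
      intro i
      fin_cases i
      · show Ph W I e q (fun n => (1 : ℂ) * ((max (f n).re 0 : ℝ) : ℂ)) ≤ B
        rw [Ph_unit W I e q 1 (by simp)]
        exact hv _ (fun n => h01 _ (hre n)) (fun n hn => by simp [hfS n hn])
      · show Ph W I e q (fun n => (-1 : ℂ) * ((max (-(f n).re) 0 : ℝ) : ℂ)) ≤ B
        rw [Ph_unit W I e q (-1) (by simp)]
        exact hv _ (fun n => h01 _ (by rw [abs_neg]; exact hre n)) (fun n hn => by simp [hfS n hn])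
      · show Ph W I e q (fun n => Complex.I * ((max (f n).im 0 : ℝ) : ℂ)) ≤ B
        rw [Ph_unit W I e q Complex.I (by simp)]
        exact hv _ (fun n => h01 _ (him n)) (fun n hn => by simp [hfS n hn])
      · show Ph W I e q (fun n => (-Complex.I) * ((max (-(f n).im) 0 : ℝ) : ℂ)) ≤ B
        rw [Ph_unit W I e q (-Complex.I) (by simp)]
        exact hv _ (fun n => h01 _ (by rw [abs_neg]; exact him n)) (fun n hn => by simp [hfS n hn]))
  rw [← hdec] at h4
  exact_mod_cast h4

end Pool.Agent.N793.LV.Sup
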