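import Pool.Agent.N793.LV.Greedy

set_option autoImplicit false
set_option linter.dupNamespace false

/-!
# Sets of integers, and the transfer of power bounds from one threshold to the larger ones
-/

namespace Pool.Agent.N793.LV

open Finset

/-- `D(t) = ∑_{n=N}^{2N} b_n n^{it}` -/
noncomputable def D (N : ℕ) (b : ℕ → ℂ) (t : ℝ) : ℂ :=
  ∑ n ∈ Icc N (2 * N), b n * Complex.exp (Complex.I * (t : ℂ) * (Real.log (n : ℝ) : ℂ))

theorem D_eq (N : ℕ) (b : ℕ → ℂ) (t : ℝ) :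
    D N b t = F (Icc N (2 * N)) (fun n => Real.log (n : ℝ)) b t := rfl

theorem log_card (N : ℕ) (hN : 1 ≤ N) :
    Real.log (16 * ((Icc N (2 * N)).card : ℝ)) ≤ 4 * (1 + Real.log N) := by
  have h1 : (Icc N (2 * N)).card = N + 1 := by
    rw [Nat.card_Icc]; omega
  rw [h1]
  have hN1 : (1 : ℝ) ≤ N := by exact_mod_cast hN
  have h2 : (16 * ((N + 1 : ℕ) : ℝ)) ≤ 32 * N := by push_cast; linarith
  have h3 : Real.log (16 * ((N + 1 : ℕ) : ℝ)) ≤ Real.log (32 * N) :=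
    Real.log_le_log (by positivity) h2
  have h4 : Real.log (32 * N) = 5 * Real.log 2 + Real.log N := by
    rw [Real.log_mul (by norm_num) (by positivity)]
    have : (32 : ℝ) = 2 ^ 5 := by norm_num
    rw [this, Real.log_pow]
    norm_num
  have h5 := Real.log_two_lt_d9
  have h6 := Real.log_nonneg hN1
  linarith

/-- the monotonicity for sets of integers -/
theorem mono_int (N : ℕ) (hN : 1 ≤ N) (b : ℕ → ℂ) {T V V' : ℝ} (hT : 0 ≤ T)
    (hb : ∀ n ∈ Icc N (2 * N), ‖b n‖ ≤ 1) (hV' : 0 < V') (hVV' : V' ≤ V)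
    (W : Finset ℤ) (hW : ∀ t ∈ W, 0 ≤ (t : ℝ) ∧ (t : ℝ) ≤ T) (hV : ∀ t ∈ W, V ≤ ‖D N b t‖) :
    ∃ (b' : ℕ → ℂ) (W' : Finset ℤ), (∀ n ∈ Icc N (2 * N), ‖b' n‖ ≤ 1) ∧
      (∀ t ∈ W', 0 ≤ (t : ℝ) ∧ (t : ℝ) ≤ T) ∧ (∀ t ∈ W', V' ≤ ‖D N b' t‖) ∧
      min ((V / V') ^ 2 * W.card / (1 + Real.log N)) T ≤ 512 * W'.card := by
  classical
  have hinj : Function.Injective (fun t : ℤ => (t : ℝ)) := Int.cast_injective
  have hI : (Icc N (2 * N)).Nonempty := ⟨N, mem_Icc.2 ⟨le_rfl, by omega⟩⟩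
  obtain ⟨b', W', h1, h2, h3, h4, h5, h6⟩ := mono (Icc N (2 * N)) (fun n => Real.log (n : ℝ)) b hT
    hI hb hV' hVV' (W.image (fun t : ℤ => (t : ℝ))) (by
      intro t ht u hu htu
      rw [mem_image] at ht hu
      obtain ⟨z, hz, rfl⟩ := ht
      obtain ⟨w, hw, rfl⟩ := hu
      have hzw : z - w ≠ 0 := by
        intro h
        apply htu
        have : z = w := by omega
        rw [this]
      have := Int.one_le_abs hzw
      rw [← Int.cast_sub, ← Int.cast_abs]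
      exact_mod_cast this) (by
      intro t ht
      rw [mem_image] at ht
      obtain ⟨z, hz, rfl⟩ := ht
      exact hW z hz) (by
      intro t ht
      rw [mem_image] at ht
      obtain ⟨z, hz, rfl⟩ := ht
      exact hV z hz)
  have h7 := h6 (by
    intro t ht
    rw [mem_image] at ht
    obtain ⟨z, hz, rfl⟩ := ht
    exact ⟨z, rfl⟩)
  have hfl : ∀ t ∈ W', ((⌊t⌋ : ℤ) : ℝ) = t := by
    intro t ht
    obtain ⟨k, hk⟩ := h7 t ht
    rw [hk, Int.floor_intCast]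
  refine ⟨b', W'.image (fun t => ⌊t⌋), h1, ?_, ?_, ?_⟩
  · intro t ht
    rw [mem_image] at ht
    obtain ⟨x, hx, rfl⟩ := ht
    rw [hfl x hx]
    exact h3 x hx
  · intro t ht
    rw [mem_image] at ht
    obtain ⟨x, hx, rfl⟩ := ht
    rw [hfl x hx]
    exact h4 x hx
  · have h8 : (W'.image (fun t => ⌊t⌋)).card = W'.card := by
      apply card_image_of_injOn
      intro x hx y hy hxy
      have e1 := hfl x (mem_coe.1 hx)
      have e2 := hfl y (mem_coe.1 hy)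
      simp only at hxy
      rw [← e1, ← e2, hxy]
    rw [h8]
    rw [card_image_of_injective _ hinj] at h5
    have hN1 : (1 : ℝ) ≤ N := by exact_mod_cast hN
    have hl := Real.log_nonneg hN1
    have hc := log_card N hN
    have hI0 : (1 : ℝ) ≤ (Icc N (2 * N)).card := by exact_mod_cast hI.card_pos
    have hL : 0 < Real.log (16 * ((Icc N (2 * N)).card : ℝ)) := Real.log_pos (by linarith)
    have hV0 : 0 < V := by linarith
    have hx : 0 ≤ (V / V') ^ 2 * W.card := by positivity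
    rcases min_le_iff.1 h5 with h9 | h9
    · refine (min_le_left _ _).trans ?_
      rw [div_le_iff₀ hL] at h9
      rw [div_le_iff₀ (by linarith)]
      have hW0 : (0 : ℝ) ≤ W'.card := Nat.cast_nonneg _
      nlinarith
    · refine (min_le_right _ _).trans ?_
      have hW0 : (0 : ℝ) ≤ W'.card := Nat.cast_nonneg _
      linarith

/-- a power bound for the number of the large values at the threshold `N ^ σ`, for `T ≤ N ^ A` -/
def Bd (A σ : ℝ) (f : ℝ → ℝ) : Prop :=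
  ∃ C : ℝ, ∀ (N : ℕ) (T : ℝ) (b : ℕ → ℂ) (W : Finset ℤ), 1 ≤ N → (N : ℝ) ≤ T → T ≤ (N : ℝ) ^ A →
    (∀ n ∈ Icc N (2 * N), ‖b n‖ ≤ 1) →
    (∀ t ∈ W, 0 ≤ (t : ℝ) ∧ (t : ℝ) ≤ T ∧ (N : ℝ) ^ σ < ‖D N b t‖) →
    (W.card : ℝ) ≤ C * f N

theorem card_le_T {T : ℝ} (W : Finset ℤ) (hW : ∀ t ∈ W, 0 ≤ (t : ℝ) ∧ (t : ℝ) ≤ T) (hT : 0 ≤ T) :
    (W.card : ℝ) ≤ T + 1 := by
  have h1 : W ⊆ Icc 0 ⌊T⌋ := by
    intro t ht
    rw [mem_Icc]
    obtain ⟨h1, h2⟩ := hW t ht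
    exact ⟨by exact_mod_cast h1, Int.le_floor.2 h2⟩
  have h2 := card_le_card h1
  rw [Int.card_Icc] at h2
  have h3 : (0 : ℤ) ≤ ⌊T⌋ := Int.floor_nonneg.2 hT
  have h4 : ((⌊T⌋ + 1 - 0).toNat : ℝ) = ⌊T⌋ + 1 := by
    have : ((⌊T⌋ + 1 - 0).toNat : ℤ) = ⌊T⌋ + 1 := by
      rw [Int.toNat_of_nonneg (by omega)]
      ring
    exact_mod_cast this
  have h5 : (W.card : ℝ) ≤ ((⌊T⌋ + 1 - 0).toNat : ℝ) := by exact_mod_cast h2
  rw [h4] at h5
  have := Int.floor_le T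
  linarith

/-- **from the threshold `N ^ σ₀` to the threshold `N ^ σ`** -/
theorem transfer {A ρ σ₀ σ : ℝ} (hA : 1 ≤ A) (hρ : ρ < A) (hσ : σ₀ ≤ σ)
    (h : Bd A σ₀ (fun x => x ^ ρ)) :
    Bd A σ (fun x => (1 + Real.log x) * x ^ (ρ - 2 * (σ - σ₀))) := by
  obtain ⟨C, hC⟩ := h
  set C1 : ℝ := max C 1 with hC1
  have hC11 : 1 ≤ C1 := le_max_right _ _
  have hCC1 : C ≤ C1 := le_max_left _ _
  -- the bound for small `N`
  set N0 : ℝ := (512 * C1) ^ (1 / (A - ρ)) with hN0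
  have hAρ : 0 < A - ρ := by linarith
  have hN01 : 1 ≤ N0 := Real.one_le_rpow (by linarith) (by positivity)
  set K : ℝ := 512 * C1 + 1024 * C1 * N0 ^ (2 * (σ - σ₀)) with hK
  have hK0 : 0 ≤ 1024 * C1 * N0 ^ (2 * (σ - σ₀)) := by positivity
  refine ⟨K, ?_⟩
  intro N T b W hN hNT hTA hb hW
  have hN1 : (1 : ℝ) ≤ N := by exact_mod_cast hN
  have hNp : (0 : ℝ) < N := by linarith
  have hl := Real.log_nonneg hN1
  have hpw : ∀ x : ℝ, 0 < (N : ℝ) ^ x := fun x => Real.rpow_pos_of_pos hNp x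
  rcases W.eq_empty_or_nonempty with rfl | hne
  · rw [card_empty, Nat.cast_zero]
    have := hpw (ρ - 2 * (σ - σ₀))
    positivity
  obtain ⟨t0, ht0, hmin⟩ := exists_min_image W (fun t => ‖D N b t‖) hne
  set V := ‖D N b t0‖ with hV
  have hVσ : (N : ℝ) ^ σ < V := (hW t0 ht0).2.2
  have hV0 : 0 < V := lt_trans (hpw σ) hVσ
  set V' := V * (N : ℝ) ^ (σ₀ - σ) with hV'
  have hV'0 : 0 < V' := mul_pos hV0 (hpw _)
  have hV'V : V' ≤ V := by
    rw [hV']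
    have : (N : ℝ) ^ (σ₀ - σ) ≤ 1 := Real.rpow_le_one_of_one_le_of_nonpos hN1 (by linarith)
    nlinarith
  have hV'σ : (N : ℝ) ^ σ₀ < V' := by
    have e : (N : ℝ) ^ σ₀ = (N : ℝ) ^ σ * (N : ℝ) ^ (σ₀ - σ) := by
      rw [← Real.rpow_add hNp]; congr 1; ring
    rw [e, hV']
    exact mul_lt_mul_of_pos_right hVσ (hpw _)
  have hratio : (V / V') ^ 2 = (N : ℝ) ^ (2 * (σ - σ₀)) := by
    have e1 : V / V' = (N : ℝ) ^ (σ - σ₀) := by
      rw [hV', show σ₀ - σ = -(σ - σ₀) by ring, Real.rpow_neg hNp.le]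
      field_simp
    rw [e1, ← Real.rpow_natCast, ← Real.rpow_mul hNp.le]
    congr 1
    push_cast
    ring
  have hTA' : (N : ℝ) ≤ (N : ℝ) ^ A := by
    calc (N : ℝ) = (N : ℝ) ^ (1 : ℝ) := (Real.rpow_one _).symm
      _ ≤ _ := Real.rpow_le_rpow_of_exponent_le hN1 hA
  obtain ⟨b', W', h1, h2, h3, h4⟩ := mono_int N hN b (T := (N : ℝ) ^ A) (V := V) (V' := V')
    (hpw A).le hb hV'0 hV'V W (fun t ht => ⟨(hW t ht).1, (hW t ht).2.1.trans hTA⟩)
    (fun t ht => hmin t ht)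
  have h5 := hC N ((N : ℝ) ^ A) b' W' hN hTA' le_rfl h1
    (fun t ht => ⟨(h2 t ht).1, (h2 t ht).2, lt_of_lt_of_le hV'σ (h3 t ht)⟩)
  have h6 : (W'.card : ℝ) ≤ C1 * (N : ℝ) ^ ρ :=
    h5.trans (mul_le_mul_of_nonneg_right hCC1 (hpw ρ).le)
  have hsplit : (N : ℝ) ^ (ρ - 2 * (σ - σ₀)) * (N : ℝ) ^ (2 * (σ - σ₀)) = (N : ℝ) ^ ρ := by
    rw [← Real.rpow_add hNp]; congr 1; ring
  have hX := hpw (ρ - 2 * (σ - σ₀))
  have hY := hpw (2 * (σ - σ₀))
  rw [hratio] at h4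
  rcases min_le_iff.1 h4 with h7 | h7
  · rw [div_le_iff₀ (by linarith)] at h7
    have h8 : (N : ℝ) ^ (2 * (σ - σ₀)) * W.card ≤
        (N : ℝ) ^ (2 * (σ - σ₀)) * (512 * C1 * ((1 + Real.log N) * (N : ℝ) ^ (ρ - 2 * (σ - σ₀)))) := by
      calc _ ≤ 512 * (W'.card : ℝ) * (1 + Real.log N) := h7
        _ ≤ 512 * (C1 * (N : ℝ) ^ ρ) * (1 + Real.log N) := by gcongr
        _ = _ := by rw [← hsplit]; ring
    have h9 := le_of_mul_le_mul_left h8 hY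
    refine h9.trans ?_
    apply mul_le_mul_of_nonneg_right _ (by positivity)
    linarith
  · -- `N` is small
    have h8 : (N : ℝ) ^ A ≤ 512 * C1 * (N : ℝ) ^ ρ := by
      calc _ ≤ 512 * (W'.card : ℝ) := h7
        _ ≤ 512 * (C1 * (N : ℝ) ^ ρ) := by gcongr
        _ = _ := by ring
    have h9 : (N : ℝ) ^ (A - ρ) ≤ 512 * C1 := by
      rw [Real.rpow_sub hNp, div_le_iff₀ (hpw ρ)]
      exact h8
    have h10 : (N : ℝ) ≤ N0 := by
      have : ((N : ℝ) ^ (A - ρ)) ^ (1 / (A - ρ)) ≤ (512 * C1) ^ (1 / (A - ρ)) :=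
        Real.rpow_le_rpow (hpw _).le h9 (by positivity)
      rw [← Real.rpow_mul hNp.le, mul_one_div_cancel hAρ.ne', Real.rpow_one] at this
      exact this
    have h11 : (N : ℝ) ^ (2 * (σ - σ₀)) ≤ N0 ^ (2 * (σ - σ₀)) :=
      Real.rpow_le_rpow hNp.le h10 (by linarith)
    have h12 : (W.card : ℝ) ≤ T + 1 := card_le_T W (fun t ht => ⟨(hW t ht).1, (hW t ht).2.1⟩)
      (by linarith)
    have h13 : (W.card : ℝ) ≤ 1024 * C1 * (N : ℝ) ^ ρ := by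
      have : (1 : ℝ) ≤ (N : ℝ) ^ A := Real.one_le_rpow hN1 (by linarith)
      linarith
    calc (W.card : ℝ) ≤ 1024 * C1 * (N : ℝ) ^ ρ := h13
      _ = 1024 * C1 * ((N : ℝ) ^ (ρ - 2 * (σ - σ₀)) * (N : ℝ) ^ (2 * (σ - σ₀))) := by rw [hsplit]
      _ ≤ 1024 * C1 * ((N : ℝ) ^ (ρ - 2 * (σ - σ₀)) * N0 ^ (2 * (σ - σ₀))) := by gcongr
      _ = (1024 * C1 * N0 ^ (2 * (σ - σ₀))) * (1 * (N : ℝ) ^ (ρ - 2 * (σ - σ₀))) := by ring
      _ ≤ K * ((1 + Real.log N) * (N : ℝ) ^ (ρ - 2 * (σ - σ₀))) := by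
          apply mul_le_mul _ _ (by positivity) (by positivity)
          · rw [hK]; linarith
          · exact mul_le_mul_of_nonneg_right (by linarith) hX.le

theorem log_le_pow {ε : ℝ} (hε : 0 < ε) : ∃ K : ℝ, 0 < K ∧ ∀ x : ℝ, 1 ≤ x →
    1 + Real.log x ≤ K * x ^ ε := by
  refine ⟨1 + 1 / ε, by positivity, ?_⟩
  intro x hx
  have h1 := Real.log_le_rpow_div (by linarith : (0 : ℝ) ≤ x) hε
  have h2 : 1 ≤ x ^ ε := Real.one_le_rpow hx hε.le
  calc 1 + Real.log x ≤ x ^ ε + x ^ ε / ε := by linarith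
    _ = _ := by ring

theorem Bd_mono {A σ : ℝ} {f g : ℝ → ℝ} (hf : ∀ x : ℝ, 1 ≤ x → 0 ≤ f x)
    (hfg : ∃ K : ℝ, 0 ≤ K ∧ ∀ x : ℝ, 1 ≤ x → f x ≤ K * g x) (h : Bd A σ f) : Bd A σ g := by
  obtain ⟨C, hC⟩ := h
  obtain ⟨K, hK, hfg⟩ := hfg
  refine ⟨max C 0 * K, ?_⟩
  intro N T b W hN hNT hTA hb hW
  have hN1 : (1 : ℝ) ≤ N := by exact_mod_cast hN
  calc (W.card : ℝ) ≤ C * f N := hC N T b W hN hNT hTA hb hW
    _ ≤ max C 0 * f N := mul_le_mul_of_nonneg_right (le_max_left _ _) (hf N hN1)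
    _ ≤ max C 0 * (K * g N) := mul_le_mul_of_nonneg_left (hfg N hN1) (le_max_right _ _)
    _ = _ := by ring

theorem Bd_pow {A σ r s : ℝ} (hrs : r ≤ s) (h : Bd A σ (fun x => x ^ r)) :
    Bd A σ (fun x => x ^ s) := by
  apply Bd_mono _ _ h
  · intro x hx
    have : (0 : ℝ) < x := by linarith
    positivity
  · refine ⟨1, zero_le_one, ?_⟩
    intro x hx
    rw [one_mul]
    exact Real.rpow_le_rpow_of_exponent_le hx hrs

theorem Bd_A {A A' σ : ℝ} {f : ℝ → ℝ} (hAA' : A' ≤ A) (h : Bd A σ f) : Bd A' σ f := by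
  obtain ⟨C, hC⟩ := h
  refine ⟨C, ?_⟩
  intro N T b W hN hNT hTA hb hW
  have hN1 : (1 : ℝ) ≤ N := by exact_mod_cast hN
  exact hC N T b W hN hNT (hTA.trans (Real.rpow_le_rpow_of_exponent_le hN1 hAA')) hb hW

/-- the conjectured bound at the threshold `N ^ σ` -/
def LV (A σ : ℝ) : Prop := ∀ ε : ℝ, 0 < ε → Bd A σ (fun x => x ^ (2 - 2 * σ + ε))

/-- one threshold is enough for the larger ones -/
theorem LV_mono {A σ₀ σ : ℝ} (hA : 1 < A) (hσ₀ : 1 / 2 < σ₀) (hσ : σ₀ ≤ σ) (h : LV A σ₀) :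
    LV A σ := by
  intro ε hε
  set ε' : ℝ := min (ε / 2) ((A - 1) / 2) with hε'
  have hε'0 : 0 < ε' := lt_min (by linarith) (by linarith)
  have h1 : ε' ≤ ε / 2 := min_le_left _ _
  have h2 : ε' ≤ (A - 1) / 2 := min_le_right _ _
  have h3 := transfer (A := A) (ρ := 2 - 2 * σ₀ + ε') (σ₀ := σ₀) (σ := σ) hA.le (by linarith) hσ
    (h ε' hε'0)
  obtain ⟨K, hK, hlog⟩ := log_le_pow (ε := ε / 2) (by linarith)
  apply Bd_mono _ _ h3
  · intro x hx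
    have := Real.log_nonneg hx
    have : (0 : ℝ) < x := by linarith
    positivity
  · refine ⟨K, hK.le, ?_⟩
    intro x hx
    have hx0 : 0 < x := by linarith
    have h4 := hlog x hx
    calc (1 + Real.log x) * x ^ (2 - 2 * σ₀ + ε' - 2 * (σ - σ₀))
        ≤ K * x ^ (ε / 2) * x ^ (2 - 2 * σ₀ + ε' - 2 * (σ - σ₀)) :=
          mul_le_mul_of_nonneg_right h4 (by positivity)
      _ = K * x ^ (ε / 2 + (2 - 2 * σ₀ + ε' - 2 * (σ - σ₀))) := by
          rw [mul_assoc, ← Real.rpow_add hx0]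
      _ ≤ K * x ^ (2 - 2 * σ + ε) := by
          apply mul_le_mul_of_nonneg_left _ hK.le
          exact Real.rpow_le_rpow_of_exponent_le hx (by linarith)

/-- almost `O(N)` values above `N ^ σ` for all `σ > 1/2` are enough -/
theorem LV_of_almost {A : ℝ} (hA : 1 < A)
    (h : ∀ σ : ℝ, 1 / 2 < σ → ∀ ε : ℝ, 0 < ε → Bd A σ (fun x => x ^ (1 + ε))) :
    ∀ σ : ℝ, 1 / 2 < σ → LV A σ := by
  intro σ hσ ε hε
  set δ : ℝ := min (min (ε / 8) (σ - 1 / 2)) ((A - 1) / 2) with hδ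
  have hδ0 : 0 < δ := lt_min (lt_min (by linarith) (by linarith)) (by linarith)
  have h1 : δ ≤ ε / 8 := (min_le_left _ _).trans (min_le_left _ _)
  have h2 : δ ≤ σ - 1 / 2 := (min_le_left _ _).trans (min_le_right _ _)
  have h3 : δ ≤ (A - 1) / 2 := min_le_right _ _
  have h4 := transfer (A := A) (ρ := 1 + δ) (σ₀ := 1 / 2 + δ) (σ := σ) hA.le (by linarith)
    (by linarith) (h (1 / 2 + δ) (by linarith) δ hδ0)
  obtain ⟨K, hK, hlog⟩ := log_le_pow (ε := ε / 2) (by linarith)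
  apply Bd_mono _ _ h4
  · intro x hx
    have := Real.log_nonneg hx
    have : (0 : ℝ) < x := by linarith
    positivity
  · refine ⟨K, hK.le, ?_⟩
    intro x hx
    have hx0 : 0 < x := by linarith
    have h5 := hlog x hx
    calc (1 + Real.log x) * x ^ (1 + δ - 2 * (σ - (1 / 2 + δ)))
        ≤ K * x ^ (ε / 2) * x ^ (1 + δ - 2 * (σ - (1 / 2 + δ))) :=
          mul_le_mul_of_nonneg_right h5 (by positivity)
      _ = K * x ^ (ε / 2 + (1 + δ - 2 * (σ - (1 / 2 + δ)))) := by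
          rw [mul_assoc, ← Real.rpow_add hx0]
      _ ≤ K * x ^ (2 - 2 * σ + ε) := by
          apply mul_le_mul_of_nonneg_left _ hK.le
          exact Real.rpow_le_rpow_of_exponent_le hx (by linarith)

end Pool.Agent.N793.LV
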