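import Pool.Agent.N793.LV.Greedy

set_option autoImplicit false

/-!
# Large values and sums with coefficients `0` and `1`
-/

namespace Pool.Agent.N793.LV

open Finset

/-- from subset sums to the sum of the moduli -/
theorem abs4 {α : Type*} (I : Finset α) (z : α → ℂ) {B : ℝ} (h : ∀ S ⊆ I, ‖∑ n ∈ S, z n‖ ≤ B) :
    ∑ n ∈ I, ‖z n‖ ≤ 4 * B := by
  classical
  have h1 : ∀ n ∈ I, ‖z n‖ ≤ |(z n).re| + |(z n).im| := fun n _ => Complex.norm_le_abs_re_add_abs_im _
  have key : ∀ g : α → ℝ, (∀ S ⊆ I, |∑ n ∈ S, g n| ≤ B) → ∑ n ∈ I, |g n| ≤ 2 * B := by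
    intro g hg
    have h2 := hg (I.filter (fun n => 0 ≤ g n)) (filter_subset _ _)
    have h3 := hg (I.filter (fun n => ¬ 0 ≤ g n)) (filter_subset _ _)
    rw [← sum_filter_add_sum_filter_not I (fun n => 0 ≤ g n)]
    have h4 : ∑ n ∈ I.filter (fun n => 0 ≤ g n), |g n| = ∑ n ∈ I.filter (fun n => 0 ≤ g n), g n := by
      apply sum_congr rfl
      intro n hn
      exact abs_of_nonneg (mem_filter.1 hn).2
    have h5 : ∑ n ∈ I.filter (fun n => ¬ 0 ≤ g n), |g n| =
        - ∑ n ∈ I.filter (fun n => ¬ 0 ≤ g n), g n := by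
      rw [← sum_neg_distrib]
      apply sum_congr rfl
      intro n hn
      exact abs_of_neg (not_le.1 (mem_filter.1 hn).2)
    rw [h4, h5]
    have h6 := le_abs_self (∑ n ∈ I.filter (fun n => 0 ≤ g n), g n)
    have h7 := neg_le_abs (∑ n ∈ I.filter (fun n => ¬ 0 ≤ g n), g n)
    linarith
  have hre := key (fun n => (z n).re) (by
    intro S hS
    rw [← Complex.re_sum]
    exact (Complex.abs_re_le_norm _).trans (h S hS))
  have him := key (fun n => (z n).im) (by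
    intro S hS
    rw [← Complex.im_sum]
    exact (Complex.abs_im_le_norm _).trans (h S hS))
  have h2 := sum_le_sum h1
  rw [sum_add_distrib] at h2
  linarith

/-- the bound for the sums with the coefficients `0` and `1` -/
def ZOB (I : Finset ℕ) (lam : ℕ → ℝ) (T B : ℝ) : Prop :=
  ∀ S ⊆ I, ∀ W : Finset ℝ, Sep W → (∀ t ∈ W, 0 ≤ t ∧ t ≤ T) → W.card ≤ I.card →
    ‖∑ n ∈ S, ∑ t ∈ W, Complex.exp (Complex.I * (t : ℂ) * (lam n : ℂ))‖ ≤ B

/-- the bound for the number of the large values -/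
def LVB (I : Finset ℕ) (lam : ℕ → ℝ) (T L : ℝ) : Prop :=
  ∀ (b : ℕ → ℂ) (W : Finset ℝ) (V : ℝ), (∀ n ∈ I, ‖b n‖ ≤ 1) → Sep W →
    (∀ t ∈ W, 0 ≤ t ∧ t ≤ T) → W.card ≤ I.card → 0 < V → (∀ t ∈ W, V ≤ ‖F I lam b t‖) →
    (W.card : ℝ) * V ^ 2 ≤ L

theorem Sep.mono {W W' : Finset ℝ} (h : Sep W) (hs : W' ⊆ W) : Sep W' :=
  fun t ht u hu => h t (hs ht) u (hs hu)

/-- the sum of the moduli of a polynomial over a separated set with at most `|I|` elements -/
theorem sum_norm_le (I : Finset ℕ) (lam : ℕ → ℝ) {T B : ℝ} (hB : ZOB I lam T B) (b : ℕ → ℂ)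
    (hb : ∀ n ∈ I, ‖b n‖ ≤ 1) (W : Finset ℝ) (hsep : Sep W) (hW : ∀ t ∈ W, 0 ≤ t ∧ t ≤ T)
    (hc : W.card ≤ I.card) : ∑ t ∈ W, ‖F I lam b t‖ ≤ 16 * B := by
  have h : ∀ W1 ⊆ W, ‖∑ t ∈ W1, F I lam b t‖ ≤ 4 * B := by
    intro W1 hW1
    have e : ∑ t ∈ W1, F I lam b t =
        ∑ n ∈ I, b n * ∑ t ∈ W1, Complex.exp (Complex.I * (t : ℂ) * (lam n : ℂ)) := by
      unfold F
      rw [sum_comm]
      apply sum_congr rfl
      intro n _
      rw [mul_sum]
    rw [e]
    have h1 : ∀ S ⊆ I, ‖∑ n ∈ S, ∑ t ∈ W1, Complex.exp (Complex.I * (t : ℂ) * (lam n : ℂ))‖ ≤ B :=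
      fun S hS => hB S hS W1 (hsep.mono hW1) (fun t ht => hW t (hW1 ht))
        ((card_le_card hW1).trans hc)
    refine le_trans ?_ (abs4 I (fun n => ∑ t ∈ W1, Complex.exp (Complex.I * (t : ℂ) * (lam n : ℂ))) h1)
    refine (norm_sum_le _ _).trans (sum_le_sum fun n hn => ?_)
    rw [norm_mul]
    exact mul_le_of_le_one_left (norm_nonneg _) (hb n hn)
  have := abs4 W (fun t => F I lam b t) h
  linarith

/-- **from `0`-`1` sums to large values** -/
theorem lv_of_zo (I : Finset ℕ) (lam : ℕ → ℝ) {T B : ℝ} (hI : I.Nonempty) (hT : (I.card : ℝ) ≤ T)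
    (hB : ZOB I lam T B) :
    LVB I lam T (2 ^ 21 * Real.log (16 * I.card) * B ^ 2 / I.card) := by
  classical
  intro b W V hb hsep hW hc hV hVW
  have hN1 : (1 : ℝ) ≤ I.card := by exact_mod_cast hI.card_pos
  have hN0 : (0 : ℝ) < I.card := by linarith
  have hB0 : 0 ≤ B := by
    have := hB ∅ (empty_subset _) ∅ (fun t ht => by simp at ht) (fun t ht => by simp at ht) (by simp)
    simpa using this
  have hL : 0 < Real.log (16 * I.card) := Real.log_pos (by linarith)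
  rcases W.eq_empty_or_nonempty with rfl | hne
  · rw [card_empty, Nat.cast_zero, zero_mul]
    positivity
  have hW1 : (1 : ℝ) ≤ W.card := by exact_mod_cast hne.card_pos
  have hW0 : (0 : ℝ) < W.card := by linarith
  have hcr : (W.card : ℝ) ≤ I.card := by exact_mod_cast hc
  set J : ℕ := ⌈(I.card : ℝ) / W.card⌉₊ with hJ
  have hJpos : 0 < J := Nat.ceil_pos.2 (by positivity)
  have hJge : (I.card : ℝ) / W.card ≤ J := Nat.le_ceil _
  have hJle : (J : ℝ) < (I.card : ℝ) / W.card + 1 := Nat.ceil_lt_add_one (by positivity)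
  have hJ0 : (0 : ℝ) < J := by exact_mod_cast hJpos
  set κ : ℝ := Real.sqrt (4 * J * Real.log (16 * I.card)) with hκ
  have hκ0 : 0 < κ := Real.sqrt_pos.2 (by positivity)
  have hκ2 : κ ^ 2 = 4 * J * Real.log (16 * I.card) := Real.sq_sqrt (by positivity)
  obtain ⟨b', W', hb', hsep', hW', hV', hc', _⟩ := amp_J I lam b (T := T) (V := V) (κ := κ)
    (by linarith) hJpos hI hb hκ0 hκ2.ge W hsep hW hVW
  have h1 : (I.card : ℝ) ≤ J * W.card := by
    rw [div_le_iff₀ hW0] at hJge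
    exact hJge
  have h2 : (I.card : ℝ) ≤ 32 * W'.card := by
    rcases min_le_iff.1 hc' with h | h <;> linarith
  obtain ⟨W2, hW2, hc2, hc3⟩ : ∃ W2 ⊆ W', W2.card ≤ I.card ∧ (I.card : ℝ) ≤ 32 * W2.card := by
    rcases le_or_gt W'.card I.card with h | h
    · exact ⟨W', Subset.rfl, h, h2⟩
    · obtain ⟨W2, hW2, hc2⟩ := exists_subset_card_eq h.le
      refine ⟨W2, hW2, hc2.le, ?_⟩
      rw [hc2]
      linarith
  have h3 := sum_norm_le I lam hB b' hb' W2 (hsep'.mono hW2) (fun t ht => hW' t (hW2 ht)) hc2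
  have h4 : (W2.card : ℝ) * (V / κ) ≤ 16 * B := by
    refine le_trans ?_ h3
    rw [← nsmul_eq_mul, ← sum_const]
    exact sum_le_sum fun t ht => hV' t (hW2 ht)
  have h5 : (I.card : ℝ) * V ≤ 512 * B * κ := by
    have e : (W2.card : ℝ) * (V / κ) = W2.card * V / κ := by ring
    rw [e, div_le_iff₀ hκ0] at h4
    nlinarith
  have h6 : ((I.card : ℝ) * V) ^ 2 ≤ (512 * B * κ) ^ 2 := pow_le_pow_left₀ (by positivity) h5 2
  have h7 : (512 * B * κ) ^ 2 = 512 ^ 2 * B ^ 2 * (4 * J * Real.log (16 * I.card)) := by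
    rw [mul_pow, mul_pow, hκ2]
  rw [h7] at h6
  have h8 : (J : ℝ) * W.card ≤ 2 * I.card := by
    have : (J : ℝ) * W.card < ((I.card : ℝ) / W.card + 1) * W.card :=
      mul_lt_mul_of_pos_right hJle hW0
    have e : ((I.card : ℝ) / W.card + 1) * W.card = I.card + W.card := by field_simp
    rw [e] at this
    linarith
  rw [le_div_iff₀ hN0]
  have h9 : (W.card : ℝ) * ((I.card : ℝ) * V) ^ 2 ≤
      512 ^ 2 * B ^ 2 * (4 * (2 * I.card) * Real.log (16 * I.card)) := by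
    calc (W.card : ℝ) * ((I.card : ℝ) * V) ^ 2
        ≤ W.card * (512 ^ 2 * B ^ 2 * (4 * J * Real.log (16 * I.card))) :=
          mul_le_mul_of_nonneg_left h6 hW0.le
      _ = 512 ^ 2 * B ^ 2 * (4 * (J * W.card) * Real.log (16 * I.card)) := by ring
      _ ≤ _ := by gcongr
  have h10 : ((W.card : ℝ) * V ^ 2 * I.card) * I.card ≤
      (2 ^ 21 * Real.log (16 * I.card) * B ^ 2) * I.card := by
    calc ((W.card : ℝ) * V ^ 2 * I.card) * I.card = (W.card : ℝ) * ((I.card : ℝ) * V) ^ 2 := by ring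
      _ ≤ _ := h9
      _ = _ := by ring
  exact le_of_mul_le_mul_right h10 hN0

/-- from the number of the large values to the mean square over a set: levels between `V₀` and
`2 ^ K V₀` -/
theorem sq_of_levels (W : Finset ℝ) (f : ℝ → ℝ) (hf0 : ∀ t ∈ W, 0 ≤ f t) {V₀ M : ℝ} (hV₀ : 0 < V₀)
    (K : ℕ) (hf : ∀ t ∈ W, f t < 2 ^ K * V₀) (hM : ∀ V : ℝ, V₀ ≤ V →
      ((W.filter (fun t => V ≤ f t)).card : ℝ) * V ^ 2 ≤ M) :
    ∑ t ∈ W, f t ^ 2 ≤ W.card * V₀ ^ 2 + K * (4 * M) := by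
  classical
  have h1 : ∀ t ∈ W, f t ^ 2 ≤ V₀ ^ 2 + ∑ k ∈ range K,
      (if 2 ^ k * V₀ ≤ f t then 4 * (2 ^ k * V₀) ^ 2 else 0) := by
    intro t ht
    have hnn : ∀ k ∈ range K, (0 : ℝ) ≤ (if 2 ^ k * V₀ ≤ f t then 4 * (2 ^ k * V₀) ^ 2 else 0) := by
      intro k _
      split_ifs <;> positivity
    rcases lt_or_ge (f t) V₀ with h | h
    · have h2 : f t ^ 2 ≤ V₀ ^ 2 := pow_le_pow_left₀ (hf0 t ht) h.le 2
      have h3 := sum_nonneg hnn
      linarith
    · -- the largest `k` with `2 ^ k V₀ ≤ f t`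
      have hex : ∃ k : ℕ, f t < 2 ^ k * V₀ := ⟨K, hf t ht⟩
      classical
      have hk := Nat.find_spec hex
      have hkK : Nat.find hex ≤ K := Nat.find_min' hex (hf t ht)
      have hk0 : Nat.find hex ≠ 0 := by
        intro h0
        rw [h0, pow_zero, one_mul] at hk
        linarith
      obtain ⟨k, hk2⟩ : ∃ k, Nat.find hex = k + 1 := ⟨Nat.find hex - 1, by omega⟩
      have hk3 : ¬ f t < 2 ^ k * V₀ := Nat.find_min hex (by omega)
      have hk4 : 2 ^ k * V₀ ≤ f t := not_lt.1 hk3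
      rw [hk2, pow_succ] at hk
      have h4 := single_le_sum hnn (mem_range.2 (by omega : k < K))
      simp only [hk4, if_true] at h4
      have h5 : f t ^ 2 ≤ 4 * (2 ^ k * V₀) ^ 2 := by
        have : f t ≤ 2 * (2 ^ k * V₀) := by linarith
        calc f t ^ 2 ≤ (2 * (2 ^ k * V₀)) ^ 2 := pow_le_pow_left₀ (hf0 t ht) this 2
          _ = _ := by ring
      have : 0 ≤ V₀ ^ 2 := by positivity
      linarith
  refine (sum_le_sum h1).trans ?_
  rw [sum_add_distrib, sum_const, nsmul_eq_mul, sum_comm]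
  have h2 : ∑ k ∈ range K, ∑ t ∈ W, (if 2 ^ k * V₀ ≤ f t then 4 * (2 ^ k * V₀) ^ 2 else 0) ≤
      ∑ k ∈ range K, 4 * M := by
    apply sum_le_sum
    intro k _
    rw [← sum_filter, sum_const, nsmul_eq_mul]
    have h3 : V₀ ≤ 2 ^ k * V₀ := by
      have : (1 : ℝ) ≤ 2 ^ k := one_le_pow₀ (by norm_num)
      nlinarith
    have := hM (2 ^ k * V₀) h3
    linarith
  rw [sum_const, card_range, nsmul_eq_mul] at h2
  linarith

/-- the trivial bound -/
theorem F_le (I : Finset ℕ) (lam : ℕ → ℝ) (b : ℕ → ℂ) (hb : ∀ n ∈ I, ‖b n‖ ≤ 1) (t : ℝ) :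
    ‖F I lam b t‖ ≤ I.card := by
  unfold F
  refine (norm_sum_le _ _).trans ?_
  calc ∑ n ∈ I, ‖b n * Complex.exp (Complex.I * (t : ℂ) * (lam n : ℂ))‖ ≤ ∑ n ∈ I, (1 : ℝ) := by
        apply sum_le_sum
        intro n hn
        rw [norm_mul, norm_e, mul_one]
        exact hb n hn
    _ = I.card := by simp

theorem zo_eq (I : Finset ℕ) (lam : ℕ → ℝ) (S : Finset ℕ) (hS : S ⊆ I) (W : Finset ℝ) :
    ∑ n ∈ S, ∑ t ∈ W, Complex.exp (Complex.I * (t : ℂ) * (lam n : ℂ)) =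
      ∑ t ∈ W, F I lam (fun n => if n ∈ S then 1 else 0) t := by
  classical
  unfold F
  rw [sum_comm]
  apply sum_congr rfl
  intro t _
  rw [← sum_subset hS]
  · apply sum_congr rfl
    intro n hn
    simp only [if_pos hn, one_mul]
  · intro n _ hn
    simp only [if_neg hn, zero_mul]

/-- from a mean square to the `0`-`1` sum -/
theorem zo_sq (I : Finset ℕ) (lam : ℕ → ℝ) (S : Finset ℕ) (hS : S ⊆ I) (W : Finset ℝ) {M : ℝ}
    (hM : ∑ t ∈ W, ‖F I lam (fun n => if n ∈ S then 1 else 0) t‖ ^ 2 ≤ M) :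
    ‖∑ n ∈ S, ∑ t ∈ W, Complex.exp (Complex.I * (t : ℂ) * (lam n : ℂ))‖ ^ 2 ≤ W.card * M := by
  rw [zo_eq I lam S hS W]
  have h1 : ‖∑ t ∈ W, F I lam (fun n => if n ∈ S then 1 else 0) t‖ ^ 2 ≤
      (∑ t ∈ W, ‖F I lam (fun n => if n ∈ S then 1 else 0) t‖) ^ 2 :=
    pow_le_pow_left₀ (norm_nonneg _) (norm_sum_le _ _) 2
  have h2 := sq_sum_le_card_mul_sum_sq (s := W)
    (f := fun t => ‖F I lam (fun n => if n ∈ S then 1 else 0) t‖)
  refine h1.trans (h2.trans ?_)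
  exact mul_le_mul_of_nonneg_left hM (Nat.cast_nonneg _)

/-- **from large values to `0`-`1` sums** -/
theorem zo_of_lv (I : Finset ℕ) (lam : ℕ → ℝ) {T L : ℝ} (hI : I.Nonempty) (hL : LVB I lam T L) :
    ZOB I lam T (Real.sqrt (I.card * (I.card + 4 * L * (2 + Real.log I.card / Real.log 2)))) := by
  classical
  intro S hS W hsep hW hc
  have hN1 : (1 : ℝ) ≤ I.card := by exact_mod_cast hI.card_pos
  have hN0 : (0 : ℝ) < I.card := by linarith
  have hcr : (W.card : ℝ) ≤ I.card := by exact_mod_cast hc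
  set b : ℕ → ℂ := fun n => if n ∈ S then 1 else 0 with hb
  have hb1 : ∀ n ∈ I, ‖b n‖ ≤ 1 := by
    intro n _
    rw [hb]
    simp only
    split_ifs <;> simp
  have hL0 : 0 ≤ L := by
    have := hL b ∅ 1 hb1 (fun t ht => by simp at ht) (fun t ht => by simp at ht) (by simp) one_pos
      (fun t ht => by simp at ht)
    simpa using this
  set K : ℕ := ⌊Real.log I.card / Real.log 2⌋₊ + 1 with hK
  have hlog2 : 0 < Real.log 2 := Real.log_pos (by norm_num)
  have hlN : 0 ≤ Real.log (I.card : ℝ) := Real.log_nonneg hN1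
  have hKge : Real.log I.card / Real.log 2 < K := by
    rw [hK]; push_cast; exact Nat.lt_floor_add_one _
  have hKle : (K : ℝ) ≤ 2 + Real.log I.card / Real.log 2 := by
    rw [hK]; push_cast
    have := Nat.floor_le (div_nonneg hlN hlog2.le)
    linarith
  have hpow : (I.card : ℝ) < 2 ^ K := by
    rw [div_lt_iff₀ hlog2] at hKge
    have : Real.log (I.card : ℝ) < Real.log (2 ^ K) := by
      rw [Real.log_pow]; exact hKge
    exact (Real.log_lt_log_iff hN0 (by positivity)).1 this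
  have h1 := sq_of_levels W (fun t => ‖F I lam b t‖) (fun t _ => norm_nonneg _) (V₀ := 1) (M := L)
    one_pos K (fun t _ => by
      rw [mul_one]
      exact lt_of_le_of_lt (F_le I lam b hb1 t) hpow) (by
      intro V hV
      exact hL b (W.filter (fun t => V ≤ ‖F I lam b t‖)) V hb1 (hsep.mono (filter_subset _ _))
        (fun t ht => hW t (mem_filter.1 ht).1) ((card_le_card (filter_subset _ _)).trans hc)
        (by linarith) (fun t ht => (mem_filter.1 ht).2))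
  have h2 := zo_sq I lam S hS W h1
  apply Real.le_sqrt_of_sq_le
  refine h2.trans ?_
  have h3 : (W.card : ℝ) * 1 ^ 2 + K * (4 * L) ≤
      I.card + 4 * L * (2 + Real.log I.card / Real.log 2) := by
    have := mul_le_mul_of_nonneg_right hKle (by linarith : (0 : ℝ) ≤ 4 * L)
    linarith
  have h4 : 0 ≤ (W.card : ℝ) * 1 ^ 2 + K * (4 * L) := by positivity
  exact mul_le_mul hcr h3 h4 hN0.le

end Pool.Agent.N793.LV
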