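import Pool.Agent.N793.LV.Small

set_option autoImplicit false

/-!
# Q1 and sums with the coefficients `0` and `1`
-/

namespace Pool.Agent.N793.LV

open Finset

/-- the frequencies `-log n` -/
noncomputable def ml (n : ℕ) : ℝ := -Real.log n

theorem cpow_eq {n : ℕ} (hn : 1 ≤ n) (t : ℝ) :
    (n : ℂ) ^ (-((t : ℂ) * Complex.I)) = Complex.exp (Complex.I * (t : ℂ) * (ml n : ℂ)) := by
  have hn0 : (n : ℂ) ≠ 0 := by exact_mod_cast (by omega : n ≠ 0)
  rw [Complex.cpow_def_of_ne_zero hn0, ← Complex.natCast_log]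
  congr 1
  unfold ml
  push_cast
  ring

theorem F_ml (N : ℕ) (a : ℕ → ℂ) (t : ℝ) :
    ∑ n ∈ Icc 1 N, a n * (n : ℂ) ^ (-((t : ℂ) * Complex.I)) = F (Icc 1 N) ml a t := by
  unfold F
  apply sum_congr rfl
  intro n hn
  rw [cpow_eq (mem_Icc.1 hn).1]

theorem norm_conj_F (N : ℕ) (a : ℕ → ℂ) (t : ℝ) :
    ‖F (Icc 1 N) ml a t‖ =
      ‖∑ n ∈ Icc 1 N, (starRingEnd ℂ) (a n) * Pool.Agent.TH705.DL.ph t n‖ := by
  rw [← Complex.norm_conj]
  congr 1
  unfold F
  rw [map_sum]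
  apply sum_congr rfl
  intro n _
  rw [map_mul]
  congr 1
  rw [← Complex.exp_conj, ph_F]
  congr 1
  simp only [map_mul, Complex.conj_I, Complex.conj_ofReal, ml]
  push_cast
  ring

theorem card_I (N : ℕ) : ((Icc 1 N).card : ℝ) = N := by
  rw [Nat.card_Icc, Nat.add_sub_cancel]

theorem log16 {x : ℝ} (hx : 1 ≤ x) : Real.log (16 * x) ≤ 4 * (1 + Real.log x) := by
  rw [Real.log_mul (by norm_num) (by linarith)]
  have : (16 : ℝ) = 2 ^ 4 := by norm_num
  rw [this, Real.log_pow]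
  have h5 := Real.log_two_lt_d9
  have h6 := Real.log_nonneg hx
  push_cast
  linarith

/-- Q1 in terms of `F` -/
def MontF : Prop :=
  ∀ ε : ℝ, 0 < ε → ∃ C : ℝ, 0 < C ∧ ∀ (N : ℕ) (T V : ℝ) (a : ℕ → ℂ) (W : Finset ℝ), 1 ≤ N → 1 ≤ T →
    0 < V → (∀ n, ‖a n‖ ≤ 1) → (N : ℝ) * T ^ ε ≤ V ^ 2 → (∀ t ∈ W, 0 ≤ t ∧ t ≤ T) → Sep W →
    (∀ t ∈ W, V ≤ ‖F (Icc 1 N) ml a t‖) → (W.card : ℝ) ≤ C * (N : ℝ) ^ 2 / V ^ 2 * T ^ ε

/-- the `0`-`1` form -/
def ZOF : Prop :=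
  ∀ ε : ℝ, 0 < ε → ∃ C : ℝ, 0 < C ∧ ∀ (N : ℕ) (T : ℝ), 1 ≤ N → 1 ≤ T →
    ZOB (Icc 1 N) ml T (C * (N : ℝ) ^ (3 / 2 : ℝ) * T ^ ε)

theorem mont_to_zo (h : MontF) : ZOF := by
  classical
  intro ε hε
  obtain ⟨C, hC, hM⟩ := h (ε / 2) (by linarith)
  obtain ⟨K1, hK1, hlog⟩ : ∃ K : ℝ, 0 < K ∧ ∀ x : ℝ, 1 ≤ x → 1 + Real.log x ≤ K * x ^ (ε / 2) := by
    refine ⟨1 + 1 / (ε / 2), by positivity, ?_⟩
    intro x hx
    have h1 := Real.log_le_rpow_div (by linarith : (0 : ℝ) ≤ x) (by linarith : (0 : ℝ) < ε / 2)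
    have h2 : 1 ≤ x ^ (ε / 2) := Real.one_le_rpow hx (by linarith)
    calc 1 + Real.log x ≤ x ^ (ε / 2) + x ^ (ε / 2) / (ε / 2) := by linarith
      _ = _ := by ring
  refine ⟨Real.sqrt (3 + 4 * C * (2 * K1)), by positivity, ?_⟩
  intro N T hN hT S hS W hsep hW hc
  have hN1 : (1 : ℝ) ≤ N := by exact_mod_cast hN
  have hN0 : (0 : ℝ) < N := by linarith
  have hT0 : (0 : ℝ) < T := by linarith
  have hcN : (W.card : ℝ) ≤ N := by
    have h1 : (W.card : ℝ) ≤ ((Icc 1 N).card : ℝ) := by exact_mod_cast hc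
    rwa [card_I] at h1
  have hcT := card_le_T' hT0.le W hsep hW
  set b : ℕ → ℂ := fun n => if n ∈ S then 1 else 0 with hb
  have hb1 : ∀ n, ‖b n‖ ≤ 1 := by
    intro n
    rw [hb]
    simp only
    split_ifs <;> simp
  set X : ℝ := T ^ (ε / 2) with hX
  have hX1 : 1 ≤ X := Real.one_le_rpow hT (by linarith)
  set V₀ : ℝ := Real.sqrt (N * X + (N : ℝ) ^ 2 / T) with hV₀
  have hV₀2 : V₀ ^ 2 = N * X + (N : ℝ) ^ 2 / T := Real.sq_sqrt (by positivity)
  have hV₀0 : 0 < V₀ := Real.sqrt_pos.2 (by positivity)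
  have hlog2 : 0 < Real.log 2 := Real.log_pos (by norm_num)
  have hlT : 0 ≤ Real.log T := Real.log_nonneg hT
  set K : ℕ := ⌊Real.log T / Real.log 2⌋₊ + 1 with hK
  have hKge : Real.log T / Real.log 2 < K := by
    rw [hK]; push_cast; exact Nat.lt_floor_add_one _
  have hKle : (K : ℝ) ≤ 2 * (1 + Real.log T) := by
    rw [hK]; push_cast
    have h1 := Nat.floor_le (div_nonneg hlT hlog2.le)
    have h2 : Real.log T / Real.log 2 ≤ 2 * Real.log T := by
      rw [div_le_iff₀ hlog2]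
      have := Real.log_two_gt_d9
      nlinarith
    linarith
  have hpow : T < 2 ^ K := by
    rw [div_lt_iff₀ hlog2] at hKge
    have : Real.log T < Real.log (2 ^ K) := by
      rw [Real.log_pow]; exact hKge
    exact (Real.log_lt_log_iff hT0 (by positivity)).1 this
  have hNV : (N : ℝ) < 2 ^ K * V₀ := by
    have h1 : (N : ℝ) ^ 2 < (2 ^ K * V₀) ^ 2 := by
      rw [mul_pow, hV₀2]
      have h2 : (N : ℝ) ^ 2 / T ≤ N * X + (N : ℝ) ^ 2 / T := by
        have : 0 ≤ (N : ℝ) * X := by positivity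
        linarith
      have h3 : T < (2 ^ K) ^ 2 := by
        have h4 : (1 : ℝ) ≤ 2 ^ K := one_le_pow₀ (by norm_num)
        nlinarith
      have h5 : 0 < (N : ℝ) ^ 2 / T := by positivity
      calc (N : ℝ) ^ 2 = T * ((N : ℝ) ^ 2 / T) := by field_simp
        _ < (2 ^ K) ^ 2 * ((N : ℝ) ^ 2 / T) := mul_lt_mul_of_pos_right h3 h5
        _ ≤ _ := mul_le_mul_of_nonneg_left h2 (by positivity)
    exact lt_of_pow_lt_pow_left₀ 2 (by positivity) h1
  have hsq := sq_of_levels W (fun t => ‖F (Icc 1 N) ml b t‖) (fun t _ => norm_nonneg _) (V₀ := V₀)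
    (M := C * (N : ℝ) ^ 2 * X) hV₀0 K (fun t _ => by
      have := F_le (Icc 1 N) ml b (fun n _ => hb1 n) t
      rw [card_I] at this
      exact lt_of_le_of_lt this hNV) (by
      intro V hV
      have hVp : 0 < V := lt_of_lt_of_le hV₀0 hV
      have h1 := hM N T V b (W.filter (fun t => V ≤ ‖F (Icc 1 N) ml b t‖)) hN hT hVp hb1 (by
        have h2 : V₀ ^ 2 ≤ V ^ 2 := pow_le_pow_left₀ hV₀0.le hV 2
        rw [hV₀2] at h2
        have : 0 ≤ (N : ℝ) ^ 2 / T := by positivity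
        linarith) (fun t ht => hW t (mem_filter.1 ht).1) (hsep.mono (filter_subset _ _))
        (fun t ht => (mem_filter.1 ht).2)
      have h2 : C * (N : ℝ) ^ 2 / V ^ 2 * T ^ (ε / 2) * V ^ 2 = C * (N : ℝ) ^ 2 * X := by
        rw [hX]; field_simp
      calc _ ≤ C * (N : ℝ) ^ 2 / V ^ 2 * T ^ (ε / 2) * V ^ 2 :=
            mul_le_mul_of_nonneg_right h1 (by positivity)
        _ = _ := h2)
  have hfin : (W.card : ℝ) * V₀ ^ 2 + K * (4 * (C * (N : ℝ) ^ 2 * X)) ≤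
      (3 + 4 * C * (2 * K1)) * ((N : ℝ) ^ 2 * (X * X)) := by
    have h1 : (W.card : ℝ) * V₀ ^ 2 ≤ 3 * ((N : ℝ) ^ 2 * (X * X)) := by
      rw [hV₀2, mul_add]
      have h2 : (W.card : ℝ) * (N * X) ≤ (N : ℝ) ^ 2 * (X * X) := by
        calc (W.card : ℝ) * (N * X) ≤ N * (N * X) := mul_le_mul_of_nonneg_right hcN (by positivity)
          _ = (N : ℝ) ^ 2 * (X * 1) := by ring
          _ ≤ _ := by gcongr
      have h3 : (W.card : ℝ) * ((N : ℝ) ^ 2 / T) ≤ 2 * (N : ℝ) ^ 2 := by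
        calc (W.card : ℝ) * ((N : ℝ) ^ 2 / T) ≤ (2 * T) * ((N : ℝ) ^ 2 / T) :=
              mul_le_mul_of_nonneg_right (by linarith) (by positivity)
          _ = _ := by field_simp
      have h4 : (N : ℝ) ^ 2 ≤ (N : ℝ) ^ 2 * (X * X) := by
        have : 1 ≤ X * X := one_le_mul_of_one_le_of_one_le hX1 hX1
        have h5 : 0 ≤ (N : ℝ) ^ 2 := by positivity
        nlinarith
      linarith
    have h2 : (K : ℝ) * (4 * (C * (N : ℝ) ^ 2 * X)) ≤ 4 * C * (2 * K1) * ((N : ℝ) ^ 2 * (X * X)) := by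
      have h3 := hlog T hT
      calc (K : ℝ) * (4 * (C * (N : ℝ) ^ 2 * X)) ≤ (2 * (K1 * X)) * (4 * (C * (N : ℝ) ^ 2 * X)) := by
            apply mul_le_mul_of_nonneg_right _ (by positivity)
            linarith
        _ = _ := by ring
    linarith
  have hz := zo_sq (Icc 1 N) ml S hS W (hsq.trans hfin)
  have hbound : (W.card : ℝ) * ((3 + 4 * C * (2 * K1)) * ((N : ℝ) ^ 2 * (X * X))) ≤
      (Real.sqrt (3 + 4 * C * (2 * K1)) * (N : ℝ) ^ (3 / 2 : ℝ) * T ^ ε) ^ 2 := by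
    have e1 : (Real.sqrt (3 + 4 * C * (2 * K1)) * (N : ℝ) ^ (3 / 2 : ℝ) * T ^ ε) ^ 2 =
        (3 + 4 * C * (2 * K1)) * ((N : ℝ) ^ 3 * (T ^ ε * T ^ ε)) := by
      rw [mul_pow, mul_pow, Real.sq_sqrt (by positivity)]
      have e2 : ((N : ℝ) ^ (3 / 2 : ℝ)) ^ 2 = (N : ℝ) ^ 3 := by
        rw [← Real.rpow_natCast, ← Real.rpow_mul hN0.le]
        norm_num
      rw [e2]
      ring
    have e3 : X * X = T ^ ε := by
      rw [hX, ← Real.rpow_add hT0]
      congr 1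
      ring
    have h1 : 1 ≤ T ^ ε := Real.one_le_rpow hT hε.le
    rw [e1, e3]
    calc (W.card : ℝ) * ((3 + 4 * C * (2 * K1)) * ((N : ℝ) ^ 2 * T ^ ε))
        ≤ N * ((3 + 4 * C * (2 * K1)) * ((N : ℝ) ^ 2 * T ^ ε)) :=
          mul_le_mul_of_nonneg_right hcN (by positivity)
      _ = (3 + 4 * C * (2 * K1)) * ((N : ℝ) ^ 3 * (T ^ ε * 1)) := by ring
      _ ≤ _ := by gcongr
  exact le_of_sq_le_sq (hz.trans hbound) (by positivity)

/-- the `0`-`1` form for `T ≥ N` -/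
def ZOF' : Prop :=
  ∀ ε : ℝ, 0 < ε → ∃ C : ℝ, 0 < C ∧ ∀ (N : ℕ) (T : ℝ), 1 ≤ N → (N : ℝ) ≤ T →
    ZOB (Icc 1 N) ml T (C * (N : ℝ) ^ (3 / 2 : ℝ) * T ^ ε)

theorem zo_to_mont (h : ZOF') : MontF := by
  classical
  intro ε hε
  obtain ⟨C, hC, hZ⟩ := h (ε / 8) (by linarith)
  obtain ⟨K1, hK1, hlog⟩ : ∃ K : ℝ, 0 < K ∧ ∀ x : ℝ, 1 ≤ x → 1 + Real.log x ≤ K * x ^ (ε / 8) := by
    refine ⟨1 + 1 / (ε / 8), by positivity, ?_⟩
    intro x hx
    have h1 := Real.log_le_rpow_div (by linarith : (0 : ℝ) ≤ x) (by linarith : (0 : ℝ) < ε / 8)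
    have h2 : 1 ≤ x ^ (ε / 8) := Real.one_le_rpow hx (by linarith)
    calc 1 + Real.log x ≤ x ^ (ε / 8) + x ^ (ε / 8) / (ε / 8) := by linarith
      _ = _ := by ring
  obtain ⟨Cs, hCs, hsmall⟩ := small
  set M0 : ℝ := 2 ^ 23 * K1 * C ^ 2 with hM0
  have hM00 : 0 < M0 := by positivity
  -- the bound with `T ≥ N`
  have hbig : ∀ (N : ℕ) (T : ℝ), 1 ≤ N → (N : ℝ) ≤ T →
      LVB (Icc 1 N) ml T (M0 * (N : ℝ) ^ 2 * T ^ (3 * ε / 8)) := by
    intro N T hN hNT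
    have hN1 : (1 : ℝ) ≤ N := by exact_mod_cast hN
    have hN0 : (0 : ℝ) < N := by linarith
    have hT : 1 ≤ T := hN1.trans hNT
    have hT0 : 0 < T := by linarith
    have h1 := lv_of_zo (Icc 1 N) ml ⟨1, mem_Icc.2 ⟨le_rfl, hN⟩⟩ (by rw [card_I]; exact hNT)
      (hZ N T hN hNT)
    rw [card_I] at h1
    intro b W V hb hsep hW hc hV hVW
    refine (h1 b W V hb hsep hW hc hV hVW).trans ?_
    rw [div_le_iff₀ hN0]
    have h2 : Real.log (16 * N) ≤ 4 * (K1 * T ^ (ε / 8)) := by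
      have h3 := log16 hN1
      have h4 := hlog T hT
      have h5 := Real.log_le_log hN0 hNT
      linarith
    have e1 : (C * (N : ℝ) ^ (3 / 2 : ℝ) * T ^ (ε / 8)) ^ 2 =
        C ^ 2 * (N : ℝ) ^ 3 * (T ^ (ε / 8) * T ^ (ε / 8)) := by
      have e2 : ((N : ℝ) ^ (3 / 2 : ℝ)) ^ 2 = (N : ℝ) ^ 3 := by
        rw [← Real.rpow_natCast, ← Real.rpow_mul hN0.le]
        norm_num
      rw [mul_pow, mul_pow, e2]
      ring
    have e3 : T ^ (3 * ε / 8) = T ^ (ε / 8) * (T ^ (ε / 8) * T ^ (ε / 8)) := by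
      rw [← Real.rpow_add hT0, ← Real.rpow_add hT0]
      congr 1
      ring
    rw [e1, e3]
    calc 2 ^ 21 * Real.log (16 * N) * (C ^ 2 * (N : ℝ) ^ 3 * (T ^ (ε / 8) * T ^ (ε / 8)))
        ≤ 2 ^ 21 * (4 * (K1 * T ^ (ε / 8))) * (C ^ 2 * (N : ℝ) ^ 3 * (T ^ (ε / 8) * T ^ (ε / 8))) := by
          gcongr
      _ = _ := by rw [hM0]; ring
  set T0 : ℝ := M0 ^ (8 / (5 * ε)) + 1 with hT0def
  refine ⟨M0 + 2 * T0 + Cs * (2 * K1), by positivity, ?_⟩
  intro N T V a W hN hT hV ha hNV hW hsep hVW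
  have hN1 : (1 : ℝ) ≤ N := by exact_mod_cast hN
  have hN0 : (0 : ℝ) < N := by linarith
  have hT0 : 0 < T := by linarith
  have hTε : 1 ≤ T ^ ε := Real.one_le_rpow hT hε.le
  rcases W.eq_empty_or_nonempty with rfl | hne
  · rw [card_empty, Nat.cast_zero]
    positivity
  have hVN : V ≤ N := by
    obtain ⟨t, ht⟩ := hne
    have h1 := F_le (Icc 1 N) ml a (fun n _ => ha n) t
    rw [card_I] at h1
    exact (hVW t ht).trans h1
  have hratio : 1 ≤ (N : ℝ) ^ 2 / V ^ 2 := by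
    rw [le_div_iff₀ (by positivity), one_mul]
    exact pow_le_pow_left₀ hV.le hVN 2
  have hcT := card_le_T' hT0.le W hsep hW
  have conv : ∀ M : ℝ, 0 ≤ M → M ≤ M0 + 2 * T0 + Cs * (2 * K1) → (W.card : ℝ) * V ^ 2 ≤
      M * (N : ℝ) ^ 2 * T ^ ε →
      (W.card : ℝ) ≤ (M0 + 2 * T0 + Cs * (2 * K1)) * (N : ℝ) ^ 2 / V ^ 2 * T ^ ε := by
    intro M hM hMle h1
    have h2 : (W.card : ℝ) ≤ M * (N : ℝ) ^ 2 * T ^ ε / V ^ 2 := by
      rw [le_div_iff₀ (by positivity)]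
      exact h1
    refine h2.trans ?_
    have e : M * (N : ℝ) ^ 2 * T ^ ε / V ^ 2 = M * (N : ℝ) ^ 2 / V ^ 2 * T ^ ε := by ring
    rw [e]
    gcongr
  rcases le_or_gt (N : ℝ) T with hNT | hNT
  · -- `T ≥ N`
    rcases le_or_gt W.card N with hc | hc
    · have h1 := hbig N T hN hNT a W V (fun n _ => ha n) hsep hW (by
        rw [Nat.card_Icc, Nat.add_sub_cancel]; exact hc) hV hVW
      apply conv M0 hM00.le (by
        have : 0 ≤ 2 * T0 := by positivity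
        have : 0 ≤ Cs * (2 * K1) := by positivity
        linarith)
      refine h1.trans ?_
      apply mul_le_mul_of_nonneg_left _ (by positivity)
      exact Real.rpow_le_rpow_of_exponent_le hT (by linarith)
    · obtain ⟨W1, hW1, hc1⟩ := exists_subset_card_eq hc.le
      have h1 := hbig N T hN hNT a W1 V (fun n _ => ha n) (hsep.mono hW1) (fun t ht => hW t (hW1 ht))
        (by rw [Nat.card_Icc, Nat.add_sub_cancel, hc1]) hV (fun t ht => hVW t (hW1 ht))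
      rw [hc1] at h1
      have h2 : (N : ℝ) * (N * T ^ ε) ≤ M0 * (N : ℝ) ^ 2 * T ^ (3 * ε / 8) :=
        (mul_le_mul_of_nonneg_left hNV hN0.le).trans h1
      have h3 : T ^ ε ≤ M0 * T ^ (3 * ε / 8) := by
        have h4 : (N : ℝ) ^ 2 * T ^ ε ≤ (N : ℝ) ^ 2 * (M0 * T ^ (3 * ε / 8)) := by
          calc (N : ℝ) ^ 2 * T ^ ε = (N : ℝ) * (N * T ^ ε) := by ring
            _ ≤ _ := h2
            _ = _ := by ring
        exact le_of_mul_le_mul_left h4 (by positivity)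
      have h4 : T ^ (5 * ε / 8) ≤ M0 := by
        have e : T ^ ε = T ^ (5 * ε / 8) * T ^ (3 * ε / 8) := by
          rw [← Real.rpow_add hT0]
          congr 1
          ring
        rw [e] at h3
        exact le_of_mul_le_mul_right h3 (Real.rpow_pos_of_pos hT0 _)
      have h5 : T ≤ M0 ^ (8 / (5 * ε)) := by
        have h6 : (T ^ (5 * ε / 8)) ^ (8 / (5 * ε)) ≤ M0 ^ (8 / (5 * ε)) :=
          Real.rpow_le_rpow (by positivity) h4 (by positivity)
        rw [← Real.rpow_mul hT0.le] at h6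
        have e : 5 * ε / 8 * (8 / (5 * ε)) = 1 := by field_simp
        rw [e, Real.rpow_one] at h6
        exact h6
      have h6 : (W.card : ℝ) ≤ 2 * T0 := by
        rw [hT0def]; linarith
      have hsum : 0 ≤ M0 + Cs * (2 * K1) := by positivity
      calc (W.card : ℝ) ≤ 2 * T0 := h6
        _ ≤ (M0 + 2 * T0 + Cs * (2 * K1)) * 1 * 1 := by linarith
        _ ≤ (M0 + 2 * T0 + Cs * (2 * K1)) * ((N : ℝ) ^ 2 / V ^ 2) * T ^ ε := by
            have : 0 ≤ T0 := by positivity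
            gcongr
        _ = _ := by ring
  · rcases le_or_gt (N : ℝ) (T ^ 2) with hNT2 | hNT2
    · -- `N^{1/2} ≤ T < N`
      have hc : W.card ≤ N := by
        have : (W.card : ℝ) < N + 1 := by linarith
        have : W.card < N + 1 := by exact_mod_cast this
        omega
      have h1 := hbig N N hN le_rfl a W V (fun n _ => ha n) hsep
        (fun t ht => ⟨(hW t ht).1, (hW t ht).2.trans hNT.le⟩) (by
        rw [Nat.card_Icc, Nat.add_sub_cancel]; exact hc) hV hVW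
      apply conv M0 hM00.le (by
        have : 0 ≤ 2 * T0 := by positivity
        have : 0 ≤ Cs * (2 * K1) := by positivity
        linarith)
      refine h1.trans ?_
      apply mul_le_mul_of_nonneg_left _ (by positivity)
      calc (N : ℝ) ^ (3 * ε / 8) ≤ (T ^ 2) ^ (3 * ε / 8) :=
            Real.rpow_le_rpow hN0.le hNT2 (by positivity)
        _ = T ^ (2 * (3 * ε / 8)) := by
            rw [← Real.rpow_natCast T 2, ← Real.rpow_mul hT0.le]
            norm_num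
        _ ≤ T ^ ε := Real.rpow_le_rpow_of_exponent_le hT (by linarith)
    · -- `T < N^{1/2}`
      have h1 := hsmall N T V (fun n => (starRingEnd ℂ) (a n)) W hN hT hNT2.le (fun n _ => by
        rw [Complex.norm_conj]; exact ha n) hsep hW hV (fun t ht => by
        rw [← norm_conj_F]; exact hVW t ht)
      apply conv (Cs * (2 * K1)) (by positivity) (by
        have : 0 ≤ 2 * T0 := by positivity
        linarith)
      refine h1.trans ?_
      have h2 : 1 + Real.log (T + 1) ≤ 2 * K1 * T ^ ε := by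
        have h3 : Real.log (T + 1) ≤ Real.log (2 * T) := Real.log_le_log (by linarith) (by linarith)
        have h4 : Real.log (2 * T) = Real.log 2 + Real.log T := Real.log_mul (by norm_num) hT0.ne'
        have h5 := Real.log_two_lt_d9
        have h6 := Real.log_nonneg hT
        have h7 := hlog T hT
        have h8 : T ^ (ε / 8) ≤ T ^ ε := Real.rpow_le_rpow_of_exponent_le hT (by linarith)
        have h9 : K1 * T ^ (ε / 8) ≤ K1 * T ^ ε := mul_le_mul_of_nonneg_left h8 hK1.le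
        linarith
      calc Cs * (1 + Real.log (T + 1)) * (N : ℝ) ^ 2 ≤ Cs * (2 * K1 * T ^ ε) * (N : ℝ) ^ 2 := by
            gcongr
        _ = _ := by ring

end Pool.Agent.N793.LV
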